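import Pool.Agent.Q74.BT.Stm

/-! # Project BT: the constant -/

set_option autoImplicit false

namespace Pool.Agent.Q74.BT

open Pool.Agent.H395R2.G3 (rr FF rate exists_gamma expo_eq rr_spec mu_gt FF_root_unique rr_pos rr_lt_one)

theorem exists_IsG : ∃ γ : ℝ, IsG γ ∧ γ > ((1 / 2) * Real.log (4 / 3))⁻¹ ∧ γ * rate (1 / γ) = 1 ∧
    ∀ γ' : ℝ, γ' > ((1 / 2) * Real.log (4 / 3))⁻¹ → γ' * rate (1 / γ') = 1 → γ' = γ := by
  obtain ⟨γ, hnum, hγ, huniq, hpos⟩ := exists_gamma
  refine ⟨γ, ⟨hnum.1, hnum.2, ?_, hpos⟩, hγ.1, hγ.2, huniq⟩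
  have h1 := expo_eq (mu_gt.trans hγ.1)
  rw [hγ.2, sub_self] at h1
  rcases mul_eq_zero.1 h1.symm with h | h
  · have := hnum.1
    norm_num [h] at this
  · exact h

/-- the constant `D` -/
theorem DD_eq {γ : ℝ} (h : IsG γ) : DD γ = γ * (Real.log 2 / Real.log 3 - 1 / 2) - 1 / Real.log 3 + 1 / (2 * Real.log 2) := by
  have hl3 : 0 < Real.log 3 := Real.log_pos (by norm_num)
  have hl2 : 0 < Real.log 2 := Real.log_pos (by norm_num)
  have hγ : 0 < γ := by
    have := h.1
    linarith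
  unfold DD rr
  field_simp
  ring

theorem DD_bounds {γ : ℝ} (h : IsG γ) : 5.26 < DD γ ∧ DD γ < 5.27 := by
  rw [DD_eq h]
  have l2a := Real.log_two_gt_d9
  have l2b := Real.log_two_lt_d9
  have l3a := Real.log_three_gt_d9
  have l3b := Real.log_three_lt_d9
  norm_num at l2a l2b l3a l3b
  have h1 : (0.63092975 : ℝ) < Real.log 2 / Real.log 3 := by
    rw [lt_div_iff₀ (by linarith)]
    nlinarith
  have h2 : Real.log 2 / Real.log 3 < 0.63092976 := by
    rw [div_lt_iff₀ (by linarith)]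
    nlinarith
  have h3 : (0.91023922 : ℝ) < 1 / Real.log 3 := by
    rw [lt_div_iff₀ (by linarith)]
    nlinarith
  have h4 : 1 / Real.log 3 < (0.91023923 : ℝ) := by
    rw [div_lt_iff₀ (by linarith)]
    nlinarith
  have h5 : (0.7213475 : ℝ) < 1 / (2 * Real.log 2) := by
    rw [lt_div_iff₀ (by linarith)]
    nlinarith
  have h6 : 1 / (2 * Real.log 2) < (0.7213476 : ℝ) := by
    rw [div_lt_iff₀ (by linarith)]
    nlinarith
  have g1 := h.1
  have g2 := h.2.1
  constructor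
  · have : (41.6776 : ℝ) * (0.63092975 - 1 / 2) < γ * (Real.log 2 / Real.log 3 - 1 / 2) := by
      apply mul_lt_mul' g1.le (by linarith) (by norm_num) (by linarith)
    norm_num at *
    linarith
  · have : γ * (Real.log 2 / Real.log 3 - 1 / 2) < 41.6777 * (0.63092976 - 1 / 2) := by
      apply mul_lt_mul' g2.le (by linarith) (by linarith) (by norm_num)
    norm_num at *
    linarith

end Pool.Agent.Q74.BT
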