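import Pool.Agent.Q74.BT.Gam
import Pool.Agent.Q16.BT.Pin

/-! # Project BT: theorem B, assembly -/

set_option autoImplicit false

namespace Pool.Agent.Q74.BT

open Finset
open Pool.Agent.Q158.Pair (T)
open Pool.Agent.Q74.KP (EE Pe Erf)
open Pool.Agent.Q74.AR (oc oc_per)
open Pool.Agent.Q74.BL (nx T_add)
open Pool.Agent.H395R2.G3 (rate)

/-- scaling of the error function -/
theorem Erf_scale {x c : ℝ} (hx : 0 ≤ x) (hc : 1 ≤ c) : Erf (c * x) - Erf x ≤ c - 1 := by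
  have hxc : x ≤ c * x := by nlinarith
  have hcont : Continuous (fun y : ℝ => Real.exp (-y ^ 2)) := by fun_prop
  have h1 : Erf (c * x) - Erf x = 2 / √Real.pi * ∫ y in x..(c * x), Real.exp (-y ^ 2) := by
    unfold Pool.Agent.Q74.KP.Erf
    rw [← mul_sub, intervalIntegral.integral_interval_sub_left (hcont.intervalIntegrable _ _)
      (hcont.intervalIntegrable _ _)]
  have h2 : ∫ y in x..(c * x), Real.exp (-y ^ 2) ≤ ∫ y in x..(c * x), Real.exp (-x ^ 2) := by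
    apply intervalIntegral.integral_mono_on hxc (hcont.intervalIntegrable _ _)
      (continuous_const.intervalIntegrable _ _)
    intro y hy
    apply Real.exp_le_exp.2
    have := hy.1
    nlinarith
  rw [intervalIntegral.integral_const, smul_eq_mul] at h2
  have h3 : x * Real.exp (-x ^ 2) ≤ 1 / 2 := by
    rw [Real.exp_neg]
    have h4 : 2 * x ≤ Real.exp (x ^ 2) := by
      have := Real.add_one_le_exp (x ^ 2)
      nlinarith [sq_nonneg (x - 1)]
    rw [← div_eq_mul_inv, div_le_iff₀ (Real.exp_pos _)]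
    linarith
  have h5 : 2 / √Real.pi ≤ 2 := by
    have h6 : (1 : ℝ) ≤ √Real.pi := by
      rw [Real.one_le_sqrt]
      linarith [Real.pi_gt_three]
    rw [div_le_iff₀ (by linarith)]
    linarith
  rw [h1]
  have h7 : (c * x - x) * Real.exp (-x ^ 2) ≤ (c - 1) * (1 / 2) := by
    have : (c * x - x) * Real.exp (-x ^ 2) = (c - 1) * (x * Real.exp (-x ^ 2)) := by ring
    rw [this]
    exact mul_le_mul_of_nonneg_left h3 (by linarith)
  have h8 : 0 ≤ ∫ y in x..(c * x), Real.exp (-y ^ 2) :=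
    intervalIntegral.integral_nonneg hxc fun y _ => (Real.exp_pos _).le
  calc 2 / √Real.pi * ∫ y in x..(c * x), Real.exp (-y ^ 2)
      ≤ 2 * ∫ y in x..(c * x), Real.exp (-y ^ 2) := mul_le_mul_of_nonneg_right h5 h8
    _ ≤ 2 * ((c - 1) * (1 / 2)) := by linarith
    _ = c - 1 := by ring

/-- not constant on the block -/
def ncon (L t : ℕ) (n : ℤ) : Prop := ∃ i j : ℕ, i < L ∧ j < L ∧ T^[t] (n + i) ≠ T^[t] (n + j)

theorem ncon_iff (L t : ℕ) (n : ℤ) : ncon L t n ↔ 2 ≤ Vn L t n := by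
  unfold ncon Vn
  rw [show (2 ≤ #((range L).image fun j : ℕ => T^[t] (n + j))) ↔ 1 < #((range L).image fun j : ℕ => T^[t] (n + j))
    from Iff.rfl, one_lt_card]
  constructor
  · rintro ⟨i, j, hi, hj, h⟩
    exact ⟨_, mem_image.2 ⟨i, mem_range.2 hi, rfl⟩, _, mem_image.2 ⟨j, mem_range.2 hj, rfl⟩, h⟩
  · rintro ⟨x, hx, y, hy, h⟩
    obtain ⟨i, hi, rfl⟩ := mem_image.1 hx
    obtain ⟨j, hj, rfl⟩ := mem_image.1 hy
    exact ⟨i, j, mem_range.1 hi, mem_range.1 hj, h⟩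

/-- the number of values is at most the number of forms -/
theorem Vn_le (L t : ℕ) (n : ℤ) : Vn L t n ≤ (VV L t n).card := by
  unfold Vn VV
  have h : (range L).image (fun j : ℕ => T^[t] (n + j)) =
      ((range L).image (fun j : ℕ => nx t n (0, (j : ℤ)))).image Prod.snd := by
    rw [image_image]
    congr 1
    funext j
    simp [nx]
  rw [h]
  exact card_image_le

theorem VV_per (L t : ℕ) (n j : ℤ) : (VV L t (n + 2 ^ t * j)).card = (VV L t n).card := by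
  have h : VV L t (n + 2 ^ t * j) = (VV L t n).image (fun z : ℕ × ℤ => (z.1, z.2 + 3 ^ z.1 * j)) := by
    unfold VV
    rw [image_image]
    congr 1
    funext i
    simp only [Function.comp, nx, pow_zero, one_mul, Nat.zero_add]
    have e : n + 2 ^ t * j + (i : ℤ) = (n + i) + 2 ^ t * j := by ring
    rw [e, oc_per, T_add]
  rw [h]
  apply card_image_of_injective
  rintro ⟨a, b⟩ ⟨a', b'⟩ hab
  simp only [Prod.mk.injEq] at hab
  obtain ⟨rfl, h2⟩ := hab
  simpa using h2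

/-- the law, in windows -/
theorem law (h1 : S_Up) (h2 : S_Lo) {γ : ℝ} (hG : IsG γ) {ε : ℝ} (hε : 0 < ε) :
    ∃ t₀ K : ℕ, ∀ t : ℕ, t₀ ≤ t → ∀ L : ℕ, 1 ≤ L → ∀ (M : ℤ) (W : ℕ), K * 2 ^ t ≤ W →
      |({n : ℤ | M ≤ n ∧ n < M + W ∧ ncon L t n}.ncard : ℝ) - Erf (DD γ * Real.log L / √t) * W| ≤ ε * W := by
  classical
  obtain ⟨t₁, g1⟩ := h1 γ hG (ε / 2) (by positivity)
  obtain ⟨t₂, K₂, g2⟩ := h2 γ hG ε hε
  obtain ⟨K₁, hK₁⟩ := exists_nat_ge (4 / ε)
  refine ⟨t₁ + t₂, K₁ + K₂, fun t ht L hL M W hW => ?_⟩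
  have hset : {n : ℤ | M ≤ n ∧ n < M + W ∧ ncon L t n} = {n : ℤ | M ≤ n ∧ n < M + W ∧ 2 ≤ Vn L t n} := by
    ext n
    simp only [Set.mem_ofPred_eq, ncon_iff]
  rw [hset]
  have hW1 : K₁ * 2 ^ t ≤ W := le_trans (Nat.mul_le_mul_right _ (by omega)) hW
  have hW2 : K₂ * 2 ^ t ≤ W := le_trans (Nat.mul_le_mul_right _ (by omega)) hW
  have hlo := g2 t (by omega) L hL M W hW2
  have hup := g1 t (by omega) L hL
  set F : ℤ → ℝ := fun x => Set.indicator {x : ℤ | 2 ≤ (VV L t x).card} 1 x with hF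
  have hFp : Pe t F := by
    intro x j
    rw [hF]
    simp only [Set.indicator, Set.mem_ofPred_eq, Pi.one_apply]
    rw [VV_per]
  have hF1 : ∀ x, |F x| ≤ 1 := by
    intro x
    rw [hF]
    simp only [Set.indicator]
    split_ifs <;> simp
  have hcnt := Pool.Agent.Q74.KP.count_bd hFp hF1 1 0 (by norm_num) M W
  simp only [one_mul, add_zero] at hcnt
  have hle : ({n : ℤ | M ≤ n ∧ n < M + W ∧ 2 ≤ Vn L t n}.ncard : ℝ) ≤ ∑ x ∈ Ico M (M + W), F x := by
    rw [Pool.Agent.Q158.Pair.ncard_eq (fun n => 2 ≤ Vn L t n), card_filter]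
    push_cast
    apply sum_le_sum
    intro n _
    rw [hF]
    simp only [Set.indicator, Set.mem_ofPred_eq]
    by_cases h : 2 ≤ Vn L t n
    · rw [if_pos h, if_pos (h.trans (Vn_le L t n))]
      simp
    · rw [if_neg h]
      split_ifs <;> simp
  have hW0 : (0 : ℝ) ≤ W := Nat.cast_nonneg W
  have h2t : (2 : ℝ) ^ t * 4 ≤ ε * W := by
    have h3 : (K₁ : ℝ) * 2 ^ t ≤ W := by exact_mod_cast hW1
    have h4 : 4 / ε * 2 ^ t ≤ W := (mul_le_mul_of_nonneg_right hK₁ (by positivity)).trans h3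
    rw [div_mul_eq_mul_div, div_le_iff₀ hε] at h4
    linarith
  rw [abs_le]
  constructor
  · linarith
  · have h5 : EE t F * W ≤ (Erf (DD γ * Real.log L / √t) + ε / 2) * W := mul_le_mul_of_nonneg_right hup hW0
    have h6 := (abs_le.1 hcnt).2
    linarith


theorem F_iter {F : ℤ → ℤ} (hF : ∀ x, F (T x) = F x) (t : ℕ) (x : ℤ) : F (T^[t] x) = F x := by
  induction t with
  | zero => rfl
  | succ t ih => rw [Function.iterate_succ_apply', hF, ih]

/-- invariant functions -/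
theorem inv (h1 : S_Up) (h2 : S_Lo) {γ : ℝ} (hG : IsG γ) {ε : ℝ} (hε : 0 < ε) :
    ∃ W₀ : ℕ, ∀ W : ℕ, W₀ ≤ W → ∀ (L : ℕ) (M : ℤ), 1 ≤ L → ∀ F : ℤ → ℤ, (∀ x, F (T x) = F x) →
      ({n : ℤ | M ≤ n ∧ n < M + W ∧ ∃ i j : ℕ, i < L ∧ j < L ∧ F (n + i) ≠ F (n + j)}.ncard : ℝ) ≤
        (Erf (DD γ * Real.log L / √(Real.logb 2 W)) + ε) * W := by
  classical
  obtain ⟨t₀, K, h⟩ := law h1 h2 hG (show 0 < ε / 2 by positivity)
  -- t = the largest with (K+1) 2^t ≤ W
  obtain ⟨T₀, hT₀⟩ := exists_nat_ge ((Real.logb 2 (K + 1) + 1) * (2 / ε) + 1)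
  refine ⟨(K + 1) * 2 ^ (t₀ + T₀ + 1), fun W hW L M hL F hF => ?_⟩
  set t := Nat.log 2 (W / (K + 1)) with ht
  have hK1 : 0 < K + 1 := by omega
  have hq : 2 ^ (t₀ + T₀ + 1) ≤ W / (K + 1) := by
    rw [Nat.le_div_iff_mul_le hK1]
    linarith
  have hq0 : W / (K + 1) ≠ 0 := by
    have : 0 < 2 ^ (t₀ + T₀ + 1) := by positivity
    omega
  have ht1 : t₀ + T₀ + 1 ≤ t := (Nat.le_log_iff_pow_le (by norm_num) hq0).2 hq
  have hpow : 2 ^ t ≤ W / (K + 1) := Nat.pow_log_le_self 2 hq0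
  have hKt : (K + 1) * 2 ^ t ≤ W := by
    have := (Nat.le_div_iff_mul_le hK1).1 hpow
    linarith
  have hKt' : K * 2 ^ t ≤ W := le_trans (Nat.mul_le_mul_right _ (by omega)) hKt
  have hlt : W < (K + 1) * 2 ^ (t + 1) := by
    have h3 : W / (K + 1) < 2 ^ (t + 1) := Nat.lt_pow_succ_log_self (by norm_num) _
    rw [Nat.div_lt_iff_lt_mul hK1] at h3
    linarith
  have hlaw := (abs_le.1 (h t (by omega) L hL M W hKt')).2
  have hfin : ({n : ℤ | M ≤ n ∧ n < M + W ∧ ncon L t n}).Finite :=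
    (Set.finite_Ico M (M + W)).subset (fun n hn => ⟨hn.1, hn.2.1⟩)
  have hsub : {n : ℤ | M ≤ n ∧ n < M + W ∧ ∃ i j : ℕ, i < L ∧ j < L ∧ F (n + i) ≠ F (n + j)} ⊆
      {n : ℤ | M ≤ n ∧ n < M + W ∧ ncon L t n} := by
    rintro n ⟨hn1, hn2, i, j, hi, hj, hne⟩
    refine ⟨hn1, hn2, i, j, hi, hj, fun he => hne ?_⟩
    rw [← F_iter hF t (n + i), he, F_iter hF]
  have h3 : ({n : ℤ | M ≤ n ∧ n < M + W ∧ ∃ i j : ℕ, i < L ∧ j < L ∧ F (n + i) ≠ F (n + j)}.ncard : ℝ) ≤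
      ({n : ℤ | M ≤ n ∧ n < M + W ∧ ncon L t n}.ncard : ℝ) := by
    exact_mod_cast Set.ncard_le_ncard hsub hfin
  have hW0 : (0 : ℝ) ≤ W := Nat.cast_nonneg W
  have hL1 : (1 : ℝ) ≤ L := by exact_mod_cast hL
  have hlog : 0 ≤ Real.log L := Real.log_nonneg hL1
  have hD : 0 ≤ DD γ := by
    have := (DD_bounds hG).1
    linarith
  have ht0 : (0 : ℝ) < t := by
    have : 0 < t := by omega
    exact_mod_cast this
  -- logb W is close to t
  set T' := Real.logb 2 W with hT'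
  have hWpos : (0 : ℝ) < W := by
    have : 0 < (K + 1) * 2 ^ t := by positivity
    have : 0 < W := by omega
    exact_mod_cast this
  have hTt : (t : ℝ) ≤ T' := by
    rw [hT', Real.le_logb_iff_rpow_le (by norm_num) hWpos, Real.rpow_natCast]
    have : 2 ^ t ≤ W := le_trans (Nat.le_mul_of_pos_left _ hK1) hKt
    exact_mod_cast this
  have hTt' : T' ≤ t + (Real.logb 2 (K + 1) + 1) := by
    have h5 : (W : ℝ) ≤ (K + 1) * 2 ^ (t + 1) := by exact_mod_cast hlt.le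
    have h6 : T' ≤ Real.logb 2 ((K + 1) * 2 ^ (t + 1)) :=
      Real.logb_le_logb_of_le (by norm_num) hWpos h5
    rw [Real.logb_mul (by positivity) (by positivity), ← Real.rpow_natCast,
      Real.logb_rpow (by norm_num) (by norm_num)] at h6
    push_cast at h6
    linarith
  have hT0 : 0 < T' := by linarith
  have hsT : 0 < √T' := Real.sqrt_pos.2 hT0
  have hst : 0 < √(t : ℝ) := Real.sqrt_pos.2 ht0
  set x := DD γ * Real.log L / √T' with hx
  have hx0 : 0 ≤ x := by positivity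
  set c := √T' / √(t : ℝ) with hc
  have hc1 : 1 ≤ c := by
    rw [hc, one_le_div hst]
    exact Real.sqrt_le_sqrt hTt
  have hcx : c * x = DD γ * Real.log L / √(t : ℝ) := by
    rw [hc, hx]
    field_simp
  have hc2 : c - 1 ≤ ε / 2 := by
    have h7 : c ^ 2 = T' / t := by
      rw [hc, div_pow, Real.sq_sqrt hT0.le, Real.sq_sqrt ht0.le]
    have hA : 0 ≤ Real.logb 2 ((K : ℝ) + 1) + 1 := by
      have : 0 ≤ Real.logb 2 ((K : ℝ) + 1) := Real.logb_nonneg (by norm_num) (by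
        have : (0 : ℝ) ≤ K := Nat.cast_nonneg K
        linarith)
      linarith
    have h8 : T' / t ≤ 1 + ε / 2 := by
      rw [div_le_iff₀ ht0]
      have h9 : (Real.logb 2 ((K : ℝ) + 1) + 1) * (2 / ε) ≤ t := by
        have h10 : (T₀ : ℝ) ≤ t := by
          have : T₀ ≤ t := by omega
          exact_mod_cast this
        linarith
      have h11 : Real.logb 2 ((K : ℝ) + 1) + 1 ≤ ε / 2 * t := by
        have h12 := mul_le_mul_of_nonneg_left h9 (show 0 ≤ ε / 2 by positivity)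
        have h13 : ε / 2 * ((Real.logb 2 ((K : ℝ) + 1) + 1) * (2 / ε)) = Real.logb 2 ((K : ℝ) + 1) + 1 := by
          field_simp
        linarith
      linarith
    nlinarith
  have h14 := Erf_scale hx0 hc1
  rw [hcx] at h14
  have h15 : Erf (DD γ * Real.log L / √(t : ℝ)) ≤ Erf x + ε / 2 := by linarith
  have h16 := mul_le_mul_of_nonneg_right h15 hW0
  linarith

end Pool.Agent.Q74.BT
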