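import Pool.Agent.Q74.BT.Gam

/-! # Project BT: theorem A, assembly -/

set_option autoImplicit false

namespace Pool.Agent.Q74.BT

open Finset
open Pool.Agent.Q158.Pair (T)
open Pool.Agent.H395R2.G3 (rate)

/-- the number of different values, as in the result files -/
noncomputable def val (L t : ℕ) (n : ℤ) : ℕ := {y : ℤ | ∃ j : ℕ, j < L ∧ y = T^[t] (n + j)}.ncard

theorem val_eq (L t : ℕ) (n : ℤ) : val L t n = Vn L t n := by
  unfold val Vn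
  rw [← Set.ncard_coe_finset]
  congr 1
  ext y
  simp only [Set.mem_ofPred_eq, coe_image, Set.mem_image, mem_coe, mem_range]
  constructor
  · rintro ⟨j, hj, rfl⟩
    exact ⟨j, hj, rfl⟩
  · rintro ⟨j, hj, rfl⟩
    exact ⟨j, hj, rfl⟩

theorem finA (h1 : S_LowAll) (h2 : S_UpW) (h3 : S_MeanW) (h4 : S_Sim) : ∃ γ : ℝ, 41.6776 < γ ∧ γ < 41.6777 ∧
    γ * rate (1 / γ) = 1 ∧ (∀ γ' : ℝ, γ' > ((1 / 2) * Real.log (4 / 3))⁻¹ → γ' * rate (1 / γ') = 1 → γ' = γ) ∧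
    (∀ ε : ℝ, 0 < ε → ∃ c C δ : ℝ, 0 < c ∧ 0 < C ∧ 0 < δ ∧
      (∀ (L t : ℕ) (n : ℤ), 1 ≤ L → c * L * Real.exp (-((1 / γ + ε) * t)) ≤ val L t n) ∧
      (∀ L t : ℕ, 1 ≤ L → ∀ (M : ℤ) (W : ℕ), 2 ^ t ≤ W →
        ∑ n ∈ Ico M (M + W), (val L t n : ℝ) ≤ C * (1 + t + L * Real.exp (-((1 / γ - ε) * t))) * W) ∧
      (∀ L t : ℕ, 3 ≤ L → (γ + ε) * Real.log L ≤ t → ∀ (M : ℤ) (W : ℕ), 64 * t * 2 ^ t ≤ W →
        (1 + c * (Real.log L / √t)) * W ≤ ∑ n ∈ Ico M (M + W), (val L t n : ℝ) ∧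
        ∑ n ∈ Ico M (M + W), (val L t n : ℝ) ≤ (1 + C * (Real.log L / √t)) * W) ∧
      (∀ L₀ : ℕ, 1 ≤ L₀ → ∀ (M : ℤ) (W : ℕ),
        ({n : ℤ | M ≤ n ∧ n < M + W ∧ ∃ L t : ℕ, L₀ ≤ L ∧ 2 ^ t ≤ W ∧
          (L : ℝ) ^ ε * (1 + L * Real.exp (-(t / γ))) < val L t n}.ncard : ℝ) ≤ C * W / (L₀ : ℝ) ^ δ)) := by
  obtain ⟨γ, hG, hγ1, hγ2, huniq⟩ := exists_IsG
  refine ⟨γ, hG.1, hG.2.1, hγ2, huniq, fun ε hε => ?_⟩
  simp only [val_eq]
  obtain ⟨c₁, hc₁, g1⟩ := h1 γ hG ε hε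
  obtain ⟨C₂, hC₂, g2⟩ := h2 γ hG ε hε
  obtain ⟨c₃, C₃, hc₃, hC₃, g3⟩ := h3 γ hG ε hε
  obtain ⟨C₄, δ, hC₄, hδ, g4⟩ := h4 γ hG ε hε
  refine ⟨min c₁ c₃, C₂ + C₃ + C₄, δ, lt_min hc₁ hc₃, by positivity, hδ, ?_, ?_, ?_, ?_⟩
  · intro L t n hL
    refine le_trans ?_ (g1 L t n hL)
    apply mul_le_mul_of_nonneg_right _ (Real.exp_pos _).le
    exact mul_le_mul_of_nonneg_right (min_le_left _ _) (Nat.cast_nonneg L)
  · intro L t hL M W hW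
    refine (g2 L t hL M W hW).trans ?_
    apply mul_le_mul_of_nonneg_right _ (Nat.cast_nonneg W)
    apply mul_le_mul_of_nonneg_right _ (by positivity)
    linarith
  · intro L t hL ht M W hW
    obtain ⟨g5, g6⟩ := g3 L t hL ht M W hW
    have hL1 : (1 : ℝ) ≤ L := by
      have : 1 ≤ L := by omega
      exact_mod_cast this
    have hy : 0 ≤ Real.log L / √t := div_nonneg (Real.log_nonneg hL1) (Real.sqrt_nonneg _)
    constructor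
    · refine le_trans ?_ g5
      apply mul_le_mul_of_nonneg_right _ (Nat.cast_nonneg W)
      have := mul_le_mul_of_nonneg_right (min_le_right c₁ c₃) hy
      linarith
    · refine g6.trans ?_
      apply mul_le_mul_of_nonneg_right _ (Nat.cast_nonneg W)
      have := mul_le_mul_of_nonneg_right (show C₃ ≤ C₂ + C₃ + C₄ by linarith) hy
      linarith
  · intro L₀ hL₀ M W
    refine (g4 L₀ hL₀ M W).trans ?_
    apply div_le_div_of_nonneg_right _ (by positivity)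
    apply mul_le_mul_of_nonneg_right _ (Nat.cast_nonneg W)
    linarith

end Pool.Agent.Q74.BT
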