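import Pool.Agent.Q74.BT.Stm3
import Pool.Agent.Q14.SF.Fix
import Pool.Agent.Q14.BT.NetA

/-!
# Project BT, part 4: the trajectories of a block as a flow (Brownian web), lemma jobs

THEOREM W. `n` at random in an interval of length at least `K 2^t`, `log L ≤ M₀ √t`. The set of the levels (numbers of odd terms)
of the trajectories of `n, n+1, ..., n+L-1`, as a process in the time `s ∈ [δ t, t]`, has asymptotically the finite dimensional
laws of coalescing walkers started from ALL the places of the segment `[-log L/(2 log 2), (γ (log 2/log 3 - 1/2) - 1/log 3) log L]`,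
and two of the trajectories have merged at time `s` if and only if they have the same level, except with small probability.
The laws are tested by the functions `Wt φ h A = φ (#A) ∏_{x ∈ A} h x` at finitely many times with gaps at least `δ t`.

List of observations: `l : List Ob`, an element `e = (s, φ, h)` means: wait `s` steps, then observe `Wt φ h`.
-/

set_option autoImplicit false

namespace Pool.Agent.Q74.BT

open Finset
open Pool.Agent.Q158.Pair (T surv nc)
open Pool.Agent.Q74.AR (oc bE)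
open Pool.Agent.Q74.KP (EE Erf pq Lv)
open Pool.Agent.Q74.BL (nx ww)
open Pool.Agent.Q74.SF (CG pat Off)
open Pool.Agent.H395R2.G3 (rr FF rate)

/-- the test functions -/
noncomputable def Wt (φ : ℕ → ℝ) (h : ℤ → ℝ) (A : Finset ℤ) : ℝ := φ A.card * ∏ x ∈ A, h x

/-- an observation: waiting time and test function -/
abbrev Ob : Type := ℕ × (ℕ → ℝ) × (ℤ → ℝ)

/-- coalescing walkers on the level of sets: each occupied place is chosen with probability `1/2`, and the walkers at the
chosen places move one to the right -/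
noncomputable def cF (F : Finset ℤ → ℝ) : ℕ → Finset ℤ → ℝ
  | 0 => F
  | r + 1 => fun A => (∑ B ∈ A.powerset, cF F r (A \ B ∪ B.image (· + 1))) / 2 ^ A.card

/-- the expected product of the observations for coalescing walkers -/
noncomputable def MW : List Ob → Finset ℤ → ℝ
  | [] => fun _ => 1
  | e :: l => cF (fun A => Wt e.2.1 e.2.2 A * MW l A) e.1

/-- the product of the observations along a path `S` of sets, from the time `u` -/
noncomputable def PW (S : ℕ → Finset ℤ) : ℕ → List Ob → ℝ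
  | _, [] => 1
  | u, e :: l => Wt e.2.1 e.2.2 (S (u + e.1)) * PW S (u + e.1) l

/-- admissible lists of observations -/
def Adm (δ Λ : ℝ) (t : ℕ) (l : List Ob) : Prop := ∀ e ∈ l, δ * t ≤ (e.1 : ℝ) ∧ (∀ x, |e.2.1 x| ≤ 1) ∧ (∀ x, |e.2.2 x| ≤ 1) ∧
  ∀ x y, |e.2.2 x - e.2.2 y| ≤ Λ / √t * |(x : ℝ) - y|

/-- total time -/
def tot (l : List Ob) : ℕ := (l.map Prod.fst).sum

/-- the levels of the trajectories of a block -/
noncomputable def LS (L t : ℕ) (x : ℤ) : Finset ℤ := (range L).image (fun j : ℕ => (oc t (x + j) : ℤ))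

/-- the segment from which the walkers start -/
noncomputable def sg (γ : ℝ) (L : ℕ) : Finset ℤ :=
  Icc (-⌊Real.log L / (2 * Real.log 2)⌋) ⌊(DD γ - 1 / (2 * Real.log 2)) * Real.log L⌋

/-- sets and tuples (the same recursion) -/
theorem CG_cF {k : ℕ} (F : Finset ℤ → ℝ) (r : ℕ) : ∀ a : Fin k → ℤ, CG (fun z => F (univ.image z)) r a = cF F r (univ.image a) := by
  induction r with
  | zero => intro a; rfl
  | succ r ih =>
    intro a
    simp only [Pool.Agent.Q74.SF.CG, cF]
    congr 1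
    apply Finset.sum_congr rfl
    intro B hB
    rw [ih]
    congr 1
    rw [Finset.mem_powerset] at hB
    ext y
    simp only [mem_image, mem_univ, true_and, mem_union, mem_sdiff]
    constructor
    · rintro ⟨i, rfl⟩
      by_cases h : a i ∈ B
      · right
        exact ⟨a i, h, by simp [h]⟩
      · left
        rw [if_neg h, add_zero]
        exact ⟨⟨i, rfl⟩, h⟩
    · rintro (⟨⟨i, rfl⟩, h⟩ | ⟨b, hb, rfl⟩)
      · exact ⟨i, by rw [if_neg h, add_zero]⟩
      · obtain ⟨i, -, hi⟩ := mem_image.1 (hB hb)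
        exact ⟨i, by rw [hi, if_pos hb]⟩

/-- JOB LipF. The walkers forget small changes of the start.
PROOF. `CG_cF`, and `F (univ.image z) = ∑_π [can π = π] pat π z * F (univ.image z)` (as `wt_sum` in `Pool/Agent/Q14/BT/NetA.lean`), then `SF.S_Lip`
(`Pool.Agent.Q6.SF.lip` with its hypotheses, see `Pool/Agent/Results/MP_edb5be_nt/ShortIntervalFlow.lean`) with `G z = F (univ.image z)`, coordinate by
coordinate, one unit at a time. -/
def S_LipF : Prop := ∀ k : ℕ, ∃ C : ℝ, 0 < C ∧ ∀ F : Finset ℤ → ℝ, (∀ A, |F A| ≤ 1) → ∀ (r : ℕ) (a b : Fin k → ℤ),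
  |cF F r (univ.image a) - cF F r (univ.image b)| ≤ C / √((r : ℝ) + 1) * ∑ i, |(a i : ℝ) - b i|

/-- JOB OffStep. After `s` steps the offsets are still small, with large probability.
PROOF. `T^[s] y = 3^(oc s y) y/2^s + of s y` (`Pool.Agent.Q225.SF.T_of`), `of ≥ 0` and `EE s (of s (3^a x + b)) = s/4` (`EE_of`, for all `a, b`: `3^a x + b` runs
through all residues). With `a' = a + oc`, `b' = T^[s] (3^a x + b)` and `a_i ≤ a_j`: `b'_j - 3^(a'_j-a'_i) b'_i = 3^(oc_j) (b_j - 3^(a_j-a_i) b_i)/2^s + of_j - 3^(a'_j-a'_i) of_i`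
(real powers), so `|b'_j - 3^(a'_j-a'_i) b'_i| ≤ max(1, 3^(a'_j-a'_i)) (3^(oc_i)/2^s * exp (ρ t) + of_i + of_j)`; except with probability `≤ ε`
all `of ≤ (4k²/ε) s` and all `|oc_i - s/2| ≤ C √s` (Chebyshev, `EE_cheb`), so `3^(oc_i) ≤ 2^s`. See the proof of `Pool.Agent.Q225.SF.bad`. -/
def S_OffStep : Prop := ∀ (k : ℕ) (δ ρ' ε : ℝ), 0 < δ → 0 < ρ' → 0 < ε → ∃ ρ : ℝ, 0 < ρ ∧ ∃ t₀ : ℕ, ∀ t : ℕ, t₀ ≤ t →
  ∀ s r : ℕ, δ * t ≤ s → s ≤ t → δ * t ≤ r → r ≤ t → ∀ (a : Fin k → ℕ) (b : Fin k → ℤ), Off ρ t a b →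
  EE s (fun x => Set.indicator {x : ℤ | ¬ Off ρ' r (fun i => a i + oc s (3 ^ a i * x + b i)) (fun i => T^[s] (3 ^ a i * x + b i))} 1 x) ≤ ε

/-- JOB FamM. The finite dimensional laws for finitely many trajectories with small offsets.
Prove `famM (h1 : S_LipF) (h2 : S_OffStep) : S_FamM`.
PROOF. Induction on `m`. List `e :: l`, `s = e.1`: by `SF.S_Mark`-type splitting (`Pool.Agent.Q225.SF.mark`, `KP.oc_add`, `AR.oc_per`, `BL.T_add`)
`EE (s + tot l) (PW ..) = EE s (fun x => Wt φ h (levels at time s) * EE (tot l) (PW of the forms after s steps))`, and by induction (`S_OffStep`, with `t` replaced by `t` and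
`r = t`) the inner average is `MW l (levels at time s) + O(ε')`. Now `F A = Wt φ h A * MW l A`; for a pattern `π` of the values (`Vv`) let
`G_π z = φ (number of classes) * ∏_{representatives i} h (z i) * MW l (image of the representatives)`: `|G_π| ≤ 1`, and it is Lipschitz with constant `C/√t`
(`S_LipF` for `MW (e' :: l')`, `e'.1 ≥ δ t`, and the Lipschitz condition of `h`; `MW [] = 1`). `SF.S_Fix` (`Pool.Agent.Q14.BT.hfix` in `Pool/Agent/Q14/BT/NetLaw.lean`) for each `π` gives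
`EE s (∑_π pat π (Vv) G_π(Lv)) = CG (∑_π pat π z G_π z) s a + O(ε')` and `∑_π pat π z G_π z = F (univ.image z)` (sum over canonical `π`, `NetA.can`). It remains to replace the
pattern of the values by the pattern of the levels: equal `Vv` have equal levels (`Vv` contains the level); that two different `Vv` have the same level
has small probability: by `S_Fix` for two trajectories with `G z = max 0 (1 - |z 0 - z 1|/(η√t))` and `π = id` it is at most `ε'` + the probability that two walkers which have not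
met are at distance `≤ η√t` after `s ≥ δ t` steps `≤ C η/√δ` (`CG` of `pat id * G` for two walkers is `NG`, at most the free probability). -/
def S_FamM : Prop := ∀ (k m : ℕ) (δ Λ ε : ℝ), 0 < δ → 0 ≤ Λ → 0 < ε → ∃ ρ : ℝ, 0 < ρ ∧ ∃ t₀ : ℕ, ∀ t : ℕ, t₀ ≤ t →
  ∀ l : List Ob, l.length ≤ m → Adm δ Λ t l → tot l ≤ t → ∀ (a : Fin k → ℕ) (b : Fin k → ℤ), Off ρ t a b →
  |EE (tot l) (fun n => PW (fun s => univ.image (Lv a b s n)) 0 l) - MW l (univ.image fun i => (a i : ℤ))| ≤ ε

/-- JOB SegW. Walkers from a net and from the full segment. Prove `segW (h : S_CwMean) : S_SegW`.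
PROOF. As JOB CwNet (`Pool/Agent/Q92/BT/CwNet.lean`), for arbitrary bounded `F` (there `F` was a function of the number). `N A = #A`.
(i) Subfamilies: for `A ⊆ B`, `|cF F r A - cF F r B| ≤ 2 (cF N r B - cF N r A)` (couple by `SF.S_Comp`, `sub_diff`: both are `CG` of functions of the walkers from `B`, and
`|F (image (z ∘ e)) - F (image z)| ≤ 2 (#image z - #image (z ∘ e))`, as the images are equal if their cardinalities are).
(ii) `cF N r (image a) = 1 + ∑ pq r (gaps)` for monotone `a` (`S_CwMean`), `pq_lin`, `pq_one_bd`, `pq_time`, `mean_seg` of CwNet. So `image a` against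
`Icc (a 0) (a last)` costs `≤ C (M₀+1) η²`, and changing the endpoints of a segment by at most `y` costs at most `2 y pq r 1 ≤ C y/√(δt)`.
(iii) Time shift: `cF F s (Icc p q) = cF (cF F (s-u)) u (Icc p q)` (`CG_time`); for a set `A'` reached at time `u` with smallest and largest places `x₀ ≤ x₁` compare `A'` with `Icc x₀ x₁` by (i),
mean cost `2 (1 + E[x₁-x₀] pq (s-u) 1 - (1 + (q-p) pq s 1)) = 2 (q-p) (pq (s-u) 1 - pq s 1)` as `E[x₁ - x₀] = q - p` (two walkers, `CG` of a linear function), and `Icc x₀ x₁` with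
`Icc (p+⌊u/2⌋) (q+⌊u/2⌋)` by (ii), mean cost `≤ C √u/√(δt)` (`E|x₀ - p - u/2| ≤ √u`: one walker, binomial law). -/
def S_SegW : Prop := ∀ M₀ δ ε : ℝ, 0 < M₀ → 0 < δ → 0 < ε → ∃ η : ℝ, 0 < η ∧ ∃ t₀ : ℕ, ∀ t : ℕ, t₀ ≤ t →
  ∀ F : Finset ℤ → ℝ, (∀ A, |F A| ≤ 1) → ∀ s u : ℕ, δ * t ≤ s → s ≤ t → (u : ℝ) ≤ η * t → ∀ p q : ℤ, p ≤ q → (q : ℝ) - p ≤ M₀ * √t →
  ∀ (k : ℕ) (a : Fin (k + 1) → ℤ), Monotone a → |(a 0 : ℝ) - (p + u / 2)| ≤ η * √t → |(a (Fin.last k) : ℝ) - (q + u / 2)| ≤ η * √t →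
  (∀ i : Fin k, (a i.succ : ℝ) - a i.castSucc ≤ η * √t) →
  |cF F (s - u) (univ.image a) - cF F s (Icc p q)| ≤ ε

/-- JOB TightW. The levels of the block are those of the net, and they distinguish the trajectories.
Prove `tightW (h1 : S_CwMean) (h2 : S_Net) (h3 : S_MeanUp) : S_TightW`.
PROOF. The net `u`, `j` of `S_Net` for a large `k` and a small `ε₁` (chosen after `k`); it does not depend on `s`. For `δt ≤ s ≤ t`: (1) mean number of forms of the block:
`EE s (#VV L s x) ≤ 1 + (2/√π) DD γ ℓ/√s + ε₁` (`S_MeanUp` at time `s`, with `κ, M₀/√δ`). (2) Mean number of LEVELS of the net at least `1 + (2/√π) DD γ ℓ/√s - ε₁ - C/k²`: as in the proof of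
`netLaw` (`Pool/Agent/Q14/BT/NetLaw.lean`, `mean_low`), with the pattern of `Vv` (level and value) replaced by that of the levels as in JOB FamM (two different `Vv` of the net have the
same level with small probability). (3) `#(levels of the net) ≤ #(LS L s x) ≤ #(VV L s x)` (`LS = (VV).image Prod.fst`), so except with probability `≤ 3 ε₁ + ..` all three are equal
(`AR`/Markov: `EE (#VV - #net levels) ≥ EE [≠]`), and then `LS` is the set of the levels of the net and the level determines the form. -/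
def S_TightW : Prop := ∀ γ : ℝ, IsG γ → ∀ κ M₀ δ ε : ℝ, 0 < κ → 0 < M₀ → 0 < δ → 0 < ε → ∃ k t₀ : ℕ, 1 ≤ k ∧ DD γ * M₀ ≤ ε * k ∧
  ∀ t : ℕ, t₀ ≤ t → ∀ L : ℕ, 1 ≤ L → κ * √t ≤ Real.log L → Real.log L ≤ M₀ * √t → ∃ u : ℕ, (u : ℝ) ≤ 42 * Real.log L ∧
  ∃ j : Fin (k + 1) → ℤ → ℕ, (∀ i x, j i x < L) ∧ (∀ i x y, j i (x + 2 ^ u * y) = j i x) ∧
  EE u (fun x => Set.indicator {x : ℤ | ∃ i : Fin (k + 1), ε / k * Real.log L <
    |(oc u (x + j i x) : ℝ) - (u / 2 - Real.log L / (2 * Real.log 2) + (i : ℕ) / k * (DD γ * Real.log L))|} 1 x) ≤ ε ∧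
  ∀ s : ℕ, δ * t ≤ s → s ≤ t →
    EE s (fun x => Set.indicator {x : ℤ | LS L s x ≠ univ.image (fun i => (oc s (x + j i x) : ℤ)) ∨
      ∃ i i' : ℕ, i < L ∧ i' < L ∧ oc s (x + i) = oc s (x + i') ∧ T^[s] (x + i) ≠ T^[s] (x + i')} 1 x) ≤ ε

/-- JOB Web. The flow of a block.
Prove `web (h0 : S_CwMean) (h1 : S_Mean) (h2 : S_FamM) (h3 : S_SegW) (h4 : S_TightW) : S_Web`.
PROOF. (A) `κ√t ≤ log L`. `η` from `S_SegW` (for `δ/2`), then `k, u, j` from `S_TightW` with a small `ε₁` (so that the gaps `≤ (DD γ/k + 2ε₁/k) ℓ ≤ η√t` and the levels of the net at time `u` are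
increasing in `i`). For good `x` modulo `2^u` the forms of the net at time `u` satisfy `Off ρ t` (`Q14.BT.off_block`, `|w| ≤ (3/2)^u (L+1) = exp (O(√t))`); `S_FamM` for the list `(e.1 - u, φ, h) :: l` gives
the average over the `n ≡ x` of `PW` along the net, `≈ MW ((e.1-u, φ, h) :: l) (levels at time u)`, and `S_SegW` with `F A = Wt φ h A * MW l A` compares with `MW (e :: l) (sg γ L)` (here `p = -⌊ℓ/(2 log 2)⌋`,
`q = ⌊(DD γ - 1/(2 log 2)) ℓ⌋`). By `S_TightW` at the at most `m` observation times the block has the levels of the net except with probability `≤ m ε₁`. The average over `n ∈ [M, M+W)` of a periodic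
function modulo `2^(tot l)` bounded by 1 differs from its mean by `≤ 2^(t+1)/W` (`KP.count_bd`). The empty list is trivial. (B) `log L ≤ κ√t`: the block is merged at time `δt` except with
probability `≤ C κ/√δ` (`S_Mean`), then `LS` is the level of `x` (`j = 0`; `S_FamM` for `k = 1`, `a = 0`, `b = 0`), and `MW l (sg γ L)` differs from `MW l {0}` by `≤ 2 (DD γ ℓ) pq ≤ C κ/√δ` (SegW (i), `0 ∈ sg γ L`).
Second part: periodic sets `S_TightW`, and if the levels of two integers of the net differ then their values are different except for at most one `N` in `n = 2^s N + x` (so at most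
`(k+1)² 2^s` of the `n`); in case (B) everything has merged. -/
def S_Web : Prop := ∀ γ : ℝ, IsG γ → ∀ (m : ℕ) (M₀ Λ δ ε : ℝ), 0 < M₀ → 0 ≤ Λ → 0 < δ → 0 < ε → ∃ t₀ K : ℕ, ∀ t : ℕ, t₀ ≤ t →
  ∀ L : ℕ, 1 ≤ L → Real.log L ≤ M₀ * √t → ∀ (M : ℤ) (W : ℕ), K * 2 ^ t ≤ W →
  (∀ l : List Ob, l.length ≤ m → Adm δ Λ t l → tot l ≤ t →
    |∑ n ∈ Ico M (M + W), PW (fun s => LS L s n) 0 l - MW l (sg γ L) * W| ≤ ε * W) ∧
  ∀ s : ℕ, δ * t ≤ s → s ≤ t → ({n : ℤ | M ≤ n ∧ n < M + W ∧ ∃ i j : ℕ, i < L ∧ j < L ∧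
    ¬ (T^[s] (n + i) = T^[s] (n + j) ↔ oc s (n + i) = oc s (n + j))}.ncard : ℝ) ≤ ε * W

end Pool.Agent.Q74.BT
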