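import Pool.Agent.Q74.BT.Stm2
import Pool.Agent.Q74.BT.Stm4

/-!
# Project BT, part 5: the multiplicities (popular values) of a block, lemma jobs

`θ(α) = α FF (rr α) = 1 - α g(1/α)`, `x(α) = α (rr α - 1/2) = α (log 2/log 3 - 1/2) - 1/log 3`, `ℓ = log L`. About `L^(θ(α))` of the `L`
trajectories of a block contract (`3^(number of odd terms) L ≤ 2^time`) for the first time at the time `α ℓ`, and then they
have the displacement (level minus half of the time) `x(α) ℓ`. THEOREM M: for `0 < σ < 1`, `θ(α₁) = θ(α₂) = σ`, `α₁ < α₂`, the set of the levels at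
which there are at least `L^σ` of the `L` trajectories of the block is, as a process in the time, asymptotically the set of
the places of coalescing walkers started from all the places of the segment `[x(α₁) ℓ, x(α₂) ℓ]`. (`σ = 0` is Theorem W.)
-/

set_option autoImplicit false

namespace Pool.Agent.Q74.BT

open Finset
open Pool.Agent.Q158.Pair (T surv nc)
open Pool.Agent.Q74.AR (oc bE)
open Pool.Agent.Q74.KP (EE Erf pq Lv)
open Pool.Agent.Q74.BL (nx ww)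
open Pool.Agent.Q74.SF (CG pat Off)
open Pool.Agent.H395R2.G3 (rr FF rate)

/-- the exponent of the number of trajectories with contraction time `α log L` -/
noncomputable def th (α : ℝ) : ℝ := α * FF (rr α)

/-- their displacement, in units of `log L` -/
noncomputable def xx (α : ℝ) : ℝ := α * (rr α - 1 / 2)

/-- the range of exponents `1/log 2 < α₁ < 2/log (4/3) < α₂ < γ` -/
def Rg (γ α₁ α₂ : ℝ) : Prop :=
  1 / Real.log 2 < α₁ ∧ α₁ < 2 / Real.log (4 / 3) ∧ 2 / Real.log (4 / 3) < α₂ ∧ α₂ < γ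

/-- the number of the trajectories of the block with the form `z` -/
noncomputable def mu (L u : ℕ) (x : ℤ) (z : ℕ × ℤ) : ℕ := ((range L).filter (fun j : ℕ => nx u x (0, (j : ℤ)) = z)).card

/-- the popular levels -/
noncomputable def LP (σ : ℝ) (L s : ℕ) (x : ℤ) : Finset ℤ :=
  (LS L s x).filter (fun y => (L : ℝ) ^ σ ≤ ((range L).filter (fun j : ℕ => (oc s (x + j) : ℤ) = y)).card)

/-- the time `⌊42 log L⌋` -/
noncomputable def uu (L : ℕ) : ℕ := ⌊42 * Real.log L⌋₊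

/-- the forms at time `t` of the trajectories with displacement in `[p log L, q log L]` at the time `uu L` -/
noncomputable def VS (p q : ℝ) (L t : ℕ) (x : ℤ) : Finset (ℕ × ℤ) :=
  ((range L).filter (fun j : ℕ => p * Real.log L ≤ (oc (uu L) (x + j) : ℝ) - uu L / 2 ∧
    (oc (uu L) (x + j) : ℝ) - uu L / 2 ≤ q * Real.log L)).image (fun j : ℕ => nx t x (0, (j : ℤ)))

/-- a net of `k+1` trajectories of the block, at time `u` close to the arithmetic progression from `p log L` to `q log L` -/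
def Nt (p q e e' : ℝ) (k u L : ℕ) (j : Fin (k + 1) → ℤ → ℕ) : Prop :=
  (∀ i x, j i x < L) ∧ (∀ i x y, j i (x + 2 ^ u * y) = j i x) ∧
  EE u (fun x => Set.indicator {x : ℤ | ∃ i : Fin (k + 1), e * Real.log L <
    |(oc u (x + j i x) : ℝ) - (u / 2 + (p + (i : ℕ) / k * (q - p)) * Real.log L)|} 1 x) ≤ e'

/-- `A L s x` is the set of the levels of a net -/
def TightG (p q : ℝ) (A : ℕ → ℕ → ℤ → Finset ℤ) : Prop :=
  ∀ κ M₀ δ ε : ℝ, 0 < κ → 0 < M₀ → 0 < δ → 0 < ε → ∃ k t₀ : ℕ, 1 ≤ k ∧ (q - p) * M₀ ≤ ε * k ∧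
  ∀ t : ℕ, t₀ ≤ t → ∀ L : ℕ, 1 ≤ L → κ * √t ≤ Real.log L → Real.log L ≤ M₀ * √t → ∃ u : ℕ, (u : ℝ) ≤ 42 * Real.log L ∧
  ∃ j : Fin (k + 1) → ℤ → ℕ, Nt p q (ε / k) ε k u L j ∧
  ∀ s : ℕ, δ * t ≤ s → s ≤ t →
    EE s (fun x => Set.indicator {x : ℤ | A L s x ≠ univ.image (fun i => (oc s (x + j i x) : ℤ))} 1 x) ≤ ε

/-- JOB Mono (easy). The function `θ`.
PROOF. `1/log 2 < 2/log (4/3)` numerically (1.44, 6.95; `IsG` has `γ > 41.67`). As a function of `r = rr α = (log 2 - 1/α)/log 3`,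
`α = 1/(log 2 - r log 3)`, `θ = (H(r) - r log 3)/(log 2 - r log 3)` with `H = binEntropy` (`rr_spec`, `FF r = H r - r log 3`), `0 ≤ r ≤ rr γ < log 2/log 3`, and
`r = 1/2` for `α = 2/log (4/3)` (then `FF (1/2) = log 2 - (log 3)/2 = 1/α`), `r = 0` for `α = 1/log 2` (`FF 0 = 0`). The derivative has the sign of
`k(r) = H'(r)(log 2 - r log 3) + log 3 (H(r) - log 2)`, `k(1/2) = 0`, `k'(r) = H''(r)(log 2 - r log 3) < 0` for `0 < r < log 2/log 3`; so `k > 0` for `r < 1/2`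
and `k < 0` for `r > 1/2`. `α ↦ rr α` is increasing and continuous. `θ γ = 0` as `FF (rr γ) = 0`. -/
def S_Mono : Prop := ∀ γ : ℝ, IsG γ →
  1 / Real.log 2 < 2 / Real.log (4 / 3) ∧ 2 / Real.log (4 / 3) < γ ∧
  StrictMonoOn th (Set.Icc (1 / Real.log 2) (2 / Real.log (4 / 3))) ∧
  StrictAntiOn th (Set.Icc (2 / Real.log (4 / 3)) γ) ∧ ContinuousOn th (Set.Icc (1 / Real.log 2) γ) ∧
  th (1 / Real.log 2) = 0 ∧ th (2 / Real.log (4 / 3)) = 1 ∧ th γ = 0 ∧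
  (∀ α : ℝ, 0 < α → xx α = α * (Real.log 2 / Real.log 3 - 1 / 2) - 1 / Real.log 3) ∧
  xx (2 / Real.log (4 / 3)) = 0 ∧ xx (1 / Real.log 2) = -(1 / (2 * Real.log 2)) ∧ DD γ = xx γ + 1 / (2 * Real.log 2)

/-- JOB ManyUp. Popular forms have displacement in the segment.
PROOF. `ℓ = log L`. Write `G_i(y) = 3^(oc i y)/2^i`; for `j < L` let `τ_j` be the least `k` with `G_k(x+j) ≤ 1/L` (`= ∞` if there is none `≤ u`).
(1) If `τ_j = k ≤ u`, `k ≥ 1`: the last step is even (an odd step increases `G`), so `2^(k-1)/L < 3^a ≤ 2^k/L`, `a = oc k (x+j)`: `k` determines `a` (at most one value). The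
offset `of k y = T^k y - 3^(oc k y) y/2^k` satisfies `of (i+1) = of i/2` or `(3 of i + 1)/2`, so `of k = ∑_{i<k, T^i y odd} G_k/(3 G_i) ≤ k/3` because
`G_i > 1/L ≥ G_k` for `i < k`. So with `x = 2^k x' + x₀`, `0 ≤ x₀ < 2^k`, the form `nx k x₀ (0,j) = (a, b)` has `b` in `[3^a x₀/2^k, 3^a x₀/2^k + 1 + k]`
(`3^a j/2^k ≤ 1`): at most `k + 2` values of `b`. The displacement is `a - k/2 = x(k/ℓ) ℓ + O(1)`.
(2) Means: `EE u #{j < L : τ_j > α₂ ℓ} ≤ L P(oc k ≥ rr α₂ k - C) ≤ C L^(θ(α₂))`, `k = ⌊α₂ ℓ⌋` (see `Pool/Agent/Q211/BT/LDup.lean`: `z^(oc)`, `z = r/(1-r) ≥ 1`, `bE k (z^j) = ((1+z)/2)^k`), and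
`EE u #{j < L : τ_j < α₁ ℓ} ≤ ∑_{k < α₁ ℓ} L P(3^(oc k) L ≤ 2^k) ≤ C ℓ L^(θ(α₁))` (for `k = α ℓ`, `1/log 2 ≤ α ≤ α₁`, with `z = r/(1-r) < 1`, `r = rr α < 1/2`, the term is
`≤ L^(θ(α))`, `S_Mono`; or use ONE tilt `z = r₁/(1-r₁)`, `r₁ = rr α₁`, for all `k < α₁ ℓ`: `P(oc k ≤ (k log 2 - ℓ)/log 3) ≤ ((1+z)/2)^k z^(-(k log 2 - ℓ)/log 3)`, an exponential in `k` which
is increasing in `k` because `log ((1+z)/2) - log z · log 2/log 3 > 0`, so its maximum over `k ≤ α₁ ℓ` is at `k = α₁ ℓ`, where it is `L^(θ(α₁)-1)`; this is S_Mono-free). By Markov, except with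
probability `→ 0`, fewer than `L^σ` of the `j` have `τ_j ∉ [α₁ ℓ, α₂ ℓ]`; then every form with `mu ≥ L^σ` contains a `j` with `k = τ_j` in `[α₁ ℓ, α₂ ℓ]`.
(3) For each `k ≤ u` and each of the at most `k+2` forms `(a, b)` of (1) the probability over `x'` that `|oc (u-k) (3^a x' + b) - (u-k)/2| > η ℓ/2` is at most
`2 exp (-(η²/2) ℓ²/(u-k)) ≤ 2 L^(-η²/86)` (Hoeffding, `Pool/Agent/Q182/BT/Walk.lean`: `tail`, `stage`; `Pool/Agent/Q38/BT/Bot.lean` is the same scheme). Union over `k` and `b`: `(43 ℓ + 2)² · 2 L^(-η²/86) → 0`. `x` is increasing. -/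
def S_ManyUp : Prop := ∀ γ : ℝ, IsG γ → ∀ α₁ α₂ σ : ℝ, Rg γ α₁ α₂ → th α₁ < σ → th α₂ < σ → ∀ η : ℝ, 0 < η → ∃ L₀ : ℕ, ∀ L : ℕ, L₀ ≤ L →
  ∀ u : ℕ, α₂ * Real.log L ≤ u → (u : ℝ) ≤ 43 * Real.log L →
  EE u (fun x => Set.indicator {x : ℤ | ∃ z ∈ VV L u x, (L : ℝ) ^ σ ≤ mu L u x z ∧
    ¬ ((xx α₁ - η) * Real.log L ≤ (z.1 : ℝ) - u / 2 ∧ (z.1 : ℝ) - u / 2 ≤ (xx α₂ + η) * Real.log L)} 1 x) ≤ η

/-- JOB NetM. A net of popular trajectories. Prove `netM (h : S_LDlow) : S_NetM` (`S_LDlow` is proved, `Pool.Agent.Q211.BT.ldlow`).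
PROOF. `ℓ = log L`, `u = uu L`. For `i ≤ k` put `β_i = α₁ + (i/k)(α₂ - α₁)`, so `x(β_i) = x(α₁) + (i/k)(x(α₂) - x(α₁))` and `θ(β_i) ≥ min (θ(α₁)) (θ(α₂)) > σ` (`S_Mono`, also proved separately; take it as a
second hypothesis). Apply `S_LDlow` at `β_i` with a small `ε'` and a small `δ`, `m = x`: at least `L^(θ(β_i) - ε')` of the `y = x+j`, `j < L`, have `|k_y - β_i ℓ| ≤ ε' ℓ`, `k_y` the least `k` with
`3^(oc k y) L^(1-δ) ≤ 2^k`. As in JOB ManyUp (1): `k_y = k` determines the level `a` at time `k`, and `b` (in `nx k x₀ (0,j) = (a,b)`) is in `[3^a x₀/2^k, 3^a x₀/2^k + L^δ + k]` (`3^a j/2^k ≤ L^δ`): at most `L^δ + k + 2`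
values. So there are at most `(u+1)(L^δ + u + 2) ≤ L^(2δ)` pairs `(k, form at time k)`, and one of them has at least `L^(θ(β_i)-ε'-2δ) ≥ L^σ` of these `y`; they have the same form at time `u ≥ k`
(`nx_add`). Let `j i x` be the least `j < L` such that `|k_y - β_i ℓ| ≤ ε' ℓ` and at least `L^σ` of the `j' < L` have the form of `j` at time `k_y`; everything depends on `x` mod `2^u` only (`AR.oc_per`, `BL.T_add`). Displacement at time
`k_y`: `a - k/2 = k (log 2/log 3 - 1/2) - (1-δ) ℓ/log 3 + O(1) = x(β_i) ℓ + O(ε' + δ) ℓ`. From `k_y` to `u`: union bound over all `k ≤ u`, the one level and the `≤ L^δ + k + 2` values of `b`: Hoeffding gives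
`(u+1)(L^δ+u+2) · 2 exp (-2 (ε/4)² ℓ²/u) ≤ L^(2δ) · 2 L^(-ε²/336) → 0` for `δ < ε²/1000`. (For the finitely many small `L` nothing is claimed.) -/
def S_NetM : Prop := ∀ γ : ℝ, IsG γ → ∀ α₁ α₂ σ : ℝ, Rg γ α₁ α₂ → σ < th α₁ → σ < th α₂ → ∀ k : ℕ, 1 ≤ k → ∀ ε : ℝ, 0 < ε →
  ∃ L₀ : ℕ, ∀ L : ℕ, L₀ ≤ L → ∃ j : Fin (k + 1) → ℤ → ℕ, Nt (xx α₁) (xx α₂) ε ε k (uu L) L j ∧
  ∀ i x, (L : ℝ) ^ σ ≤ mu L (uu L) x (nx (uu L) x (0, (j i x : ℤ)))

/-- JOB MeanS. The mean number of forms from a segment. Prove `meanS (h1 : S_Kap) (h2 : S_Pot) (h3 : S_Mean) (h6 : S_WalkE) (h7 : S_MeanPin) : S_MeanS`.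
PROOF. As JOB MeanUp (`Pool/Agent/Q261/BT/MeanUp.lean`, copy it), with `s = uu L` (`≥ (γ + 1/10) ℓ` for `ℓ` large because `γ < 41.6777`), `t₂ = ⌊δ ℓ²⌋`, `V = VS p q L t₂ x` instead of `VV L t₂ x`. It is simpler: the range of
the levels of `VS p q L t₂ x` is at most `(q-p) ℓ + 2 G(x)` by definition (no `S_Top`, `S_Bot`); `VS ⊆ VV` for the potential and for the number of forms; `VS p q L (t₂+r) (2^t₂ N + x) = (VS p q L t₂ x).image (nx r N)`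
(`t₂ ≥ uu L`; the conditions depend on `x` mod `2^(uu L)`). If `VS` is empty the number is `0`. -/
def S_MeanS : Prop := ∀ γ : ℝ, IsG γ → ∀ p q κ M₀ ε : ℝ, p ≤ q → 0 < κ → 0 < M₀ → 0 < ε → ∃ t₀ : ℕ, ∀ t : ℕ, t₀ ≤ t → ∀ L : ℕ, 1 ≤ L →
  κ * √t ≤ Real.log L → Real.log L ≤ M₀ * √t →
  EE t (fun x => ((VS p q L t x).card : ℝ)) ≤ 1 + 2 / √Real.pi * ((q - p) * Real.log L / √t) + ε

/-- JOB OneG. The mean number of levels of a net at one time.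
PROOF. `one_time` of `Pool/Agent/Q151/BT/TightW.lean` is the case `p = -1/(2 log 2)`, `q - p = DD γ`; generalise its proof (nothing about `γ` is used). -/
def S_OneG : Prop := ∀ p q M ε : ℝ, p < q → 0 < M → 0 < ε → ∃ k₀ : ℕ, ∀ k : ℕ, k₀ ≤ k → 1 ≤ k →
    ∃ ε₀ : ℝ, 0 < ε₀ ∧ ∃ t₀ : ℕ, ∀ s : ℕ, t₀ ≤ s → ∀ L : ℕ, 1 ≤ L → 0 < Real.log L → Real.log L ≤ M * √s →
    ∀ ε₁ : ℝ, 0 < ε₁ → ε₁ ≤ ε₀ → ∀ u : ℕ, (u : ℝ) ≤ 42 * Real.log L → ∀ j : Fin (k + 1) → ℤ → ℕ, Nt p q ε₁ ε₁ k u L j →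
    1 + 2 / √Real.pi * ((q - p) * Real.log L / √s) - ε ≤
      EE s (fun x => ((univ.image fun i => (oc s (x + j i x) : ℤ)).card : ℝ))

/-- JOB TightP. The popular levels are those of the net, and their mean number.
Prove `tightP (h0 : S_Mono) (h1 : S_Mean) (h2 : S_ManyUp) (h3 : S_NetM) (h4 : S_MeanS) (h5 : S_OneG) (h6 : S_TightW) (h7 : S_MeanUp) (h8 : S_Net) : S_TightP`.
PROOF. `ℓ = log L`, `κ√t ≤ ℓ ≤ M₀√t`. First part: choose in this order: `k` (from `S_OneG` with `p = x(α₁)`, `q = x(α₂)` and small `ε₁`, and `(q-p) M₀ ≤ ε k`), then a small `η = η(ε, k)`. Inner exponents `α₁' ∈ (α₁, α₁+η)`,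
`α₂' ∈ (α₂-η, α₂)` have `θ > σ`, so `S_NetM` (with `σ` and a small `ε'`) gives a net `j`, `u = uu L`, close to the progression from `x(α₁')` to `x(α₂')`, hence `Nt x(α₁) x(α₂) (ε/k) ε` (and with `ε₀(k)` of `S_OneG`). Outer exponents `α₁'' ∈ (α₁-η, α₁)`,
`α₂'' ∈ (α₂, α₂+η)` (still with `Rg`) have `θ < σ'' < σ` for some `σ''`. Let `δt ≤ s ≤ t` and `B = VS (x(α₁'')-η) (x(α₂'')+η) L s x`.
(i) net levels `⊆ LP σ L s x` for ALL `x`: the `≥ L^σ` trajectories with the form of `j i x` at time `u` (`mu`) have the same form at time `s ≥ u` (`s ≥ δt ≥ 42 ℓ`), so the same level.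
(ii) `LP σ L s x ⊆ (levels of B)` except with small probability: the trajectories at a popular level `y` at time `s` all have the same value `T^s` (last part of `S_TightW` at time `s`), so the same form `nx s x (0,j) = (oc s (x+j), T^s (x+j))`;
the number of forms at time `u` is `≤ ℓ` except with probability `≤ C/√ℓ` (`S_Mean` at time `u = uu L ≥ (γ+1/10) ℓ`: `E #VV ≤ 1 + C ℓ/√u`, Markov; `EE s` of a function of period `2^u` is its `EE u`, `Q182.BT.EE_up`), so one form `z` at time `u` contains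
`≥ L^σ/ℓ ≥ L^σ''` of them, and `S_ManyUp` (with `α₁'', α₂'', σ''`, `η`) puts its displacement in the segment: `y` is the level of an element of `B`.
(iii) `E #B ≤ 1 + (2/√π)(x(α₂'')-x(α₁'')+2η) ℓ/√s + ε₁` (`S_MeanS` at time `s`, `ℓ ≤ (M₀/√δ) √s`), `E #(net levels) ≥ 1 + (2/√π)(x(α₂)-x(α₁)) ℓ/√s - ε₁` (`S_OneG`). On the good event of (ii)
`#net ≤ #LP ≤ #B`; so `P(LP ≠ net) ≤ P(bad) + E[(#B - #net) 1_good] ≤ P(bad) + E #B - E #net + (k+1) P(bad)`, small.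
Second part (`s = t`): `E #LP ≥ E #net` by (i). Upper bound: `E #LP ≤ E #B + E[#VV L t x; bad]`, and with the net of `S_Net` for some large `k'` (levels `N`, `p = -1/(2 log 2)`, `q = DD γ - 1/(2 log 2)`): `E (#VV - #N) ≤ 3ε₁`
(`S_MeanUp`, `S_OneG`), so `E[#VV; bad] ≤ 3ε₁ + (k'+1) P(bad)`. -/
def S_TightP : Prop := ∀ γ : ℝ, IsG γ → ∀ α₁ α₂ σ : ℝ, Rg γ α₁ α₂ → 0 < σ → σ < 1 → th α₁ = σ → th α₂ = σ → TightG (xx α₁) (xx α₂) (LP σ) ∧
  ∀ κ M₀ ε : ℝ, 0 < κ → 0 < M₀ → 0 < ε → ∃ t₀ : ℕ, ∀ t : ℕ, t₀ ≤ t → ∀ L : ℕ, 1 ≤ L → κ * √t ≤ Real.log L → Real.log L ≤ M₀ * √t →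
  |EE t (fun x => ((LP σ L t x).card : ℝ)) - (1 + 2 / √Real.pi * ((xx α₂ - xx α₁) * Real.log L / √t))| ≤ ε

/-- JOB WebG. The flow of the levels of a net. Prove `webG (h1 : S_Mean) (h2 : S_FamM) (h3 : S_SegW) : S_WebG`.
PROOF. This is `Pool/Agent/Q234/BT/Web.lean` (`web`, first part of `S_Web`) with the set `LS L s x` replaced by `A L s x` and the segment `sg γ L` (from `-log L/(2 log 2)` to `(DD γ - 1/(2 log 2)) log L`) replaced by
`Icc (-⌊-p log L⌋) ⌊q log L⌋`; generalise that proof. Case (A) `κ√t ≤ log L`: `TightG`, `S_FamM`, `S_SegW`. Case (B) `log L ≤ κ√t`: except with probability `C κ/√δ` the block is merged at time `δt`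
(`S_Mean` for some `γ` with `IsG γ`; give `γ` as in the statement), then `LS L s x` has one element and `A L s x = LS L s x`. -/
def S_WebG : Prop := ∀ γ : ℝ, IsG γ → ∀ p q : ℝ, p ≤ 0 → 0 ≤ q → p < q → ∀ A : ℕ → ℕ → ℤ → Finset ℤ,
  (∀ (L s : ℕ) (x y : ℤ), A L s (x + 2 ^ s * y) = A L s x) → (∀ (L s : ℕ) (x : ℤ), (LS L s x).card = 1 → A L s x = LS L s x) →
  TightG p q A → ∀ (m : ℕ) (M₀ Λ δ ε : ℝ), 0 < M₀ → 0 ≤ Λ → 0 < δ → 0 < ε → ∃ t₀ K : ℕ, ∀ t : ℕ, t₀ ≤ t →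
  ∀ L : ℕ, 1 ≤ L → Real.log L ≤ M₀ * √t → ∀ (M : ℤ) (W : ℕ), K * 2 ^ t ≤ W →
  ∀ l : List Ob, l.length ≤ m → Adm δ Λ t l → tot l ≤ t →
    |∑ n ∈ Ico M (M + W), PW (fun s => A L s n) 0 l - MW l (Icc (-⌊-(p * Real.log L)⌋) ⌊q * Real.log L⌋) * W| ≤ ε * W

/-- JOB CwTwo. Two or more places.
PROOF. By `CG_cF` and monotonicity (`SF.S_CMono`, `Pool.Agent.Q177.SF.cmono`): the walkers from `a, a+1, ..., b` keep their weak order, so at least two places are occupied iff the first and the last walker have not met;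
`SF.S_Comp`, `SF.S_CInj` reduce this to two walkers: `cF (..) t (Icc a b) = pq t (b-a)` (see `Pool/Agent/Q92/BT/CwMean.lean`, the same tools), and `pq t g` is within `ε` of `Erf (g/√t)` for ALL `g` and `t ≥ t₀`
(`KP.pq_close` or `Expl.pf_lim`, as used in `Pool/Agent/Q92/BT/CwNet.lean` or `Q14/BT/NetA.lean`; for `g > M√t` both are near 1, `pq` is monotone in `g`). -/
def S_CwTwo : Prop := ∀ ε : ℝ, 0 < ε → ∃ t₀ : ℕ, ∀ t : ℕ, t₀ ≤ t → ∀ a b : ℤ, a ≤ b →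
  |cF (fun A => if 2 ≤ A.card then 1 else 0) t (Icc a b) - Erf (((b : ℝ) - a) / √t)| ≤ ε

/-- JOB MeanP. The mean number of popular levels in windows. Prove `meanP (h1 : S_Mean) (h2 : S_TightP) : S_MeanP`.
PROOF. `ℓ = log L`. If `ℓ ≤ κ√t` (`κ` small; `L ≥ 2`, `t` large): `0 ≤ #LP ≤ #VV L t x`, `#LP = 1` if the block is merged (`#VV = 1`), `E (#VV - 1) ≤ C ℓ/√t ≤ Cκ` (`S_Mean`), so `|E #LP - 1| ≤ 2Cκ`. If `κ√t ≤ ℓ ≤ M₀√t`: the second part of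
`S_TightP`. Windows: `#LP` has period `2^t` (`AR.oc_per`) and is `≥ 0`, so its sum over `W` consecutive integers is between `(W/2^t ∓ 1) 2^t` times its mean `EE t #LP ≤ C`, and `2^t ≤ W/K`. -/
def S_MeanP : Prop := ∀ γ : ℝ, IsG γ → ∀ α₁ α₂ σ : ℝ, Rg γ α₁ α₂ → 0 < σ → σ < 1 → th α₁ = σ → th α₂ = σ →
  ∀ M₀ ε : ℝ, 0 < M₀ → 0 < ε → ∃ t₀ K : ℕ, ∀ t : ℕ, t₀ ≤ t → ∀ L : ℕ, 1 ≤ L → Real.log L ≤ M₀ * √t → ∀ (M : ℤ) (W : ℕ), K * 2 ^ t ≤ W →
  |∑ n ∈ Ico M (M + W), ((LP σ L t n).card : ℝ) - (1 + 2 / √Real.pi * ((xx α₂ - xx α₁) * Real.log L / √t)) * W| ≤ ε * W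

end Pool.Agent.Q74.BT
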