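import Pool.Agent.Q74.BT.FinB
import Pool.Agent.Q74.BT.Stm5

/-! # Project BT: the multiplicities, assembly -/

set_option autoImplicit false

namespace Pool.Agent.Q74.BT

open Finset
open Pool.Agent.Q158.Pair (T)
open Pool.Agent.Q74.KP (EE Pe Erf)
open Pool.Agent.Q74.AR (oc oc_per)
open Pool.Agent.Q74.BL (nx T_add)
open Pool.Agent.H395R2.G3 (rr FF rate)

theorem exists_alpha (h : S_Mono) {γ : ℝ} (hG : IsG γ) {σ : ℝ} (h0 : 0 < σ) (h1 : σ < 1) :
    ∃ α₁ α₂ : ℝ, Rg γ α₁ α₂ ∧ th α₁ = σ ∧ th α₂ = σ ∧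
      ∀ α : ℝ, 1 / Real.log 2 < α → α < γ → th α = σ → α = α₁ ∨ α = α₂ := by
  obtain ⟨a1, a2, a3, a4, a5, a6, a7, a8, -⟩ := h γ hG
  set c := 2 / Real.log (4 / 3) with hc
  set b := 1 / Real.log 2 with hb
  have c1 : ContinuousOn th (Set.Icc b c) := a5.mono (Set.Icc_subset_Icc le_rfl a2.le)
  have c2 : ContinuousOn th (Set.Icc c γ) := a5.mono (Set.Icc_subset_Icc a1.le le_rfl)
  obtain ⟨α₁, h11, h12⟩ := intermediate_value_Icc a1.le c1 (show σ ∈ Set.Icc (th b) (th c) by rw [a6, a7]; exact ⟨h0.le, h1.le⟩)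
  obtain ⟨α₂, h21, h22⟩ := intermediate_value_Icc' a2.le c2 (show σ ∈ Set.Icc (th γ) (th c) by rw [a8, a7]; exact ⟨h0.le, h1.le⟩)
  have g1 : b < α₁ := lt_of_le_of_ne h11.1 fun he => by rw [← he, a6] at h12; exact h0.ne h12
  have g2 : α₁ < c := lt_of_le_of_ne h11.2 fun he => by rw [he, a7] at h12; exact h1.ne' h12
  have g3 : c < α₂ := lt_of_le_of_ne h21.1 fun he => by rw [← he, a7] at h22; exact h1.ne' h22
  have g4 : α₂ < γ := lt_of_le_of_ne h21.2 fun he => by rw [he, a8] at h22; exact h0.ne h22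
  refine ⟨α₁, α₂, ⟨g1, g2, g3, g4⟩, h12, h22, fun α k1 k2 k3 => ?_⟩
  rcases le_or_gt α c with k4 | k4
  · left
    exact a3.injOn ⟨k1.le, k4⟩ h11 (by rw [k3, h12])
  · right
    exact a4.injOn ⟨k4.le, k2.le⟩ h21 (by rw [k3, h22])

theorem perturb (h : S_Mono) {γ : ℝ} (hG : IsG γ) {α₁ α₂ σ ε : ℝ} (hR : Rg γ α₁ α₂) (h1 : σ < 1)
    (e1 : th α₁ = σ) (e2 : th α₂ = σ) (hε : 0 < ε) :
    ∃ σ' β₁ β₂ : ℝ, 0 < σ' ∧ σ' < σ ∧ Rg γ β₁ β₂ ∧ th β₁ = σ' ∧ th β₂ = σ' ∧ α₁ - ε ≤ β₁ ∧ β₂ ≤ α₂ + ε := by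
  obtain ⟨a1, a2, a3, a4, a5, a6, a7, a8, -⟩ := h γ hG
  obtain ⟨r1, r2, r3, r4⟩ := hR
  set c := 2 / Real.log (4 / 3) with hc
  set b := 1 / Real.log 2 with hb
  obtain ⟨b1, hb1, hb1'⟩ := exists_between (max_lt r1 (show α₁ - ε < α₁ by linarith))
  obtain ⟨b2, hb2, hb2'⟩ := exists_between (lt_min r4 (show α₂ < α₂ + ε by linarith))
  have hb11 := (max_lt_iff.1 hb1).1
  have hb12 := (max_lt_iff.1 hb1).2
  have hb21 := (lt_min_iff.1 hb2').1
  have hb22 := (lt_min_iff.1 hb2').2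
  have t1 : th b1 < σ := by rw [← e1]; exact a3 ⟨hb11.le, (hb1'.trans r2).le⟩ ⟨r1.le, r2.le⟩ hb1'
  have t1' : 0 < th b1 := by rw [← a6]; exact a3 ⟨le_rfl, a1.le⟩ ⟨hb11.le, (hb1'.trans r2).le⟩ hb11
  have t2 : th b2 < σ := by rw [← e2]; exact a4 ⟨r3.le, r4.le⟩ ⟨(r3.trans hb2).le, hb21.le⟩ hb2
  have t2' : 0 < th b2 := by rw [← a8]; exact a4 ⟨(r3.trans hb2).le, hb21.le⟩ ⟨a2.le, le_rfl⟩ hb21
  set σ' := max (th b1) (th b2) with hσ'
  have s1 : σ' < σ := max_lt t1 t2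
  have s0 : 0 < σ' := lt_max_of_lt_left t1'
  obtain ⟨β₁, β₂, k1, k2, k3, -⟩ := exists_alpha h hG s0 (s1.trans h1)
  refine ⟨σ', β₁, β₂, s0, s1, k1, k2, k3, ?_, ?_⟩
  · have : b1 ≤ β₁ := by
      by_contra hc
      push Not at hc
      have := a3 ⟨k1.1.le, k1.2.1.le⟩ ⟨hb11.le, (hb1'.trans r2).le⟩ hc
      rw [k2] at this
      exact absurd (le_max_left (th b1) (th b2)) (not_le.2 this)
    linarith
  · have : β₂ ≤ b2 := by
      by_contra hc
      push Not at hc
      have := a4 ⟨(r3.trans hb2).le, hb21.le⟩ ⟨k1.2.2.1.le, k1.2.2.2.le⟩ hc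
      rw [k3] at this
      exact absurd (le_max_right (th b1) (th b2)) (not_le.2 this)
    linarith

theorem xx_diff (h : S_Mono) {γ : ℝ} (hG : IsG γ) {α₁ α₂ : ℝ} (hR : Rg γ α₁ α₂) :
    xx α₂ - xx α₁ = (Real.log 2 / Real.log 3 - 1 / 2) * (α₂ - α₁) ∧ xx α₁ ≤ 0 ∧ 0 ≤ xx α₂ ∧ xx α₁ < xx α₂ ∧
      xx α₁ = α₁ * (Real.log 2 / Real.log 3 - 1 / 2) - 1 / Real.log 3 ∧ xx α₂ = α₂ * (Real.log 2 / Real.log 3 - 1 / 2) - 1 / Real.log 3 := by
  obtain ⟨a1, a2, -, -, -, -, -, -, a9, a10, -⟩ := h γ hG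
  obtain ⟨r1, r2, r3, r4⟩ := hR
  have hb : 0 < 1 / Real.log 2 := by
    have := Real.log_pos (by norm_num : (1 : ℝ) < 2)
    positivity
  have h1 := a9 α₁ (by linarith)
  have h2 := a9 α₂ (by linarith)
  have h3 := a9 (2 / Real.log (4 / 3)) (by linarith)
  rw [a10] at h3
  have hk : 0 < Real.log 2 / Real.log 3 - 1 / 2 := by
    have l3 : 0 < Real.log 3 := Real.log_pos (by norm_num)
    have : 1 / 2 < Real.log 2 / Real.log 3 := by
      rw [lt_div_iff₀ l3]
      have h4 : Real.log 3 < Real.log 4 := Real.log_lt_log (by norm_num) (by norm_num)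
      have h5 : Real.log 4 = 2 * Real.log 2 := by
        rw [show (4 : ℝ) = 2 ^ 2 by norm_num, Real.log_pow]; push_cast; ring
      linarith
    linarith
  refine ⟨by rw [h1, h2]; ring, ?_, ?_, ?_, h1, h2⟩
  · rw [h1]; nlinarith
  · rw [h2]; nlinarith
  · rw [h1, h2]; nlinarith

/-! ### popular values -/

theorem card_image_eq {ι A B : Type*} [DecidableEq A] [DecidableEq B] (J : Finset ι) (f : ι → A) (g : ι → B)
    (h : ∀ i ∈ J, ∀ j ∈ J, (f i = f j ↔ g i = g j)) : (J.image f).card = (J.image g).card := by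
  have h1 : ((J.image fun i => (f i, g i)).image Prod.fst).card = (J.image fun i => (f i, g i)).card := by
    apply card_image_of_injOn
    rintro x hx y hy hxy
    obtain ⟨i, hi, rfl⟩ := mem_image.1 (mem_coe.1 hx)
    obtain ⟨j, hj, rfl⟩ := mem_image.1 (mem_coe.1 hy)
    simp only at hxy
    exact Prod.ext hxy ((h i hi j hj).1 hxy)
  have h2 : ((J.image fun i => (f i, g i)).image Prod.snd).card = (J.image fun i => (f i, g i)).card := by
    apply card_image_of_injOn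
    rintro x hx y hy hxy
    obtain ⟨i, hi, rfl⟩ := mem_image.1 (mem_coe.1 hx)
    obtain ⟨j, hj, rfl⟩ := mem_image.1 (mem_coe.1 hy)
    simp only at hxy
    exact Prod.ext ((h i hi j hj).2 hxy) hxy
  rw [image_image] at h1 h2
  have e1 : Prod.fst ∘ (fun i => (f i, g i)) = f := rfl
  have e2 : Prod.snd ∘ (fun i => (f i, g i)) = g := rfl
  rw [e1] at h1
  rw [e2] at h2
  rw [h1, h2]

/-- the classes with at least `s` elements -/
noncomputable def pop {A : Type*} [DecidableEq A] (s : ℝ) (L : ℕ) (f : ℕ → A) : Finset A :=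
  ((range L).image f).filter (fun y => s ≤ ((range L).filter (fun j => f j = y)).card)

theorem pop_eq {A : Type*} [DecidableEq A] (s : ℝ) (L : ℕ) (f : ℕ → A) :
    pop s L f = ((range L).filter (fun i => s ≤ ((range L).filter (fun j => f j = f i)).card)).image f := by
  ext y
  unfold pop
  simp only [mem_filter, mem_image]
  constructor
  · rintro ⟨⟨i, hi, rfl⟩, h⟩
    exact ⟨i, ⟨hi, h⟩, rfl⟩
  · rintro ⟨i, ⟨hi, h⟩, rfl⟩
    exact ⟨⟨i, hi, rfl⟩, h⟩

theorem pop_card {A B : Type*} [DecidableEq A] [DecidableEq B] (s : ℝ) (L : ℕ) (f : ℕ → A) (g : ℕ → B)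
    (h : ∀ i < L, ∀ j < L, (f i = f j ↔ g i = g j)) : (pop s L f).card = (pop s L g).card := by
  have hJ : (range L).filter (fun i => s ≤ ((range L).filter (fun j => f j = f i)).card) =
      (range L).filter (fun i => s ≤ ((range L).filter (fun j => g j = g i)).card) := by
    apply filter_congr
    intro i hi
    have : (range L).filter (fun j => f j = f i) = (range L).filter (fun j => g j = g i) := by
      apply filter_congr
      intro j hj
      exact h j (mem_range.1 hj) i (mem_range.1 hi)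
    rw [this]
  rw [pop_eq, pop_eq, hJ]
  apply card_image_eq
  intro i hi j hj
  exact h i (mem_range.1 (mem_filter.1 hi).1) j (mem_range.1 (mem_filter.1 hj).1)

theorem LP_pop (σ : ℝ) (L t : ℕ) (n : ℤ) : LP σ L t n = pop ((L : ℝ) ^ σ) L (fun j : ℕ => (oc t (n + j) : ℤ)) := by
  unfold LP LS pop
  rfl

/-- the values which are taken at least `L^σ` times -/
noncomputable def PV (σ : ℝ) (L t : ℕ) (n : ℤ) : Finset ℤ := pop ((L : ℝ) ^ σ) L (fun j : ℕ => T^[t] (n + j))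

/-- every value misses at least `L^σ` members of the block -/
def Spr (σ : ℝ) (L t : ℕ) (n : ℤ) : Prop := ∀ y : ℤ, (((range L).filter (fun j : ℕ => T^[t] (n + j) = y)).card : ℝ) + (L : ℝ) ^ σ ≤ L

theorem spr_of_two {σ : ℝ} {L t : ℕ} {n : ℤ} (h : 2 ≤ (PV σ L t n).card) : Spr σ L t n := by
  intro y
  obtain ⟨a, ha, b, hb, hab⟩ := one_lt_card.1 h
  obtain ⟨z, hz, hzy⟩ : ∃ z ∈ PV σ L t n, z ≠ y := by
    by_cases h1 : a = y
    · exact ⟨b, hb, fun h2 => hab (by rw [h1, h2])⟩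
    · exact ⟨a, ha, h1⟩
  unfold PV pop at hz
  have h2 := (mem_filter.1 hz).2
  have h3 : ((range L).filter (fun j : ℕ => T^[t] (n + j) = y)).card + ((range L).filter (fun j : ℕ => T^[t] (n + j) = z)).card ≤ L := by
    rw [← card_union_of_disjoint]
    · refine (card_le_card (union_subset (filter_subset _ _) (filter_subset _ _))).trans (le_of_eq (card_range L))
    · rw [disjoint_filter]
      intro j _ h4 h5
      exact hzy (by rw [← h5, h4])
  have h4 : (((range L).filter (fun j : ℕ => T^[t] (n + j) = y)).card : ℝ) + ((range L).filter (fun j : ℕ => T^[t] (n + j) = z)).card ≤ L := by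
    exact_mod_cast h3
  linarith

theorem two_of_spr {σ σ' : ℝ} {L t K : ℕ} {n : ℤ} (hL : 1 ≤ L) (h : Spr σ L t n) (hK : Vn L t n ≤ K)
    (h1 : (K : ℝ) * (L : ℝ) ^ σ' ≤ (L : ℝ) ^ σ) (h2 : (K : ℝ) * (L : ℝ) ^ σ' ≤ L) : 2 ≤ (PV σ' L t n).card := by
  classical
  set f : ℕ → ℤ := fun j : ℕ => T^[t] (n + j) with hf
  set V := (range L).image f with hV
  have hVc : V.card ≤ K := hK
  have hs0 : (0 : ℝ) ≤ (L : ℝ) ^ σ' := by positivity
  have hLσ : (0 : ℝ) < (L : ℝ) ^ σ := by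
    have : (0 : ℝ) < L := by exact_mod_cast hL
    positivity
  have hV0 : V.Nonempty := ⟨f 0, mem_image.2 ⟨0, mem_range.2 hL, rfl⟩⟩
  have hsum : ∀ S ⊆ V, ((range L).filter (fun j => f j ∈ S)).card = ∑ y ∈ S, ((range L).filter (fun j => f j = y)).card := by
    intro S _
    rw [card_eq_sum_card_fiberwise (s := (range L).filter (fun j => f j ∈ S)) (f := f) (t := S)
      (fun j hj => mem_coe.2 (mem_filter.1 (mem_coe.1 hj)).2)]
    apply sum_congr rfl
    intro y hy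
    congr 1
    ext j
    simp only [mem_filter]
    constructor
    · rintro ⟨⟨h3, -⟩, h4⟩; exact ⟨h3, h4⟩
    · rintro ⟨h3, h4⟩; exact ⟨⟨h3, by rw [h4]; exact hy⟩, h4⟩
  -- a popular value
  have hex : ∀ S ⊆ V, (K : ℝ) * (L : ℝ) ^ σ' ≤ ((range L).filter (fun j => f j ∈ S)).card → 0 < ((range L).filter (fun j => f j ∈ S)).card →
      ∃ y ∈ S, (L : ℝ) ^ σ' ≤ ((range L).filter (fun j => f j = y)).card := by
    intro S hS hS2 hS3
    by_contra hc
    push Not at hc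
    have hSn : S.Nonempty := by
      obtain ⟨j, hj⟩ := card_pos.1 hS3
      exact ⟨f j, (mem_filter.1 hj).2⟩
    have h3 : (((range L).filter (fun j => f j ∈ S)).card : ℝ) < S.card * (L : ℝ) ^ σ' := by
      rw [hsum S hS]
      push_cast
      calc ∑ y ∈ S, (((range L).filter (fun j => f j = y)).card : ℝ) < ∑ y ∈ S, (L : ℝ) ^ σ' := sum_lt_sum_of_nonempty hSn hc
        _ = _ := by rw [sum_const, nsmul_eq_mul]
    have h4 : (S.card : ℝ) ≤ K := by exact_mod_cast (card_le_card hS).trans hVc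
    nlinarith
  have hall : ((range L).filter (fun j => f j ∈ V)) = range L := by
    apply filter_true_of_mem
    intro j hj
    exact mem_image_of_mem _ hj
  obtain ⟨y₀, hy₀, hy₀'⟩ := hex V Subset.rfl (by rw [hall, card_range]; exact h2) (by rw [hall, card_range]; omega)
  set S := V.erase y₀ with hS
  have hcomp : ((range L).filter (fun j => f j ∈ S)).card + ((range L).filter (fun j => f j = y₀)).card = L := by
    rw [← card_union_of_disjoint]
    · have : ((range L).filter (fun j => f j ∈ S)) ∪ ((range L).filter (fun j => f j = y₀)) = range L := by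
        ext j
        simp only [mem_union, mem_filter, hS, mem_erase]
        constructor
        · rintro (⟨h3, -⟩ | ⟨h3, -⟩) <;> exact h3
        · intro h3
          by_cases h4 : f j = y₀
          · exact Or.inr ⟨h3, h4⟩
          · exact Or.inl ⟨h3, h4, mem_image_of_mem _ h3⟩
      rw [this, card_range]
    · rw [disjoint_filter]
      intro j _ h4 h5
      rw [h5] at h4
      exact (mem_erase.1 h4).1 rfl
  have h3 := h y₀
  have hcomp' : (((range L).filter (fun j => f j ∈ S)).card : ℝ) + ((range L).filter (fun j => f j = y₀)).card = L := by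
    exact_mod_cast hcomp
  have h4 : (L : ℝ) ^ σ ≤ ((range L).filter (fun j => f j ∈ S)).card := by
    have h3' : (((range L).filter (fun j => f j = y₀)).card : ℝ) + (L : ℝ) ^ σ ≤ L := h3
    linarith
  obtain ⟨y₁, hy₁, hy₁'⟩ := hex S (erase_subset _ _) (h1.trans h4) (by
    have : (0 : ℝ) < ((range L).filter (fun j => f j ∈ S)).card := lt_of_lt_of_le hLσ h4
    exact_mod_cast this)
  have m0 : y₀ ∈ PV σ' L t n := by
    unfold PV pop
    exact mem_filter.2 ⟨hy₀, hy₀'⟩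
  have m1 : y₁ ∈ PV σ' L t n := by
    unfold PV pop
    exact mem_filter.2 ⟨(mem_erase.1 hy₁).2, hy₁'⟩
  exact one_lt_card.2 ⟨y₀, m0, y₁, m1, fun he => (mem_erase.1 hy₁).1 he.symm⟩

end Pool.Agent.Q74.BT
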