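import Pool.Agent.Q74.BT.FinM

/-! # Project BT: the multiplicities, the laws in windows -/

set_option autoImplicit false

namespace Pool.Agent.Q74.BT

open Finset
open Pool.Agent.Q158.Pair (T)
open Pool.Agent.Q74.KP (EE Pe Erf)
open Pool.Agent.Q74.AR (oc oc_per)
open Pool.Agent.Q74.BL (nx T_add)
open Pool.Agent.H395R2.G3 (rr FF rate)

theorem LP_per (σ : ℝ) (L s : ℕ) (x y : ℤ) : LP σ L s (x + 2 ^ s * y) = LP σ L s x := by
  have h : ∀ j : ℕ, oc s (x + 2 ^ s * y + j) = oc s (x + j) := by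
    intro j
    have e : x + 2 ^ s * y + (j : ℤ) = (x + j) + 2 ^ s * y := by ring
    rw [e, oc_per]
  rw [LP_pop, LP_pop]
  simp only [h]

theorem LP_one {σ : ℝ} (hσ : σ < 1) (L s : ℕ) (x : ℤ) (h : (LS L s x).card = 1) : LP σ L s x = LS L s x := by
  obtain ⟨a, ha⟩ := card_eq_one.1 h
  have hL : 0 < L := by
    by_contra hc
    have : L = 0 := by omega
    subst this
    unfold LS at h
    simp at h
  unfold LP
  apply filter_true_of_mem
  intro y hy
  have hall : ∀ j ∈ range L, (oc s (x + j) : ℤ) = y := by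
    intro j hj
    have h1 : (oc s (x + j) : ℤ) ∈ LS L s x := by
      unfold LS
      exact mem_image.2 ⟨j, hj, rfl⟩
    rw [ha, mem_singleton] at h1 hy
    rw [h1, hy]
  rw [filter_true_of_mem hall, card_range]
  have h1 : (1 : ℝ) ≤ L := by exact_mod_cast hL
  calc (L : ℝ) ^ σ ≤ (L : ℝ) ^ (1 : ℝ) := Real.rpow_le_rpow_of_exponent_le h1 hσ.le
    _ = L := Real.rpow_one _

/-- the flow of the popular levels -/
theorem webP (hw : S_WebG) (ht : S_TightP) (hm : S_Mono) {γ : ℝ} (hG : IsG γ) {α₁ α₂ σ : ℝ} (hR : Rg γ α₁ α₂) (h0 : 0 < σ) (h1 : σ < 1)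
    (e1 : th α₁ = σ) (e2 : th α₂ = σ) (m : ℕ) {M₀ Λ δ ε : ℝ} (hM : 0 < M₀) (hΛ : 0 ≤ Λ) (hδ : 0 < δ) (hε : 0 < ε) :
    ∃ t₀ K : ℕ, ∀ t : ℕ, t₀ ≤ t →
    ∀ L : ℕ, 1 ≤ L → Real.log L ≤ M₀ * √t → ∀ (M : ℤ) (W : ℕ), K * 2 ^ t ≤ W →
    ∀ l : List Ob, l.length ≤ m → Adm δ Λ t l → tot l ≤ t →
      |∑ n ∈ Ico M (M + W), PW (fun s => LP σ L s n) 0 l - MW l (Icc (-⌊-(xx α₁ * Real.log L)⌋) ⌊xx α₂ * Real.log L⌋) * W| ≤ ε * W := by
  obtain ⟨-, x1, x2, x3, -⟩ := xx_diff hm hG hR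
  exact hw γ hG (xx α₁) (xx α₂) x1 x2 x3 (LP σ) (fun L s x y => LP_per σ L s x y) (fun L s x h => LP_one h1 L s x h)
    (ht γ hG α₁ α₂ σ hR h0 h1 e1 e2).1 m M₀ Λ δ ε hM hΛ hδ hε

theorem Erf_lip (x y : ℝ) (hxy : x ≤ y) : Erf y - Erf x ≤ 2 * (y - x) := by
  have hcont : Continuous (fun y : ℝ => Real.exp (-y ^ 2)) := by fun_prop
  have h1 : Erf y - Erf x = 2 / √Real.pi * ∫ z in x..y, Real.exp (-z ^ 2) := by
    unfold Pool.Agent.Q74.KP.Erf
    rw [← mul_sub, intervalIntegral.integral_interval_sub_left (hcont.intervalIntegrable _ _)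
      (hcont.intervalIntegrable _ _)]
  have h2 : ∫ z in x..y, Real.exp (-z ^ 2) ≤ ∫ z in x..y, (1 : ℝ) := by
    apply intervalIntegral.integral_mono_on hxy (hcont.intervalIntegrable _ _) (continuous_const.intervalIntegrable _ _)
    intro z _
    rw [Real.exp_le_one_iff]
    nlinarith [sq_nonneg z]
  rw [intervalIntegral.integral_const, smul_eq_mul, mul_one] at h2
  have h5 : 2 / √Real.pi ≤ 2 := by
    have h6 : (1 : ℝ) ≤ √Real.pi := by
      rw [Real.one_le_sqrt]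
      linarith [Real.pi_gt_three]
    rw [div_le_iff₀ (by linarith)]
    linarith
  have h8 : 0 ≤ ∫ z in x..y, Real.exp (-z ^ 2) :=
    intervalIntegral.integral_nonneg hxy fun z _ => (Real.exp_pos _).le
  rw [h1]
  calc 2 / √Real.pi * ∫ z in x..y, Real.exp (-z ^ 2) ≤ 2 * ∫ z in x..y, Real.exp (-z ^ 2) := mul_le_mul_of_nonneg_right h5 h8
    _ ≤ _ := by linarith

theorem Erf_lip' (x y : ℝ) : |Erf y - Erf x| ≤ 2 * |y - x| := by
  have hmono : ∀ a b : ℝ, a ≤ b → Erf a ≤ Erf b := by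
    intro a b hab
    have hcont : Continuous (fun y : ℝ => Real.exp (-y ^ 2)) := by fun_prop
    have h1 : Erf b - Erf a = 2 / √Real.pi * ∫ z in a..b, Real.exp (-z ^ 2) := by
      unfold Pool.Agent.Q74.KP.Erf
      rw [← mul_sub, intervalIntegral.integral_interval_sub_left (hcont.intervalIntegrable _ _)
        (hcont.intervalIntegrable _ _)]
    have h8 : 0 ≤ ∫ z in a..b, Real.exp (-z ^ 2) :=
      intervalIntegral.integral_nonneg hab fun z _ => (Real.exp_pos _).le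
    have : 0 ≤ 2 / √Real.pi * ∫ z in a..b, Real.exp (-z ^ 2) := by positivity
    linarith
  rcases le_total x y with h | h
  · rw [abs_of_nonneg (by linarith [hmono x y h]), abs_of_nonneg (by linarith)]
    exact Erf_lip x y h
  · rw [abs_of_nonpos (by linarith [hmono y x h]), abs_of_nonpos (by linarith)]
    have := Erf_lip y x h
    linarith

open Classical in
/-- two popular levels -/
theorem twoLP (hw : S_WebG) (ht : S_TightP) (hm : S_Mono) (hc : S_CwTwo) {γ : ℝ} (hG : IsG γ) {α₁ α₂ σ : ℝ} (hR : Rg γ α₁ α₂) (h0 : 0 < σ)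
    (h1 : σ < 1) (e1 : th α₁ = σ) (e2 : th α₂ = σ) {M₀ ε : ℝ} (hM : 0 < M₀) (hε : 0 < ε) :
    ∃ t₀ K : ℕ, ∀ t : ℕ, t₀ ≤ t → ∀ L : ℕ, 1 ≤ L → Real.log L ≤ M₀ * √t → ∀ (M : ℤ) (W : ℕ), K * 2 ^ t ≤ W →
      |((((Ico M (M + W)).filter fun n => 2 ≤ (LP σ L t n).card).card : ℕ) : ℝ) - Erf ((xx α₂ - xx α₁) * Real.log L / √t) * W| ≤ ε * W := by
  obtain ⟨t₁, K, hweb⟩ := webP hw ht hm hG hR h0 h1 e1 e2 1 hM (show (0 : ℝ) ≤ 0 by norm_num) (show (0 : ℝ) < 1 by norm_num)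
    (show 0 < ε / 3 by positivity)
  obtain ⟨t₂, hcw⟩ := hc (ε / 3) (by positivity)
  obtain ⟨t₃, ht₃⟩ := exists_nat_gt ((18 / ε) ^ 2)
  obtain ⟨-, x1, x2, x3, -⟩ := xx_diff hm hG hR
  refine ⟨max (max t₁ t₂) (t₃ + 1), K, fun t ht' L hL hlog M W hW => ?_⟩
  have g1 : t₁ ≤ t := le_trans (le_trans (le_max_left _ _) (le_max_left _ _)) ht'
  have g2 : t₂ ≤ t := le_trans (le_trans (le_max_right _ _) (le_max_left _ _)) ht'
  have g3 : t₃ + 1 ≤ t := le_trans (le_max_right _ _) ht'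
  set φ : ℕ → ℝ := fun k => if 2 ≤ k then 1 else 0 with hφ
  set l : List Ob := [(t, φ, fun _ => 1)] with hl
  have hadm : Adm 1 0 t l := by
    intro e he
    rw [hl, List.mem_singleton] at he
    subst he
    refine ⟨by simp, fun x => ?_, fun x => by simp, fun x y => by simp⟩
    simp only [hφ]
    split_ifs <;> simp
  have h2 := hweb t g1 L hL hlog M W hW l (by simp [hl]) hadm (by simp [hl, tot])
  have h3 : ∀ n : ℤ, PW (fun s => LP σ L s n) 0 l = if 2 ≤ (LP σ L t n).card then 1 else 0 := by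
    intro n
    simp only [hl, PW, Wt, hφ, Nat.zero_add, prod_const_one, mul_one]
  have h4 : ∀ A : Finset ℤ, MW l A = cF (fun A => if 2 ≤ A.card then 1 else 0) t A := by
    intro A
    simp only [hl, MW, Wt, hφ, prod_const_one, mul_one]
  set a : ℤ := -⌊-(xx α₁ * Real.log L)⌋ with ha
  set b : ℤ := ⌊xx α₂ * Real.log L⌋ with hb
  have hlogL : 0 ≤ Real.log L := Real.log_nonneg (by exact_mod_cast hL)
  have hab : a ≤ b := by
    have u1 : a ≤ 0 := by
      rw [ha]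
      have : (0 : ℤ) ≤ ⌊-(xx α₁ * Real.log L)⌋ := Int.floor_nonneg.2 (by nlinarith)
      linarith
    have u2 : 0 ≤ b := by
      rw [hb]
      exact Int.floor_nonneg.2 (by positivity)
    linarith
  have h5 := hcw t g2 a b hab
  simp only [h3, h4] at h2
  have h6 : ∑ n ∈ Ico M (M + W), (if 2 ≤ (LP σ L t n).card then (1 : ℝ) else 0) =
      (((Ico M (M + W)).filter fun n => 2 ≤ (LP σ L t n).card).card : ℝ) := by
    rw [card_filter]
    push_cast
    rfl
  rw [h6] at h2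
  have ht0 : (0 : ℝ) < t := by
    have : 0 < t := by omega
    exact_mod_cast this
  have hst : 0 < √(t : ℝ) := Real.sqrt_pos.2 ht0
  have h7 : |Erf (((b : ℝ) - a) / √t) - Erf ((xx α₂ - xx α₁) * Real.log L / √t)| ≤ ε / 3 := by
    refine (Erf_lip' _ _).trans ?_
    have h8 : |((b : ℝ) - a) / √t - (xx α₂ - xx α₁) * Real.log L / √t| ≤ 2 / √t := by
      rw [← sub_div, abs_div, abs_of_pos hst]
      apply div_le_div_of_nonneg_right _ hst.le
      have k1 := Int.floor_le (xx α₂ * Real.log L)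
      have k2 := Int.lt_floor_add_one (xx α₂ * Real.log L)
      have k3 := Int.floor_le (-(xx α₁ * Real.log L))
      have k4 := Int.lt_floor_add_one (-(xx α₁ * Real.log L))
      rw [← hb] at k1 k2
      have k5 : (a : ℝ) = -((⌊-(xx α₁ * Real.log L)⌋ : ℤ) : ℝ) := by rw [ha]; push_cast; rfl
      rw [abs_le]
      constructor <;> nlinarith
    have h9 : 18 / ε ≤ √(t : ℝ) := by
      apply Real.le_sqrt_of_sq_le
      have : (t₃ : ℝ) ≤ t := by
        have : t₃ ≤ t := by omega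
        exact_mod_cast this
      linarith
    have h10 : 2 / √(t : ℝ) ≤ ε / 9 := by
      rw [div_le_iff₀ hst]
      rw [div_le_iff₀ hε] at h9
      linarith
    linarith
  have hW0 : (0 : ℝ) ≤ W := Nat.cast_nonneg W
  have h11 : |cF (fun A => if 2 ≤ A.card then (1 : ℝ) else 0) t (Icc a b) - Erf ((xx α₂ - xx α₁) * Real.log L / √t)| ≤ 2 * ε / 3 := by
    have := abs_add_le (cF (fun A => if 2 ≤ A.card then (1 : ℝ) else 0) t (Icc a b) - Erf (((b : ℝ) - a) / √t))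
      (Erf (((b : ℝ) - a) / √t) - Erf ((xx α₂ - xx α₁) * Real.log L / √t))
    rw [sub_add_sub_cancel] at this
    linarith
  have h12 := abs_le.1 h2
  have h13 := abs_le.1 h11
  rw [abs_le]
  constructor
  · have := mul_le_mul_of_nonneg_right h13.1 hW0
    linarith [h12.1]
  · have := mul_le_mul_of_nonneg_right h13.2 hW0
    linarith [h12.2]

end Pool.Agent.Q74.BT
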