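import Pool.Agent.Q74.BT.FinM2

/-! # Project BT: the multiplicities, values and invariant functions -/

set_option autoImplicit false

namespace Pool.Agent.Q74.BT

open Finset
open Pool.Agent.Q158.Pair (T)
open Pool.Agent.Q74.KP (EE Pe Erf)
open Pool.Agent.Q74.AR (oc oc_per)
open Pool.Agent.Q74.BL (nx T_add)
open Pool.Agent.H395R2.G3 (rr FF rate)

theorem nc_le {M : ℤ} {W : ℕ} {P Q R : ℤ → Prop} (h : ∀ n, P n → Q n ∨ R n) :
    ({n : ℤ | M ≤ n ∧ n < M + W ∧ P n}.ncard : ℝ) ≤ ({n : ℤ | M ≤ n ∧ n < M + W ∧ Q n}.ncard : ℝ) +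
      ({n : ℤ | M ≤ n ∧ n < M + W ∧ R n}.ncard : ℝ) := by
  have hfin : ∀ P : ℤ → Prop, ({n : ℤ | M ≤ n ∧ n < M + W ∧ P n}).Finite := fun P =>
    (Set.finite_Ico M (M + W)).subset fun n hn => ⟨hn.1, hn.2.1⟩
  have h1 : {n : ℤ | M ≤ n ∧ n < M + W ∧ P n} ⊆ {n : ℤ | M ≤ n ∧ n < M + W ∧ Q n} ∪ {n : ℤ | M ≤ n ∧ n < M + W ∧ R n} := by
    rintro n ⟨h1, h2, h3⟩
    rcases h n h3 with h4 | h4
    · exact Or.inl ⟨h1, h2, h4⟩
    · exact Or.inr ⟨h1, h2, h4⟩
  have h2 := (Set.ncard_le_ncard h1 ((hfin Q).union (hfin R))).trans (Set.ncard_union_le _ _)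
  exact_mod_cast h2

theorem nc_mono {M : ℤ} {W : ℕ} {P Q : ℤ → Prop} (h : ∀ n, P n → Q n) :
    ({n : ℤ | M ≤ n ∧ n < M + W ∧ P n}.ncard : ℝ) ≤ ({n : ℤ | M ≤ n ∧ n < M + W ∧ Q n}.ncard : ℝ) := by
  have hfin : ({n : ℤ | M ≤ n ∧ n < M + W ∧ Q n}).Finite :=
    (Set.finite_Ico M (M + W)).subset fun n hn => ⟨hn.1, hn.2.1⟩
  have h1 : {n : ℤ | M ≤ n ∧ n < M + W ∧ P n} ⊆ {n : ℤ | M ≤ n ∧ n < M + W ∧ Q n} := fun n hn => ⟨hn.1, hn.2.1, h n hn.2.2⟩
  exact_mod_cast Set.ncard_le_ncard h1 hfin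

theorem nc_filter (M : ℤ) (W : ℕ) (P : ℤ → Prop) [DecidablePred P] :
    ({n : ℤ | M ≤ n ∧ n < M + W ∧ P n}.ncard : ℝ) = (((Ico M (M + W)).filter fun n => P n).card : ℝ) := by
  rw [← Set.ncard_coe_finset]
  congr 2
  ext n
  simp only [Set.mem_ofPred_eq, coe_filter, mem_Ico]
  tauto

/-- two values which are taken at least `L^σ` times -/
theorem twoPV (hw : S_WebG) (ht : S_TightP) (hm : S_Mono) (hc : S_CwTwo) (hweb : S_Web) {γ : ℝ} (hG : IsG γ) {α₁ α₂ σ : ℝ} (hR : Rg γ α₁ α₂)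
    (h0 : 0 < σ) (h1 : σ < 1) (e1 : th α₁ = σ) (e2 : th α₂ = σ) {M₀ ε : ℝ} (hM : 0 < M₀) (hε : 0 < ε) :
    ∃ t₀ K : ℕ, ∀ t : ℕ, t₀ ≤ t → ∀ L : ℕ, 1 ≤ L → Real.log L ≤ M₀ * √t → ∀ (M : ℤ) (W : ℕ), K * 2 ^ t ≤ W →
      |({n : ℤ | M ≤ n ∧ n < M + W ∧ 2 ≤ (PV σ L t n).card}.ncard : ℝ) - Erf ((xx α₂ - xx α₁) * Real.log L / √t) * W| ≤ ε * W := by
  classical
  obtain ⟨t₁, K₁, g1⟩ := twoLP hw ht hm hc hG hR h0 h1 e1 e2 hM (show 0 < ε / 2 by positivity)
  obtain ⟨t₂, K₂, g2⟩ := hweb γ hG 0 M₀ 0 1 (ε / 2) hM le_rfl one_pos (by positivity)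
  refine ⟨max t₁ t₂, max K₁ K₂, fun t ht' L hL hlog M W hW => ?_⟩
  have a1 := g1 t (le_trans (le_max_left _ _) ht') L hL hlog M W (le_trans (Nat.mul_le_mul_right _ (le_max_left _ _)) hW)
  have a2 := (g2 t (le_trans (le_max_right _ _) ht') L hL hlog M W (le_trans (Nat.mul_le_mul_right _ (le_max_right _ _)) hW)).2 t
    (by linarith) le_rfl
  have hgood : ∀ n : ℤ, (¬ ∃ i j : ℕ, i < L ∧ j < L ∧ ¬ (T^[t] (n + i) = T^[t] (n + j) ↔ oc t (n + i) = oc t (n + j))) →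
      (PV σ L t n).card = (LP σ L t n).card := by
    intro n hn
    rw [LP_pop]
    unfold PV
    apply pop_card
    intro i hi j hj
    by_contra hcc
    exact hn ⟨i, j, hi, hj, fun hh => hcc (by rw [hh]; norm_cast)⟩
  have b1 : ({n : ℤ | M ≤ n ∧ n < M + W ∧ 2 ≤ (PV σ L t n).card}.ncard : ℝ) ≤
      ({n : ℤ | M ≤ n ∧ n < M + W ∧ 2 ≤ (LP σ L t n).card}.ncard : ℝ) + ({n : ℤ | M ≤ n ∧ n < M + W ∧ ∃ i j : ℕ, i < L ∧ j < L ∧
        ¬ (T^[t] (n + i) = T^[t] (n + j) ↔ oc t (n + i) = oc t (n + j))}.ncard : ℝ) := by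
    apply nc_le
    intro n hn
    by_cases hb : ∃ i j : ℕ, i < L ∧ j < L ∧ ¬ (T^[t] (n + i) = T^[t] (n + j) ↔ oc t (n + i) = oc t (n + j))
    · exact Or.inr hb
    · left; rwa [← hgood n hb]
  have b2 : ({n : ℤ | M ≤ n ∧ n < M + W ∧ 2 ≤ (LP σ L t n).card}.ncard : ℝ) ≤
      ({n : ℤ | M ≤ n ∧ n < M + W ∧ 2 ≤ (PV σ L t n).card}.ncard : ℝ) + ({n : ℤ | M ≤ n ∧ n < M + W ∧ ∃ i j : ℕ, i < L ∧ j < L ∧
        ¬ (T^[t] (n + i) = T^[t] (n + j) ↔ oc t (n + i) = oc t (n + j))}.ncard : ℝ) := by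
    apply nc_le
    intro n hn
    by_cases hb : ∃ i j : ℕ, i < L ∧ j < L ∧ ¬ (T^[t] (n + i) = T^[t] (n + j) ↔ oc t (n + i) = oc t (n + j))
    · exact Or.inr hb
    · left; rwa [hgood n hb]
  have a0 : ({n : ℤ | M ≤ n ∧ n < M + W ∧ 2 ≤ (LP σ L t n).card}.ncard : ℝ) =
      (((Ico M (M + W)).filter fun n => 2 ≤ (LP σ L t n).card).card : ℝ) := by
    convert nc_filter M W (fun n => 2 ≤ (LP σ L t n).card)
  rw [← a0] at a1
  have a1' := abs_le.1 a1
  rw [abs_le]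
  constructor <;> linarith

/-- law of the time at which all but `L^σ` of the trajectories have merged -/
theorem sprLaw (hw : S_WebG) (ht : S_TightP) (hm : S_Mono) (hc : S_CwTwo) (hweb : S_Web) (hfull : S_Full) (hup : S_Up) (hlo : S_Lo)
    {γ : ℝ} (hG : IsG γ) {α₁ α₂ σ : ℝ} (hR : Rg γ α₁ α₂)
    (h0 : 0 < σ) (h1 : σ < 1) (e1 : th α₁ = σ) (e2 : th α₂ = σ) {M₀ ε : ℝ} (hM : 0 < M₀) (hε : 0 < ε) :
    ∃ t₀ K : ℕ, ∀ t : ℕ, t₀ ≤ t → ∀ L : ℕ, 1 ≤ L → Real.log L ≤ M₀ * √t → ∀ (M : ℤ) (W : ℕ), K * 2 ^ t ≤ W →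
      |({n : ℤ | M ≤ n ∧ n < M + W ∧ Spr σ L t n}.ncard : ℝ) - Erf ((xx α₂ - xx α₁) * Real.log L / √t) * W| ≤ ε * W := by
  classical
  -- the perturbed exponent
  obtain ⟨d1, -, -, d4, d5, d6⟩ := xx_diff hm hG hR
  set κ := Real.log 2 / Real.log 3 - 1 / 2 with hκ
  have hκ0 : 0 < κ := by
    obtain ⟨r1, r2, r3, r4⟩ := hR
    by_contra hc'
    push Not at hc'
    have : (α₂ - α₁) * κ ≤ 0 := mul_nonpos_of_nonneg_of_nonpos (by linarith) hc'
    rw [mul_comm] at this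
    linarith
  obtain ⟨σ', β₁, β₂, s0, s1, hR', k1, k2, k3, k4⟩ := perturb hm hG hR h1 e1 e2 (show 0 < ε / (16 * κ * M₀) by positivity)
  obtain ⟨c1, -, -, c4, -, -⟩ := xx_diff hm hG hR'
  rw [← hκ] at c1
  have hD : xx β₂ - xx β₁ ≤ (xx α₂ - xx α₁) + ε / (8 * M₀) := by
    rw [c1, d1]
    have : κ * (β₂ - β₁) ≤ κ * ((α₂ - α₁) + 2 * (ε / (16 * κ * M₀))) := mul_le_mul_of_nonneg_left (by linarith) hκ0.le
    have e : κ * ((α₂ - α₁) + 2 * (ε / (16 * κ * M₀))) = κ * (α₂ - α₁) + ε / (8 * M₀) := by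
      field_simp
      ring
    linarith
  obtain ⟨t₁, K₁, g1⟩ := twoPV hw ht hm hc hweb hG hR h0 h1 e1 e2 hM (show 0 < ε / 4 by positivity)
  obtain ⟨t₂, K₂, g2⟩ := twoPV hw ht hm hc hweb hG hR' s0 (s1.trans h1) k1 k2 hM (show 0 < ε / 4 by positivity)
  obtain ⟨t₃, K₃, g3⟩ := hfull γ hG M₀ 1 hM one_pos
  obtain ⟨t₄, K₄, g4⟩ := law hup hlo hG (show 0 < ε / 4 by positivity)
  have hDD : 0 < DD γ := by
    have := (DD_bounds hG).1
    linarith
  set C₁ := 2 + 2 / √Real.pi * (DD γ * M₀) with hC₁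
  have hC₁0 : 0 < C₁ := by positivity
  obtain ⟨V, hV⟩ := exists_nat_gt (4 * C₁ / ε)
  have hV0 : (0 : ℝ) < V := lt_of_le_of_lt (by positivity) hV
  -- large L
  obtain ⟨L₁, hL₁⟩ := exists_nat_gt (((V : ℝ)) ^ (1 / (σ - σ')))
  have hss : 0 < σ - σ' := by linarith
  obtain ⟨t₅, ht₅⟩ := exists_nat_gt ((8 * DD γ * Real.log (L₁ + 1) / ε) ^ 2)
  refine ⟨t₁ + t₂ + t₃ + t₄ + t₅ + 1, K₁ + K₂ + K₃ + K₄, fun t htt L hL hlog M W hW => ?_⟩
  have w1 : K₁ * 2 ^ t ≤ W := le_trans (Nat.mul_le_mul_right _ (by omega)) hW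
  have w2 : K₂ * 2 ^ t ≤ W := le_trans (Nat.mul_le_mul_right _ (by omega)) hW
  have w3 : K₃ * 2 ^ t ≤ W := le_trans (Nat.mul_le_mul_right _ (by omega)) hW
  have w4 : K₄ * 2 ^ t ≤ W := le_trans (Nat.mul_le_mul_right _ (by omega)) hW
  have b1 := abs_le.1 (g1 t (by omega) L hL hlog M W w1)
  have b2 := abs_le.1 (g2 t (by omega) L hL hlog M W w2)
  have b3 := abs_le.1 (g3 t (by omega) L hL hlog M W w3).2
  have b4 := abs_le.1 (g4 t (by omega) L hL M W w4)
  have hW0 : (0 : ℝ) ≤ W := Nat.cast_nonneg W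
  have hLr : (1 : ℝ) ≤ L := by exact_mod_cast hL
  have hlog0 : 0 ≤ Real.log L := Real.log_nonneg hLr
  have ht0 : (0 : ℝ) < t := by
    have : 0 < t := by omega
    exact_mod_cast this
  have hst : 0 < √(t : ℝ) := Real.sqrt_pos.2 ht0
  have hErf0 : ∀ x : ℝ, 0 ≤ x → 0 ≤ Erf x := by
    intro x hx
    unfold Pool.Agent.Q74.KP.Erf
    have : 0 ≤ ∫ y in (0 : ℝ)..x, Real.exp (-y ^ 2) := intervalIntegral.integral_nonneg hx fun y _ => (Real.exp_pos _).le
    positivity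
  have hE0 : 0 ≤ Erf ((xx α₂ - xx α₁) * Real.log L / √t) := hErf0 _ (by
    have : 0 ≤ xx α₂ - xx α₁ := by linarith
    positivity)
  -- lower bound
  have low : ({n : ℤ | M ≤ n ∧ n < M + W ∧ 2 ≤ (PV σ L t n).card}.ncard : ℝ) ≤ ({n : ℤ | M ≤ n ∧ n < M + W ∧ Spr σ L t n}.ncard : ℝ) :=
    nc_mono fun n hn => spr_of_two hn
  have upp : ({n : ℤ | M ≤ n ∧ n < M + W ∧ Spr σ L t n}.ncard : ℝ) ≤ (Erf ((xx α₂ - xx α₁) * Real.log L / √t) + ε) * W := by
    rcases le_or_gt L₁ L with hLL | hLL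
    · -- many members
      have hpow : (V : ℝ) ≤ (L : ℝ) ^ (σ - σ') := by
        have u1 : ((V : ℝ)) ^ (1 / (σ - σ')) ≤ L := hL₁.le.trans (by exact_mod_cast hLL)
        have u2 := Real.rpow_le_rpow (by positivity) u1 hss.le
        rw [← Real.rpow_mul hV0.le, one_div_mul_cancel hss.ne', Real.rpow_one] at u2
        exact u2
      have hL0 : (0 : ℝ) < L := by linarith
      have v1 : (V : ℝ) * (L : ℝ) ^ σ' ≤ (L : ℝ) ^ σ := by
        calc (V : ℝ) * (L : ℝ) ^ σ' ≤ (L : ℝ) ^ (σ - σ') * (L : ℝ) ^ σ' := mul_le_mul_of_nonneg_right hpow (by positivity)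
          _ = (L : ℝ) ^ σ := by rw [← Real.rpow_add hL0]; congr 1; ring
      have v2 : (V : ℝ) * (L : ℝ) ^ σ' ≤ L := v1.trans (by
        calc (L : ℝ) ^ σ ≤ (L : ℝ) ^ (1 : ℝ) := Real.rpow_le_rpow_of_exponent_le hLr h1.le
          _ = L := Real.rpow_one _)
      have v3 : ({n : ℤ | M ≤ n ∧ n < M + W ∧ Spr σ L t n}.ncard : ℝ) ≤ ({n : ℤ | M ≤ n ∧ n < M + W ∧ 2 ≤ (PV σ' L t n).card}.ncard : ℝ) +
          ({n : ℤ | M ≤ n ∧ n < M + W ∧ V < Vn L t n}.ncard : ℝ) := by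
        apply nc_le
        intro n hn
        by_cases hb : V < Vn L t n
        · exact Or.inr hb
        · exact Or.inl (two_of_spr hL hn (by omega) v1 v2)
      have v4 : (V : ℝ) * ({n : ℤ | M ≤ n ∧ n < M + W ∧ V < Vn L t n}.ncard : ℝ) ≤ C₁ * W := by
        rw [nc_filter]
        have u1 : (V : ℝ) * (((Ico M (M + W)).filter fun n => V < Vn L t n).card : ℝ) ≤ ∑ n ∈ Ico M (M + W), (Vn L t n : ℝ) := by
          calc (V : ℝ) * (((Ico M (M + W)).filter fun n => V < Vn L t n).card : ℝ) =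
                ∑ n ∈ (Ico M (M + W)).filter (fun n => V < Vn L t n), (V : ℝ) := by rw [sum_const, nsmul_eq_mul, mul_comm]
            _ ≤ ∑ n ∈ (Ico M (M + W)).filter (fun n => V < Vn L t n), (Vn L t n : ℝ) := by
                apply sum_le_sum
                intro n hn
                exact_mod_cast (mem_filter.1 hn).2.le
            _ ≤ _ := sum_le_sum_of_subset_of_nonneg (filter_subset _ _) fun _ _ _ => Nat.cast_nonneg _
        have u2 : DD γ * Real.log L / √t ≤ DD γ * M₀ := by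
          rw [div_le_iff₀ hst]
          have := mul_le_mul_of_nonneg_left hlog hDD.le
          linarith
        have u3 : (1 + 2 / √Real.pi * (DD γ * Real.log L / √t)) * W ≤ (1 + 2 / √Real.pi * (DD γ * M₀)) * W := by
          apply mul_le_mul_of_nonneg_right _ hW0
          have : 2 / √Real.pi * (DD γ * Real.log L / √t) ≤ 2 / √Real.pi * (DD γ * M₀) := mul_le_mul_of_nonneg_left u2 (by positivity)
          linarith
        have u4 := b3.2
        have u5 : C₁ * W = (1 + 2 / √Real.pi * (DD γ * M₀)) * W + 1 * W := by rw [hC₁]; ring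
        have u6 := u1.trans (show ∑ n ∈ Ico M (M + W), (Vn L t n : ℝ) ≤ C₁ * W by linarith)
        exact u6
      have v5 : ({n : ℤ | M ≤ n ∧ n < M + W ∧ V < Vn L t n}.ncard : ℝ) ≤ ε / 4 * W := by
        have u1 : C₁ * W ≤ V * (ε / 4 * W) := by
          have : C₁ ≤ V * (ε / 4) := by
            rw [div_lt_iff₀ hε] at hV
            linarith
          have := mul_le_mul_of_nonneg_right this hW0
          linarith
        exact le_of_mul_le_mul_left (v4.trans u1) hV0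
      have v6 : Erf ((xx β₂ - xx β₁) * Real.log L / √t) ≤ Erf ((xx α₂ - xx α₁) * Real.log L / √t) + ε / 4 := by
        have hlt : Real.log L / √t ≤ M₀ := by rw [div_le_iff₀ hst]; exact hlog
        have hl0 : 0 ≤ Real.log L / √t := by positivity
        have u1 : (xx β₂ - xx β₁) * Real.log L / √t ≤ (xx α₂ - xx α₁) * Real.log L / √t + ε / 8 := by
          have u2 := mul_le_mul_of_nonneg_right hD hl0
          have u3 : ε / (8 * M₀) * (Real.log L / √t) ≤ ε / (8 * M₀) * M₀ := mul_le_mul_of_nonneg_left hlt (by positivity)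
          have u4 : ε / (8 * M₀) * M₀ = ε / 8 := by field_simp
          have u5 : (xx β₂ - xx β₁) * Real.log L / √t = (xx β₂ - xx β₁) * (Real.log L / √t) := by ring
          have u6 : (xx α₂ - xx α₁) * Real.log L / √t = (xx α₂ - xx α₁) * (Real.log L / √t) := by ring
          rw [u5, u6]
          linarith
        have u2 := abs_le.1 (Erf_lip' ((xx α₂ - xx α₁) * Real.log L / √t) ((xx β₂ - xx β₁) * Real.log L / √t))
        rcases le_total ((xx α₂ - xx α₁) * Real.log L / √t) ((xx β₂ - xx β₁) * Real.log L / √t) with u3 | u3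
        · rw [abs_of_nonneg (by linarith)] at u2
          linarith [u2.2]
        · have hEm : Erf ((xx β₂ - xx β₁) * Real.log L / √t) ≤ Erf ((xx α₂ - xx α₁) * Real.log L / √t) := by
            have hcont : Continuous (fun y : ℝ => Real.exp (-y ^ 2)) := by fun_prop
            have h1 : Erf ((xx α₂ - xx α₁) * Real.log L / √t) - Erf ((xx β₂ - xx β₁) * Real.log L / √t) =
                2 / √Real.pi * ∫ z in ((xx β₂ - xx β₁) * Real.log L / √t)..((xx α₂ - xx α₁) * Real.log L / √t), Real.exp (-z ^ 2) := by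
              unfold Pool.Agent.Q74.KP.Erf
              rw [← mul_sub, intervalIntegral.integral_interval_sub_left (hcont.intervalIntegrable _ _)
                (hcont.intervalIntegrable _ _)]
            have h8 : 0 ≤ ∫ z in ((xx β₂ - xx β₁) * Real.log L / √t)..((xx α₂ - xx α₁) * Real.log L / √t), Real.exp (-z ^ 2) :=
              intervalIntegral.integral_nonneg u3 fun z _ => (Real.exp_pos _).le
            have : 0 ≤ 2 / √Real.pi * ∫ z in ((xx β₂ - xx β₁) * Real.log L / √t)..((xx α₂ - xx α₁) * Real.log L / √t), Real.exp (-z ^ 2) := by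
              positivity
            linarith
          linarith
      have v7 := mul_le_mul_of_nonneg_right v6 hW0
      linarith [b2.2]
    · -- few members
      have v1 : ({n : ℤ | M ≤ n ∧ n < M + W ∧ Spr σ L t n}.ncard : ℝ) ≤ ({n : ℤ | M ≤ n ∧ n < M + W ∧ ncon L t n}.ncard : ℝ) := by
        apply nc_mono
        intro n hn
        by_contra hcc
        unfold ncon at hcc
        push Not at hcc
        have hall : (range L).filter (fun j : ℕ => T^[t] (n + j) = T^[t] (n + (0 : ℕ))) = range L := by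
          apply filter_true_of_mem
          intro j hj
          exact hcc j 0 (mem_range.1 hj) (by omega)
        have := hn (T^[t] (n + (0 : ℕ)))
        rw [hall, card_range] at this
        have hpos : (0 : ℝ) < (L : ℝ) ^ σ := by
          have : (0 : ℝ) < L := by linarith
          positivity
        linarith
      have v2 : Erf (DD γ * Real.log L / √t) ≤ ε / 4 := by
        have u1 := Erf_lip 0 (DD γ * Real.log L / √t) (by positivity)
        have u2 : Erf 0 = 0 := by unfold Pool.Agent.Q74.KP.Erf; simp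
        rw [u2, sub_zero, sub_zero] at u1
        refine u1.trans ?_
        have u3 : Real.log L ≤ Real.log (L₁ + 1) := by
          apply Real.log_le_log (by linarith)
          have : (L : ℝ) ≤ L₁ := by exact_mod_cast hLL.le
          linarith
        have u4 : 8 * DD γ * Real.log (L₁ + 1) / ε ≤ √(t : ℝ) := by
          apply Real.le_sqrt_of_sq_le
          have : (t₅ : ℝ) ≤ t := by
            have : t₅ ≤ t := by omega
            exact_mod_cast this
          linarith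
        rw [div_le_iff₀ hε] at u4
        rw [← mul_div_assoc, div_le_iff₀ hst]
        have u5 : DD γ * Real.log L ≤ DD γ * Real.log (L₁ + 1) := mul_le_mul_of_nonneg_left u3 hDD.le
        linarith
      have v3 := mul_le_mul_of_nonneg_right v2 hW0
      have v4 := b4.2
      have v5 := mul_nonneg hE0 hW0
      have v6 : 0 ≤ ε * W := by positivity
      linarith
  rw [abs_le]
  constructor
  · have : 0 ≤ ε * W := by positivity
    linarith [b1.1]
  · linarith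

end Pool.Agent.Q74.BT
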