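import Pool.Agent.Q74.BT.FinM3
import Pool.Agent.Q195.BT.ErfL

/-! # Project BT: the multiplicities, functions constant along trajectories -/

set_option autoImplicit false

namespace Pool.Agent.Q74.BT

open Finset
open Pool.Agent.Q158.Pair (T)
open Pool.Agent.Q74.KP (EE Pe Erf)
open Pool.Agent.Q74.AR (oc oc_per)
open Pool.Agent.Q74.BL (nx T_add)
open Pool.Agent.H395R2.G3 (rr FF rate)

/-- the time which fits to a window -/
theorem choose_t {ε : ℝ} (hε : 0 < ε) (t₀ K : ℕ) : ∃ W₀ : ℕ, ∀ W : ℕ, W₀ ≤ W → ∃ t : ℕ, t₀ ≤ t ∧ 1 ≤ t ∧ K * 2 ^ t ≤ W ∧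
    (t : ℝ) ≤ Real.logb 2 W ∧ Real.logb 2 W ≤ 4 * t ∧ ∀ z : ℝ, 0 ≤ z → Erf (z / √t) ≤ Erf (z / √(Real.logb 2 W)) + ε := by
  obtain ⟨T₀, hT₀⟩ := exists_nat_ge ((Real.logb 2 (K + 1) + 1) * (1 / ε + 1) + 1)
  refine ⟨(K + 1) * 2 ^ (t₀ + T₀ + 1), fun W hW => ?_⟩
  set t := Nat.log 2 (W / (K + 1)) with ht
  have hK1 : 0 < K + 1 := by omega
  have hq : 2 ^ (t₀ + T₀ + 1) ≤ W / (K + 1) := by
    rw [Nat.le_div_iff_mul_le hK1]
    linarith
  have hq0 : W / (K + 1) ≠ 0 := by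
    have : 0 < 2 ^ (t₀ + T₀ + 1) := by positivity
    omega
  have ht1 : t₀ + T₀ + 1 ≤ t := (Nat.le_log_iff_pow_le (by norm_num) hq0).2 hq
  have hpow : 2 ^ t ≤ W / (K + 1) := Nat.pow_log_le_self 2 hq0
  have hKt : (K + 1) * 2 ^ t ≤ W := by
    have := (Nat.le_div_iff_mul_le hK1).1 hpow
    linarith
  have hKt' : K * 2 ^ t ≤ W := le_trans (Nat.mul_le_mul_right _ (by omega)) hKt
  have hlt : W < (K + 1) * 2 ^ (t + 1) := by
    have h3 : W / (K + 1) < 2 ^ (t + 1) := Nat.lt_pow_succ_log_self (by norm_num) _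
    rw [Nat.div_lt_iff_lt_mul hK1] at h3
    linarith
  have ht0 : (0 : ℝ) < t := by
    have : 0 < t := by omega
    exact_mod_cast this
  set T' := Real.logb 2 W with hT'
  have hWpos : (0 : ℝ) < W := by
    have : 0 < (K + 1) * 2 ^ t := by positivity
    have : 0 < W := by omega
    exact_mod_cast this
  have hTt : (t : ℝ) ≤ T' := by
    rw [hT', Real.le_logb_iff_rpow_le (by norm_num) hWpos, Real.rpow_natCast]
    have : 2 ^ t ≤ W := le_trans (Nat.le_mul_of_pos_left _ hK1) hKt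
    exact_mod_cast this
  have hTt' : T' ≤ t + (Real.logb 2 (K + 1) + 1) := by
    have h5 : (W : ℝ) ≤ (K + 1) * 2 ^ (t + 1) := by exact_mod_cast hlt.le
    have h6 : T' ≤ Real.logb 2 ((K + 1) * 2 ^ (t + 1)) :=
      Real.logb_le_logb_of_le (by norm_num) hWpos h5
    rw [Real.logb_mul (by positivity) (by positivity), ← Real.rpow_natCast,
      Real.logb_rpow (by norm_num) (by norm_num)] at h6
    push_cast at h6
    linarith
  have hA : 0 ≤ Real.logb 2 ((K : ℝ) + 1) + 1 := by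
    have : 0 ≤ Real.logb 2 ((K : ℝ) + 1) := Real.logb_nonneg (by norm_num) (by
      have : (0 : ℝ) ≤ K := Nat.cast_nonneg K
      linarith)
    linarith
  have hTT : (T₀ : ℝ) ≤ t := by
    have : T₀ ≤ t := by omega
    exact_mod_cast this
  have hA1 : Real.logb 2 ((K : ℝ) + 1) + 1 ≤ t := by
    have : 0 ≤ (Real.logb 2 ((K : ℝ) + 1) + 1) * (1 / ε) := by positivity
    linarith
  have hA2 : Real.logb 2 ((K : ℝ) + 1) + 1 ≤ ε * t := by
    have h1 : (Real.logb 2 ((K : ℝ) + 1) + 1) * (1 / ε) ≤ t := by linarith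
    rw [mul_one_div, div_le_iff₀ hε] at h1
    linarith
  have hT0 : 0 < T' := by linarith
  have hsT : 0 < √T' := Real.sqrt_pos.2 hT0
  have hst : 0 < √(t : ℝ) := Real.sqrt_pos.2 ht0
  refine ⟨t, by omega, by omega, hKt', hTt, by linarith, fun z hz => ?_⟩
  set x := z / √T' with hx
  have hx0 : 0 ≤ x := by positivity
  set c := √T' / √(t : ℝ) with hc
  have hc1 : 1 ≤ c := by
    rw [hc, one_le_div hst]
    exact Real.sqrt_le_sqrt hTt
  have hcx : c * x = z / √(t : ℝ) := by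
    rw [hc, hx]
    field_simp
  have hc2 : c - 1 ≤ ε := by
    have h7 : c ^ 2 = T' / t := by
      rw [hc, div_pow, Real.sq_sqrt hT0.le, Real.sq_sqrt ht0.le]
    have h8 : T' / t ≤ 1 + ε := by
      rw [div_le_iff₀ ht0]
      linarith
    nlinarith
  have h14 := Erf_scale hx0 hc1
  rw [hcx] at h14
  linarith

/-- functions which are constant along trajectories -/
theorem invP {σ D ε : ℝ} (hs : ∀ M₀ ε : ℝ, 0 < M₀ → 0 < ε → ∃ t₀ K : ℕ, ∀ t : ℕ, t₀ ≤ t → ∀ L : ℕ, 1 ≤ L → Real.log L ≤ M₀ * √t → ∀ (M : ℤ) (W : ℕ),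
      K * 2 ^ t ≤ W → |({n : ℤ | M ≤ n ∧ n < M + W ∧ Spr σ L t n}.ncard : ℝ) - Erf (D * Real.log L / √t) * W| ≤ ε * W)
    (hD : 0 < D) (hε : 0 < ε) :
    ∃ W₀ : ℕ, ∀ W : ℕ, W₀ ≤ W → ∀ (L : ℕ) (M : ℤ), 1 ≤ L → ∀ F : ℤ → ℤ, (∀ x, F (T x) = F x) →
      ({n : ℤ | M ≤ n ∧ n < M + W ∧ ∀ y : ℤ, (((range L).filter (fun j : ℕ => F (n + j) = y)).card : ℝ) + (L : ℝ) ^ σ ≤ L}.ncard : ℝ) ≤
        (Erf (D * Real.log L / √(Real.logb 2 W)) + ε) * W := by
  classical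
  obtain ⟨R, hR⟩ := Filter.eventually_atTop.1 (Pool.Agent.Q195.BT.Erf_tendsto.eventually_const_le (show 1 - ε < 1 by linarith))
  set M₀ := 2 * (max R 1) / D with hM₀
  have hRm : (0 : ℝ) < max R 1 := lt_of_lt_of_le one_pos (le_max_right _ _)
  have hM0 : 0 < M₀ := by positivity
  obtain ⟨t₀, K, h⟩ := hs M₀ (ε / 2) hM0 (by positivity)
  obtain ⟨W₀, hW₀⟩ := choose_t (show 0 < ε / 2 by positivity) t₀ K
  refine ⟨W₀ + 1, fun W hW L M hL F hF => ?_⟩
  obtain ⟨t, q1, q2, q3, q4, q5, q6⟩ := hW₀ W (by omega)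
  have hW0 : (0 : ℝ) ≤ W := Nat.cast_nonneg W
  have hL1 : (1 : ℝ) ≤ L := by exact_mod_cast hL
  have hlog : 0 ≤ Real.log L := Real.log_nonneg hL1
  have ht0 : (0 : ℝ) < t := by exact_mod_cast q2
  have hst : 0 < √(t : ℝ) := Real.sqrt_pos.2 ht0
  have hb0 : 0 < Real.logb 2 W := by linarith
  rcases le_or_gt (Real.log L) (M₀ * √t) with hll | hll
  · have hlaw := (abs_le.1 (h t q1 L hL hll M W q3)).2
    have hsub : ({n : ℤ | M ≤ n ∧ n < M + W ∧ ∀ y : ℤ, (((range L).filter (fun j : ℕ => F (n + j) = y)).card : ℝ) + (L : ℝ) ^ σ ≤ L}.ncard : ℝ) ≤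
        ({n : ℤ | M ≤ n ∧ n < M + W ∧ Spr σ L t n}.ncard : ℝ) := by
      apply nc_mono
      intro n hn y
      have h1 := hn (F y)
      have h2 : ((range L).filter (fun j : ℕ => T^[t] (n + j) = y)).card ≤ ((range L).filter (fun j : ℕ => F (n + j) = F y)).card := by
        apply card_le_card
        intro j hj
        rw [mem_filter] at hj ⊢
        exact ⟨hj.1, by rw [← F_iter hF t (n + j), hj.2]⟩
      have h3 : (((range L).filter (fun j : ℕ => T^[t] (n + j) = y)).card : ℝ) ≤ ((range L).filter (fun j : ℕ => F (n + j) = F y)).card := by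
        exact_mod_cast h2
      linarith
    have h4 := q6 (D * Real.log L) (by positivity)
    have h5 := mul_le_mul_of_nonneg_right h4 hW0
    linarith
  · have h1 : ({n : ℤ | M ≤ n ∧ n < M + W ∧ ∀ y : ℤ, (((range L).filter (fun j : ℕ => F (n + j) = y)).card : ℝ) + (L : ℝ) ^ σ ≤ L}.ncard : ℝ) ≤ W := by
      rw [nc_filter]
      have h2 := card_filter_le (Ico M (M + W)) (fun n => ∀ y : ℤ, (((range L).filter (fun j : ℕ => F (n + j) = y)).card : ℝ) + (L : ℝ) ^ σ ≤ L)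
      rw [Int.card_Ico, show (M + W - M).toNat = W by omega] at h2
      exact_mod_cast h2
    have h2 : 1 - ε ≤ Erf (D * Real.log L / √(Real.logb 2 W)) := by
      apply hR
      rw [le_div_iff₀ (Real.sqrt_pos.2 hb0)]
      have h3 : √(Real.logb 2 W) ≤ 2 * √t := by
        rw [Real.sqrt_le_left (by positivity), mul_pow, Real.sq_sqrt ht0.le]
        linarith
      have h4 : D * (M₀ * √t) ≤ D * Real.log L := mul_le_mul_of_nonneg_left hll.le hD.le
      have h5 : D * (M₀ * √t) = max R 1 * (2 * √t) := by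
        rw [hM₀]
        field_simp
      calc R * √(Real.logb 2 W) ≤ max R 1 * √(Real.logb 2 W) := mul_le_mul_of_nonneg_right (le_max_left _ _) (Real.sqrt_nonneg _)
        _ ≤ max R 1 * (2 * √t) := mul_le_mul_of_nonneg_left h3 hRm.le
        _ ≤ _ := by rw [← h5]; exact h4
    have h3 := mul_le_mul_of_nonneg_right (show (1 : ℝ) ≤ Erf (D * Real.log L / √(Real.logb 2 W)) + ε by linarith) hW0
    linarith

/-- the exponents come together as `σ → 1` -/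
theorem alpha_close (h : S_Mono) {γ : ℝ} (hG : IsG γ) {η : ℝ} (hη : 0 < η) :
    ∃ σ₀ : ℝ, σ₀ < 1 ∧ ∀ σ : ℝ, σ₀ < σ → ∀ α₁ α₂ : ℝ, Rg γ α₁ α₂ → th α₁ = σ → th α₂ = σ → α₂ - α₁ < η := by
  obtain ⟨a1, a2, a3, a4, a5, a6, a7, a8, -⟩ := h γ hG
  set c := 2 / Real.log (4 / 3) with hc
  set b := 1 / Real.log 2 with hb
  obtain ⟨b1, hb1, hb1'⟩ := exists_between (max_lt a1 (show c - η / 2 < c by linarith))
  obtain ⟨b2, hb2, hb2'⟩ := exists_between (lt_min a2 (show c < c + η / 2 by linarith))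
  have hb11 := (max_lt_iff.1 hb1).1
  have hb12 := (max_lt_iff.1 hb1).2
  have hb21 := (lt_min_iff.1 hb2').1
  have hb22 := (lt_min_iff.1 hb2').2
  have t1 : th b1 < 1 := by rw [← a7]; exact a3 ⟨hb11.le, hb1'.le⟩ ⟨a1.le, le_rfl⟩ hb1'
  have t2 : th b2 < 1 := by rw [← a7]; exact a4 ⟨le_rfl, a2.le⟩ ⟨hb2.le, hb21.le⟩ hb2
  refine ⟨max (th b1) (th b2), max_lt t1 t2, fun σ hσ α₁ α₂ hR e1 e2 => ?_⟩
  obtain ⟨r1, r2, r3, r4⟩ := hR
  have g1 : b1 < α₁ := by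
    by_contra hcc
    push Not at hcc
    have h1 : th α₁ ≤ th b1 := a3.monotoneOn ⟨r1.le, r2.le⟩ ⟨hb11.le, hb1'.le⟩ hcc
    have h2 := (le_max_left (th b1) (th b2)).trans_lt hσ
    linarith
  have g2 : α₂ < b2 := by
    by_contra hcc
    push Not at hcc
    have h1 : th α₂ ≤ th b2 := a4.antitoneOn ⟨hb2.le, hb21.le⟩ ⟨r3.le, r4.le⟩ hcc
    have h2 := (le_max_right (th b1) (th b2)).trans_lt hσ
    linarith
  linarith

end Pool.Agent.Q74.BT
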