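import Pool.Agent.Q74.BT.Gam
import Pool.Agent.Q211.BT.LDlow
import Pool.Agent.Q211.BT.LDup
import Pool.Agent.Q209.BT.Low
import Pool.Agent.Q176.BT.BM

/-!
# Project BT: large deviations of the descent times in all short intervals
-/

set_option autoImplicit false

namespace Pool.Agent.Q74.BT

open Finset
open Pool.Agent.Q158.Pair (T)
open Pool.Agent.Q74.AR (oc bE)
open Pool.Agent.Q74.KP (EE oc_add)
open Pool.Agent.Q74.BL (sum_per_le)
open Pool.Agent.H395R2.G3 (rr FF rate rr_spec rr_pos rr_lt_one FF_pos_of)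
open Pool.Agent.Q211.BT (chains)

theorem low3 (h : S_BM) {γ : ℝ} (hγ : IsG γ) {α : ℝ} (hα1 : 1 / Real.log 2 < α) (hα2 : α < γ) {ε : ℝ}
    (hε : 0 < ε) : ∃ C : ℝ, 1 ≤ C ∧ ∀ X : ℝ, C ≤ X → ∀ H : ℕ, C * X ≤ H → ∀ m : ℤ, ∃ S : Finset ℤ,
      (H : ℝ) * X ^ (α * FF (rr α) - 1 - ε) ≤ S.card ∧ ∀ x ∈ S, m ≤ x ∧ x < m + H ∧
        (∀ k : ℕ, (k : ℝ) ≤ (α - ε) * Real.log X → (2 : ℝ) ^ k < 3 ^ oc k x * X) ∧
        ∃ k : ℕ, (k : ℝ) ≤ (α + ε) * Real.log X ∧ (3 : ℝ) ^ oc k x * (2 * X) ≤ 2 ^ k := by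
  classical
  have hl2 : 0 < Real.log 2 := Real.log_pos (by norm_num)
  have hl2' : Real.log 2 < 1 := by
    have := Real.log_two_lt_d9
    linarith
  have hl3 : 0 < Real.log 3 := Real.log_pos (by norm_num)
  have hl3' : Real.log 3 < 3 / 2 := by
    have := Real.log_three_lt_d9
    linarith
  have hα0 : 0 < α := lt_trans (by positivity) hα1
  have hF : 0 < FF (rr α) := hγ.2.2.2 α hα1 hα2
  have hr0 := rr_pos hα1
  have hr1 := rr_lt_one hα0
  have hspec := rr_spec α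
  set r : ℝ := rr α with hr
  set F : ℝ := FF r with hFdef
  have hF1 : F ≤ 1 := by
    rw [hFdef]
    unfold FF
    have h1 := Real.binEntropy_le_log_two (p := r)
    have h2 : 0 ≤ r * Real.log 3 := by positivity
    linarith
  obtain ⟨δ', hδ'0, hδ'1, hδ'2, hδ'3, hδ'4, hδ'5⟩ : ∃ δ' : ℝ, 0 < δ' ∧ 4 * δ' ≤ F ∧
      3 * α * δ' ≤ 1 / 2 ∧ 6 * α ^ 2 * δ' ≤ ε / 2 ∧ 4 * α * δ' ≤ ε / 4 ∧ δ' ≤ 1 / 2 := by
    refine ⟨min (min (F / 8) (1 / (6 * α))) (min (ε / (12 * α ^ 2)) (min (ε / (16 * α)) (1 / 2))),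
      by positivity, ?_, ?_, ?_, ?_, ?_⟩
    · have : min (min (F / 8) (1 / (6 * α))) (min (ε / (12 * α ^ 2)) (min (ε / (16 * α)) (1 / 2)))
          ≤ F / 8 := (min_le_left _ _).trans (min_le_left _ _)
      linarith
    · have : min (min (F / 8) (1 / (6 * α))) (min (ε / (12 * α ^ 2)) (min (ε / (16 * α)) (1 / 2)))
          ≤ 1 / (6 * α) := (min_le_left _ _).trans (min_le_right _ _)
      calc _ ≤ 3 * α * (1 / (6 * α)) := mul_le_mul_of_nonneg_left this (by positivity)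
        _ = 1 / 2 := by field_simp; norm_num
    · have : min (min (F / 8) (1 / (6 * α))) (min (ε / (12 * α ^ 2)) (min (ε / (16 * α)) (1 / 2)))
          ≤ ε / (12 * α ^ 2) := (min_le_right _ _).trans (min_le_left _ _)
      calc _ ≤ 6 * α ^ 2 * (ε / (12 * α ^ 2)) := mul_le_mul_of_nonneg_left this (by positivity)
        _ = ε / 2 := by field_simp; norm_num
    · have : min (min (F / 8) (1 / (6 * α))) (min (ε / (12 * α ^ 2)) (min (ε / (16 * α)) (1 / 2)))
          ≤ ε / (16 * α) := (min_le_right _ _).trans ((min_le_right _ _).trans (min_le_left _ _))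
      calc _ ≤ 4 * α * (ε / (16 * α)) := mul_le_mul_of_nonneg_left this (by positivity)
        _ = ε / 4 := by field_simp; norm_num
    · exact (min_le_right _ _).trans ((min_le_right _ _).trans (min_le_right _ _))
  obtain ⟨n, s, N, hn, hsn, hN, hX⟩ := h r δ' hr0 hr1 hF hδ'0
  have hn0 : (1 : ℝ) ≤ n := by exact_mod_cast hn
  -- the sizes
  obtain ⟨e, he⟩ : ∃ e : ℝ, e = n / r - s := ⟨_, rfl⟩
  have he1 : |e| ≤ δ' * n := by
    rw [he, abs_sub_comm]
    exact hsn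
  have he2 := abs_le.1 he1
  have hnr : (n : ℝ) = r * (s + e) := by
    rw [he]
    field_simp
    ring
  have hnr2 : (n : ℝ) ≤ n / r := by
    rw [le_div_iff₀ hr0]
    nlinarith
  have hn2s : (n : ℝ) ≤ 2 * s := by
    have h1 : δ' * n ≤ 1 / 2 * n := mul_le_mul_of_nonneg_right hδ'5 (by linarith)
    have h2 : (n : ℝ) / r ≤ s + δ' * n := by linarith [he2.2]
    linarith
  have hs0 : (0 : ℝ) < s := by linarith
  have hs1 : 1 ≤ s := by
    have : 0 < s := by exact_mod_cast hs0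
    omega
  have he3 : |e| ≤ 2 * δ' * s := by
    refine he1.trans ?_
    nlinarith
  set D : ℝ := s * Real.log 2 - n * Real.log 3 with hD
  have hDe : D = s / α - r * e * Real.log 3 := by
    have h1 : (s : ℝ) / α = s * (Real.log 2 - r * Real.log 3) := by
      rw [← hspec]
      ring
    rw [hD, h1, hnr]
    ring
  have hDerr : |r * e * Real.log 3| ≤ 3 * δ' * s := by
    rw [abs_mul, abs_mul, abs_of_pos hr0, abs_of_pos hl3]
    have h1 : r * |e| ≤ 1 * (2 * δ' * s) :=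
      mul_le_mul hr1.le he3 (abs_nonneg _) (by norm_num)
    calc r * |e| * Real.log 3 ≤ 1 * (2 * δ' * s) * (3 / 2) :=
          mul_le_mul h1 hl3'.le hl3.le (by positivity)
      _ = 3 * δ' * s := by ring
  have hDe2 := abs_le.1 hDerr
  -- with t = 3 α δ'
  set t : ℝ := 3 * α * δ' with ht
  have ht0 : 0 ≤ t := by positivity
  have hst : 3 * δ' * s = s / α * t := by
    rw [ht]
    field_simp
  have hDlow : s / α * (1 - t) ≤ D := by
    rw [hDe]
    have := hDe2.2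
    rw [hst] at this
    linarith
  have hDup : D ≤ s / α * (1 + t) := by
    rw [hDe]
    have := hDe2.1
    rw [hst] at this
    linarith
  have hsα : 0 < s / α := by positivity
  have hD0 : 0 < D := by
    refine lt_of_lt_of_le ?_ hDlow
    have : 0 < 1 - t := by linarith
    positivity
  obtain ⟨q, hq⟩ : ∃ q : ℝ, q = s / D := ⟨_, rfl⟩
  have hq0 : 0 < q := by
    rw [hq]
    positivity
  have hq1 : α * (1 - t) ≤ q := by
    rw [hq, le_div_iff₀ hD0]
    have h1 : α * (1 - t) * D ≤ α * (1 - t) * (s / α * (1 + t)) :=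
      mul_le_mul_of_nonneg_left hDup (mul_nonneg hα0.le (by linarith))
    have h2 : α * (1 - t) * (s / α * (1 + t)) = s * (1 - t ^ 2) := by
      field_simp
      ring
    rw [h2] at h1
    nlinarith [sq_nonneg t]
  have hq2 : q ≤ α * (1 + 2 * t) := by
    rw [hq, div_le_iff₀ hD0]
    have h1 : α * (1 + 2 * t) * (s / α * (1 - t)) ≤ α * (1 + 2 * t) * D :=
      mul_le_mul_of_nonneg_left hDlow (by positivity)
    have h2 : α * (1 + 2 * t) * (s / α * (1 - t)) = s * (1 + t * (1 - 2 * t)) := by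
      field_simp
      ring
    rw [h2] at h1
    have h3 : 0 ≤ t * (1 - 2 * t) := mul_nonneg ht0 (by linarith)
    nlinarith
  have hqD : q * D = s := by
    rw [hq]
    field_simp
  -- the number of words
  have hNn : s * (F - 4 * δ') ≤ (F / r - δ') * n := by
    have h1 : (F / r - δ') * n = F * (n / r) - δ' * n := by ring
    have h2 : (n : ℝ) / r = s + e := by rw [he]; ring
    rw [h1, h2]
    have h3 : F * (s + e) ≥ F * (s - δ' * n) := mul_le_mul_of_nonneg_left (by linarith [he2.1]) hF.le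
    have h4 : F * (δ' * n) ≤ 1 * (δ' * n) := mul_le_mul_of_nonneg_right hF1 (by positivity)
    nlinarith
  set ρ : ℝ := 2 ^ s / 3 ^ n with hρ
  have hρD : ρ = Real.exp D := by
    rw [hρ, hD, Real.exp_sub, mul_comm, Real.exp_mul, Real.exp_log (by norm_num), mul_comm,
      Real.exp_mul, Real.exp_log (by norm_num), Real.rpow_natCast, Real.rpow_natCast]
  have hρ1 : 1 < ρ := by
    rw [hρD]
    exact Real.one_lt_exp_iff.2 hD0
  set C₁ : ℝ := 2 ^ s / (ρ - 1) with hC₁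
  have hC₁0 : 0 < C₁ := by
    have : 0 < ρ - 1 := by linarith
    positivity
  have hC₁1 : C₁ * (ρ - 1) = 2 ^ s := by
    rw [hC₁, div_mul_cancel₀]
    linarith
  have hchain := chains hρ hC₁1 hX
  -- the constant
  obtain ⟨ℓ₀, hℓ₀⟩ : ∃ ℓ₀ : ℝ, ℓ₀ = max (2 * (q + s) / ε) (max (2 * (q * s * Real.log 2) / ε)
    (max (2 * (Real.log (12 * ρ)) / ε) 0)) := ⟨_, rfl⟩
  have hℓ₀0 : 0 ≤ ℓ₀ := by
    rw [hℓ₀]
    exact (le_max_right _ _).trans ((le_max_right _ _).trans (le_max_right _ _))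
  refine ⟨Real.exp ℓ₀ + (4 * C₁ + 6) * (2 * ρ), ?_, fun X hX H hH m => ?_⟩
  · have h1 := Real.one_le_exp hℓ₀0
    have h2 : 0 ≤ (4 * C₁ + 6) * (2 * ρ) := by positivity
    linarith
  have hX1 : Real.exp ℓ₀ ≤ X := by
    have h2 : 0 ≤ (4 * C₁ + 6) * (2 * ρ) := by positivity
    linarith
  have hX0 : 0 < X := lt_of_lt_of_le (Real.exp_pos _) hX1
  obtain ⟨l, hl⟩ : ∃ l : ℝ, l = Real.log X := ⟨_, rfl⟩
  have hℓ : ℓ₀ ≤ l := by
    rw [hl, Real.le_log_iff_exp_le hX0]
    exact hX1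
  have hl0 : 0 ≤ l := hℓ₀0.trans hℓ
  have hc2 : q + s ≤ ε / 2 * l := by
    have h1 : 2 * (q + s) / ε ≤ l := by
      rw [hℓ₀] at hℓ
      exact (le_max_left _ _).trans hℓ
    rw [div_le_iff₀ hε] at h1
    linarith
  have hc3 : q * s * Real.log 2 ≤ ε / 2 * l := by
    have h1 : 2 * (q * s * Real.log 2) / ε ≤ l := by
      rw [hℓ₀] at hℓ
      exact ((le_max_left _ _).trans (le_max_right _ _)).trans hℓ
    rw [div_le_iff₀ hε] at h1
    linarith
  have hc4 : Real.log (12 * ρ) ≤ ε / 2 * l := by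
    have h1 : 2 * Real.log (12 * ρ) / ε ≤ l := by
      rw [hℓ₀] at hℓ
      exact (((le_max_left _ _).trans (le_max_right _ _)).trans (le_max_right _ _)).trans hℓ
    rw [div_le_iff₀ hε] at h1
    linarith
  have hXexp : X = Real.exp l := by rw [hl, Real.exp_log hX0]
  -- the number of blocks
  obtain ⟨K, hK⟩ : ∃ K : ℕ, K = ⌈(Real.log 2 + l) / D⌉₊ := ⟨_, rfl⟩
  have hpos : 0 ≤ (Real.log 2 + l) / D := by positivity
  have hK1 : (Real.log 2 + l) / D ≤ K := by
    rw [hK]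
    exact Nat.le_ceil _
  have hK2 : (K : ℝ) < (Real.log 2 + l) / D + 1 := by
    rw [hK]
    exact Nat.ceil_lt_add_one hpos
  have hK3 : Real.log 2 + l ≤ K * D := by
    rwa [div_le_iff₀ hD0] at hK1
  have hK4 : K * D ≤ Real.log 2 + l + D := by
    have h1 : (K : ℝ) * D ≤ ((Real.log 2 + l) / D + 1) * D :=
      mul_le_mul_of_nonneg_right hK2.le hD0.le
    have h2 : ((Real.log 2 + l) / D + 1) * D = Real.log 2 + l + D := by field_simp
    linarith
  have hρK : ρ ^ K = Real.exp (K * D) := by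
    rw [hρD, ← Real.exp_nat_mul]
  have hρK0 : 0 < ρ ^ K := by positivity
  have h2X : Real.exp (Real.log 2 + l) = 2 * X := by
    rw [Real.exp_add, Real.exp_log (by norm_num), ← hXexp]
  have hρK2 : 2 * X ≤ ρ ^ K := by
    rw [← h2X, hρK]
    exact Real.exp_le_exp.2 hK3
  have hρK3 : ρ ^ K ≤ 2 * X * ρ := by
    rw [← h2X, hρK, hρD, ← Real.exp_add]
    exact Real.exp_le_exp.2 hK4
  have hpow : ρ ^ K = 2 ^ (K * s) / 3 ^ (K * n) := by
    rw [hρ, div_pow, ← pow_mul, ← pow_mul, mul_comm s K, mul_comm n K]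
  -- the endpoints
  have hH2 : (4 * C₁ + 6) * ρ ^ K ≤ H := by
    calc (4 * C₁ + 6) * ρ ^ K ≤ (4 * C₁ + 6) * (2 * X * ρ) :=
          mul_le_mul_of_nonneg_left hρK3 (by positivity)
      _ = (4 * C₁ + 6) * (2 * ρ) * X := by ring
      _ ≤ (Real.exp ℓ₀ + (4 * C₁ + 6) * (2 * ρ)) * X :=
          mul_le_mul_of_nonneg_right (by linarith [Real.exp_pos ℓ₀]) hX0.le
      _ ≤ H := hH
  set Z : Finset ℤ := Ico ⌈((m : ℝ) / ρ ^ K + C₁ - 1) / 3⌉ ⌈(((m : ℝ) + H) / ρ ^ K - C₁ - 1) / 3⌉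
    with hZ
  have hZc : (H : ℝ) / (6 * ρ ^ K) ≤ Z.card := by
    have h1 := _root_.Q209.BT.count_z ((m : ℝ) / ρ ^ K + C₁) (((m : ℝ) + H) / ρ ^ K - C₁)
    refine le_trans ?_ h1
    have h2 : (4 * C₁ + 6) ≤ H / ρ ^ K := by
      rw [le_div_iff₀ hρK0]
      exact hH2
    have h3 : (H : ℝ) / (6 * ρ ^ K) = H / ρ ^ K / 6 := by
      field_simp
    have h4 : ((m : ℝ) + H) / ρ ^ K = m / ρ ^ K + H / ρ ^ K := by ring
    rw [h3, h4]
    linarith
  have hch : ∀ z : ℤ, ∃ A : Finset ℤ, A.card = N ^ K ∧ ∀ x ∈ A, T^[K * s] x = 3 * z + 1 ∧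
      (∀ i ≤ K, oc (i * s) x = i * n) ∧ |(x : ℝ) - ρ ^ K * ((3 * z + 1 : ℤ) : ℝ)| ≤ C₁ * (ρ ^ K - 1) := by
    intro z
    obtain ⟨A, hA, hA2⟩ := hchain K (3 * z + 1) (_root_.Q209.BT.nd z)
    exact ⟨A, hA, fun x hx => (hA2 x hx).2⟩
  choose A hA hA2 using hch
  refine ⟨Z.biUnion A, ?_, fun x hx => ?_⟩
  · have hcard : (Z.biUnion A).card = Z.card * N ^ K := by
      rw [Finset.card_biUnion]
      · rw [Finset.sum_congr rfl fun z _ => hA z, Finset.sum_const, smul_eq_mul]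
      · intro a ha b hb hab
        show Disjoint (A a) (A b)
        rw [Finset.disjoint_left]
        intro x hxa hxb
        apply hab
        have h1 := (hA2 a x hxa).1
        have h2 := (hA2 b x hxb).1
        rw [h1] at h2
        omega
    rw [hcard]
    push_cast
    have h1 : Real.exp (K * ((F / r - δ') * n)) ≤ (N : ℝ) ^ K := by
      rw [Real.exp_nat_mul]
      exact pow_le_pow_left₀ (Real.exp_pos _).le hN K
    have hF4 : 0 ≤ F - 4 * δ' := by linarith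
    have h2 : (K : ℝ) * (s * (F - 4 * δ')) ≤ K * ((F / r - δ') * n) :=
      mul_le_mul_of_nonneg_left hNn (Nat.cast_nonneg _)
    have h3 : l * q ≤ K * s := by
      rw [← hqD]
      have : l ≤ K * D := by linarith
      calc l * q ≤ K * D * q := mul_le_mul_of_nonneg_right this hq0.le
        _ = K * (q * D) := by ring
    have h4 : l * (α * (1 - t)) ≤ K * s :=
      (mul_le_mul_of_nonneg_left hq1 hl0).trans h3
    have h5 : l * (α * (1 - t)) * (F - 4 * δ') ≤ K * s * (F - 4 * δ') :=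
      mul_le_mul_of_nonneg_right h4 hF4
    have h6 : l * (α * F - ε / 2) ≤ l * (α * (1 - t)) * (F - 4 * δ') := by
      have e1 : (1 - t) * (F - 4 * δ') ≥ F - 4 * δ' - t := by
        have e4 : t * (F - 4 * δ') ≤ t * 1 :=
          mul_le_mul_of_nonneg_left (by linarith) (by linarith)
        linarith
      have e5 : l * (α * (1 - t)) * (F - 4 * δ') = l * (α * ((1 - t) * (F - 4 * δ'))) := by ring
      rw [e5]
      apply mul_le_mul_of_nonneg_left _ hl0
      have e6 : α * (F - 4 * δ' - t) ≤ α * ((1 - t) * (F - 4 * δ')) :=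
        mul_le_mul_of_nonneg_left e1 hα0.le
      have e7 : α * t ≤ ε / 4 := by
        have h9 : α * t = 3 * α ^ 2 * δ' := by
          rw [ht]
          ring
        linarith
      linarith
    have h7 : Real.exp (l * (α * F - ε / 2)) ≤ (N : ℝ) ^ K := by
      refine le_trans (Real.exp_le_exp.2 ?_) h1
      linarith
    have h8 : (H : ℝ) / (2 * X * ρ * 6) ≤ Z.card := by
      refine le_trans ?_ hZc
      apply div_le_div_of_nonneg_left (Nat.cast_nonneg _) (by positivity)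
      linarith
    refine le_trans ?_ (mul_le_mul h8 h7 (Real.exp_pos _).le (Nat.cast_nonneg _))
    have h9 : (H : ℝ) / (2 * X * ρ * 6) * Real.exp (l * (α * F - ε / 2)) =
        H * Real.exp (l * (α * F - ε / 2) - l - Real.log (12 * ρ)) := by
      rw [Real.exp_sub, Real.exp_sub, Real.exp_log (by positivity), ← hXexp]
      field_simp
      ring
    rw [h9]
    apply mul_le_mul_of_nonneg_left _ (Nat.cast_nonneg _)
    rw [Real.rpow_def_of_pos hX0, ← hl]
    apply Real.exp_le_exp.2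
    linarith
  · rw [Finset.mem_biUnion] at hx
    obtain ⟨z, hz, hx⟩ := hx
    obtain ⟨hx1, hoc, hx3⟩ := hA2 z x hx
    have hz2 := _root_.Q209.BT.mem_z hz
    have hmem : m ≤ x ∧ x < m + H := by
      have h1 := abs_le.1 hx3
      have h2 : (m : ℝ) + C₁ * ρ ^ K ≤ ρ ^ K * ((3 * z + 1 : ℤ) : ℝ) := by
        have := mul_le_mul_of_nonneg_right hz2.1 hρK0.le
        rw [add_mul, div_mul_cancel₀ _ hρK0.ne'] at this
        linarith
      have h3 : ρ ^ K * ((3 * z + 1 : ℤ) : ℝ) < m + H - C₁ * ρ ^ K := by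
        have := mul_lt_mul_of_pos_right hz2.2 hρK0
        rw [sub_mul, div_mul_cancel₀ _ hρK0.ne'] at this
        linarith
      constructor
      · have h4 : (m : ℝ) ≤ x := by linarith [h1.1]
        exact_mod_cast h4
      · have h4 : (x : ℝ) < m + H := by linarith [h1.2]
        exact_mod_cast h4
    have hKs : (K : ℝ) * s ≤ (α + ε) * l := by
      have h1 : (K : ℝ) * s ≤ ((Real.log 2 + l) / D + 1) * s :=
        mul_le_mul_of_nonneg_right hK2.le hs0.le
      have h2 : ((Real.log 2 + l) / D + 1) * s = q * Real.log 2 + l * q + s := by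
        rw [hq]
        ring
      have h3 : q * Real.log 2 ≤ q * 1 := mul_le_mul_of_nonneg_left hl2'.le hq0.le
      have h4 : l * q ≤ l * (α * (1 + 2 * t)) := mul_le_mul_of_nonneg_left hq2 hl0
      have h5 : l * (α * (1 + 2 * t)) = α * l + 6 * α ^ 2 * δ' * l := by
        rw [ht]
        ring
      have h6 : 6 * α ^ 2 * δ' * l ≤ ε / 2 * l := mul_le_mul_of_nonneg_right hδ'3 hl0
      linarith
    refine ⟨hmem.1, hmem.2, fun k hk => ?_, ⟨K * s, ?_, ?_⟩⟩
    · rw [← hl] at hk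
      obtain ⟨i, hi⟩ : ∃ i : ℕ, i = k / s := ⟨_, rfl⟩
      have hdm := Nat.div_add_mod k s
      have hmod := Nat.mod_lt k (by omega : 0 < s)
      have hki : k = i * s + k % s := by
        rw [hi, mul_comm]
        exact hdm.symm
      have his : (i : ℝ) * s ≤ k := by
        have : i * s ≤ k := by omega
        exact_mod_cast this
      -- `i D + s log 2 < l`
      have hkey : (i : ℝ) * D + s * Real.log 2 < l := by
        by_contra hc
        push Not at hc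
        have h1 : l * q ≤ i * s + q * s * Real.log 2 := by
          calc l * q ≤ (i * D + s * Real.log 2) * q := mul_le_mul_of_nonneg_right hc hq0.le
            _ = i * (q * D) + q * s * Real.log 2 := by ring
            _ = _ := by rw [hqD]
        have h2 : l * (α * (1 - t)) ≤ l * q := mul_le_mul_of_nonneg_left hq1 hl0
        have h3 : α * t ≤ ε / 4 := by
          have h9 : α * t = 3 * α ^ 2 * δ' := by
            rw [ht]
            ring
          linarith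
        have h4 : α * t * l ≤ ε / 4 * l := mul_le_mul_of_nonneg_right h3 hl0
        have h5 : 0 < l := by
          rcases hl0.lt_or_eq with h | h
          · exact h
          · rw [← h] at hc2
            linarith
        have h6 : 0 < ε * l := by positivity
        have h7 : l * (α * (1 - t)) = α * l - α * t * l := by ring
        linarith
      have hiK : i ≤ K := by
        have h1 : (i : ℝ) * D < K * D := by
          have : 0 ≤ s * Real.log 2 := by positivity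
          linarith
        have h2 : (i : ℝ) < K := lt_of_mul_lt_mul_right h1 hD0.le
        exact_mod_cast h2.le
      have hoci : i * n ≤ oc k x := by
        rw [hki, oc_add, hoc i hiK]
        exact Nat.le_add_right _ _
      have h1 : (2 : ℝ) ^ ((i + 1) * s) < 3 ^ (i * n) * X := by
        rw [← Real.log_lt_log_iff (by positivity) (by positivity),
          Real.log_mul (by positivity) (by positivity), Real.log_pow, Real.log_pow, ← hl]
        push_cast
        rw [hD] at hkey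
        linarith
      calc (2 : ℝ) ^ k ≤ 2 ^ ((i + 1) * s) := by
            apply pow_le_pow_right₀ (by norm_num)
            rw [hki, add_mul, one_mul]
            omega
        _ < 3 ^ (i * n) * X := h1
        _ ≤ 3 ^ oc k x * X :=
            mul_le_mul_of_nonneg_right (pow_le_pow_right₀ (by norm_num) hoci) hX0.le
    · rw [← hl]
      push_cast
      exact hKs
    · rw [hoc K le_rfl]
      rw [hpow, le_div_iff₀ (by positivity)] at hρK2
      linarith

/-- `2^t T^t x = 3^a x + b` with `0 ≤ b ≤ 3^a (2^t - 1)` -/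
theorem ident (t : ℕ) : ∀ x : ℤ, 0 ≤ 2 ^ t * T^[t] x - 3 ^ oc t x * x ∧
    2 ^ t * T^[t] x - 3 ^ oc t x * x ≤ 3 ^ oc t x * (2 ^ t - 1) := by
  induction t with
  | zero => intro x; simp [oc]
  | succ t ih =>
    intro x
    obtain ⟨h1, h2⟩ := ih (T x)
    rw [Function.iterate_succ_apply]
    have h3 : oc (t + 1) x = (if x % 2 = 1 then 1 else 0) + oc t (T x) := rfl
    set b := 2 ^ t * T^[t] (T x) - 3 ^ oc t (T x) * T x with hb
    have hp : (0 : ℤ) < 3 ^ oc t (T x) := by positivity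
    have hp2 : (0 : ℤ) < 2 ^ t := by positivity
    by_cases hx : x % 2 = 0
    · have e1 : 2 * T x = x := by
        unfold T
        rw [if_pos hx]
        omega
      have e2 : (2 : ℤ) ^ (t + 1) * T^[t] (T x) - 3 ^ oc (t + 1) x * x = 2 * b := by
        rw [h3, if_neg (by omega), Nat.zero_add, hb]
        have : (3 : ℤ) ^ oc t (T x) * x = 3 ^ oc t (T x) * (2 * T x) := by rw [e1]
        rw [this]
        ring
      rw [e2, h3, if_neg (by omega), Nat.zero_add]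
      refine ⟨by linarith, ?_⟩
      calc 2 * b ≤ 2 * (3 ^ oc t (T x) * (2 ^ t - 1)) := by linarith
        _ = 3 ^ oc t (T x) * (2 ^ (t + 1) - 1) - 3 ^ oc t (T x) := by ring
        _ ≤ _ := by linarith
    · have e1 : 2 * T x = 3 * x + 1 := by
        unfold T
        rw [if_neg hx]
        omega
      have e2 : (2 : ℤ) ^ (t + 1) * T^[t] (T x) - 3 ^ oc (t + 1) x * x = 2 * b + 3 ^ oc t (T x) := by
        rw [h3, if_pos (by omega), hb]
        have : (3 : ℤ) ^ (1 + oc t (T x)) * x = 3 ^ oc t (T x) * (2 * T x - 1) := by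
          rw [e1]
          ring
        rw [this]
        ring
      rw [e2, h3, if_pos (by omega)]
      refine ⟨by linarith, ?_⟩
      calc 2 * b + 3 ^ oc t (T x) ≤ 2 * (3 ^ oc t (T x) * (2 ^ t - 1)) + 3 ^ oc t (T x) := by linarith
        _ = 3 ^ oc t (T x) * (2 ^ (t + 1) - 1) := by ring
        _ ≤ 3 ^ (1 + oc t (T x)) * (2 ^ (t + 1) - 1) := by
          apply mul_le_mul_of_nonneg_right
          · exact pow_le_pow_right₀ (by norm_num) (by omega)
          · have : (1 : ℤ) ≤ 2 ^ (t + 1) := one_le_pow₀ (by norm_num)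
            linarith

/-- the map on the natural numbers -/
def Tn (n : ℕ) : ℕ := if n % 2 = 0 then n / 2 else (3 * n + 1) / 2

theorem Tn_cast (k n : ℕ) : T^[k] (n : ℤ) = ((Tn^[k] n : ℕ) : ℤ) := by
  induction k generalizing n with
  | zero => rfl
  | succ k ih =>
    rw [Function.iterate_succ_apply, Function.iterate_succ_apply, ← ih]
    congr 1
    unfold T Tn
    rcases Nat.mod_two_eq_zero_or_one n with h | h
    · rw [if_pos (by omega), if_pos h]; omega
    · rw [if_neg (by omega), if_neg (by omega)]; omega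

theorem above {k n X : ℕ} (hn : 1 ≤ n) (h : (2 : ℝ) ^ k < 3 ^ oc k n * X) : n < X * Tn^[k] n := by
  have h1 := (ident k n).1
  rw [Tn_cast] at h1
  have h2 : (0 : ℝ) ≤ 2 ^ k * (Tn^[k] n : ℕ) - 3 ^ oc k n * n := by exact_mod_cast h1
  have hn0 : (1 : ℝ) ≤ n := by exact_mod_cast hn
  have h3 : (2 : ℝ) ^ k * n < 2 ^ k * (X * (Tn^[k] n : ℕ)) := by
    have e1 : (2 : ℝ) ^ k * n < 3 ^ oc k n * X * n := mul_lt_mul_of_pos_right h (by linarith)
    have e2 : (X : ℝ) * (3 ^ oc k n * n) ≤ X * (2 ^ k * (Tn^[k] n : ℕ)) :=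
      mul_le_mul_of_nonneg_left (by linarith) (Nat.cast_nonneg _)
    linarith
  have h4 := lt_of_mul_lt_mul_left h3 (by positivity)
  exact_mod_cast h4

theorem below {k n X : ℕ} (hn : 2 ^ k ≤ n) (h : (3 : ℝ) ^ oc k n * (2 * X) ≤ 2 ^ k) : X * Tn^[k] n ≤ n := by
  have h1 := (ident k n).2
  rw [Tn_cast] at h1
  have h2 : (2 : ℝ) ^ k * (Tn^[k] n : ℕ) - 3 ^ oc k n * n ≤ 3 ^ oc k n * (2 ^ k - 1) := by
    exact_mod_cast h1
  have hn0 : (2 : ℝ) ^ k ≤ n := by exact_mod_cast hn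
  have hp : (0 : ℝ) < 3 ^ oc k n := by positivity
  have h5 : (2 : ℝ) ^ k * (Tn^[k] n : ℕ) ≤ 3 ^ oc k n * (2 * n) := by
    have : (3 : ℝ) ^ oc k n * (2 ^ k - 1) ≤ 3 ^ oc k n * n := mul_le_mul_of_nonneg_left (by linarith) hp.le
    linarith
  have h3 : (2 : ℝ) ^ k * (X * (Tn^[k] n : ℕ)) ≤ 2 ^ k * n := by
    calc (2 : ℝ) ^ k * (X * (Tn^[k] n : ℕ)) = X * (2 ^ k * (Tn^[k] n : ℕ)) := by ring
      _ ≤ X * (3 ^ oc k n * (2 * n)) := mul_le_mul_of_nonneg_left h5 (Nat.cast_nonneg _)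
      _ = 3 ^ oc k n * (2 * X) * n := by ring
      _ ≤ 2 ^ k * n := mul_le_mul_of_nonneg_right h (Nat.cast_nonneg _)
  have h4 := le_of_mul_le_mul_left h3 (by positivity)
  exact_mod_cast h4

open Pool.Agent.Q211.BT (ncard_le_sum EE_ocp log_four_thirds log_four_thirds_pos rr_half gamma_ge FF_neg) in
/-- the upper bound for one `α` -/
theorem up3 {α : ℝ} (hα : 2 / Real.log (4 / 3) ≤ α) : ∃ C : ℝ, 0 < C ∧ ∀ X : ℕ, 2 ≤ X →
    ∀ (M : ℤ) (W : ℕ), (2 : ℝ) ^ (α * Real.log X) ≤ W →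
    ({x : ℤ | M ≤ x ∧ x < M + W ∧
      (2 : ℝ) ^ ⌊α * Real.log X⌋₊ < 3 ^ oc ⌊α * Real.log X⌋₊ x * (2 * X)}.ncard : ℝ) ≤
      C * (X : ℝ) ^ (α * FF (rr α) - 1) * W := by
  have h43 := log_four_thirds_pos
  have hl3 : 0 < Real.log 3 := Real.log_pos (by norm_num)
  have hl2 : 0 < Real.log 2 := Real.log_pos (by norm_num)
  have hα0 : 0 < α := lt_of_lt_of_le (by positivity) hα
  have hr := rr_half hα
  have hr1 := rr_lt_one hα0
  have hspec := rr_spec α
  set r : ℝ := rr α with hrdef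
  have h1r : 0 < 1 - r := by linarith
  have hr0 : 0 < r := by linarith
  set z : ℝ := r / (1 - r) with hz
  have hz1 : 1 ≤ z := by
    rw [hz, le_div_iff₀ h1r]
    linarith
  have hz0 : 0 < z := lt_of_lt_of_le one_pos hz1
  set C₀ : ℝ := (1 / α + Real.log 2) / Real.log 3 with hC₀
  set D : ℝ := Real.log 2 - Real.binEntropy r with hD
  have hD0 : 0 ≤ D := by
    have := Real.binEntropy_le_log_two (p := r)
    linarith
  refine ⟨2 * z ^ C₀ * Real.exp D, by positivity, fun L hL M W hW => ?_⟩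
  have hL0 : (0 : ℝ) < L := by exact_mod_cast (by omega : 0 < L)
  have hL1 : (1 : ℝ) ≤ L := by exact_mod_cast (by omega : 1 ≤ L)
  have hlL : 0 ≤ Real.log L := Real.log_nonneg hL1
  set k : ℕ := ⌊α * Real.log L⌋₊ with hk
  have hk1 : (k : ℝ) ≤ α * Real.log L := Nat.floor_le (by positivity)
  have hk2 : α * Real.log L < k + 1 := Nat.lt_floor_add_one _
  have hWk : 2 ^ k ≤ W := by
    have h1 : (2 : ℝ) ^ k ≤ W := by
      rw [← Real.rpow_natCast]
      exact (Real.rpow_le_rpow_of_exponent_le (by norm_num) hk1).trans hW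
    exact_mod_cast h1
  set h : ℤ → ℝ := fun x => z ^ (C₀ - r * k) * z ^ oc k x with hh
  have hper : Pool.Agent.Q74.KP.Pe k h := by
    intro x j
    simp only [hh, Pool.Agent.Q74.AR.oc_per]
  have hh0 : ∀ x, 0 ≤ h x := fun x => by positivity
  have h1 : ∀ x ∈ {x : ℤ | M ≤ x ∧ x < M + W ∧ (2 : ℝ) ^ k < 3 ^ oc k x * (2 * L)}, 1 ≤ h x := by
    rintro x ⟨-, -, h2⟩
    have h3 := Real.log_lt_log (by positivity) h2
    rw [Real.log_pow, Real.log_mul (by positivity) (by positivity), Real.log_pow,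
      Real.log_mul (by norm_num) hL0.ne'] at h3
    have h4 : Real.log L < (k + 1) / α := by
      rw [lt_div_iff₀ hα0]
      linarith
    have h5 : r * k - C₀ ≤ oc k x := by
      have e1 : C₀ * Real.log 3 = 1 / α + Real.log 2 := by
        rw [hC₀]
        field_simp
      have e2 : ((k : ℝ) + 1) / α = k * (1 / α) + 1 / α := by ring
      rw [e2] at h4
      have h6 : (r * k - C₀) * Real.log 3 ≤ oc k x * Real.log 3 := by
        rw [sub_mul, e1]
        have e3 : (k : ℝ) * (1 / α) = k * Real.log 2 - k * (r * Real.log 3) := by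
          rw [hspec]
          ring
        rw [e3] at h4
        linarith
      exact le_of_mul_le_mul_right h6 hl3
    simp only [hh]
    rw [← Real.rpow_natCast z (oc k x), ← Real.rpow_add hz0]
    exact Real.one_le_rpow hz1 (by linarith)
  have h2 := ncard_le_sum (fun x hx => ⟨hx.1, hx.2.1⟩) hh0 h1
  have h3 := sum_per_le hper hh0 M W hWk
  have h4 : EE k h = z ^ (C₀ - r * k) * ((1 + z) / 2) ^ k := by
    simp only [hh]
    rw [Pool.Agent.Q74.KP.EE_mul, EE_ocp]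
  have h5 : z ^ (C₀ - r * k) * ((1 + z) / 2) ^ k = z ^ C₀ * Real.exp (-(k * D)) := by
    have e1 : (1 + z) / 2 = Real.exp (-Real.log 2 - Real.log (1 - r)) := by
      rw [Real.exp_sub, Real.exp_neg, Real.exp_log (by norm_num), Real.exp_log h1r, hz]
      field_simp
      ring
    have e2 : z = Real.exp (Real.log r - Real.log (1 - r)) := by
      rw [Real.exp_sub, Real.exp_log hr0, Real.exp_log h1r]
    have e3 : z ^ (C₀ - r * k) = z ^ C₀ * Real.exp (-(r * k) * (Real.log r - Real.log (1 - r))) := by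
      rw [sub_eq_add_neg, Real.rpow_add hz0]
      congr 1
      conv_lhs => rw [e2]
      rw [← Real.exp_mul, mul_comm]
    rw [e3, e1, ← Real.exp_nat_mul, mul_assoc, ← Real.exp_add]
    congr 2
    rw [hD, Real.binEntropy, Real.log_inv, Real.log_inv]
    ring
  have h6 : Real.exp (-(k * D)) ≤ Real.exp D * (L : ℝ) ^ (α * FF r - 1) := by
    rw [Real.rpow_def_of_pos hL0, ← Real.exp_add]
    apply Real.exp_le_exp.2
    have e1 : α * FF r - 1 = -(α * D) := by
      have e2 : α * (1 / α) = 1 := by field_simp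
      rw [hspec] at e2
      unfold FF
      rw [hD]
      linarith
    rw [e1]
    nlinarith
  have hzC : 0 < z ^ C₀ := Real.rpow_pos_of_pos hz0 _
  calc _ ≤ _ := h2
    _ ≤ 2 * EE k h * W := h3
    _ = 2 * z ^ C₀ * W * Real.exp (-(k * D)) := by
      rw [h4, h5]
      ring
    _ ≤ 2 * z ^ C₀ * W * (Real.exp D * (L : ℝ) ^ (α * FF r - 1)) :=
      mul_le_mul_of_nonneg_left h6 (by positivity)
    _ = _ := by ring

theorem ncard_nat_le {P : ℕ → Prop} {Q : ℤ → Prop} {m W : ℕ}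
    (h : ∀ n : ℕ, m ≤ n → n < m + W → P n → Q n) :
    {n : ℕ | m ≤ n ∧ n < m + W ∧ P n}.ncard ≤ {x : ℤ | (m : ℤ) ≤ x ∧ x < (m : ℤ) + W ∧ Q x}.ncard := by
  rw [← Set.ncard_image_of_injective _ (Nat.cast_injective (R := ℤ))]
  apply Set.ncard_le_ncard
  · rintro x ⟨n, ⟨h1, h2, h3⟩, rfl⟩
    exact ⟨by exact_mod_cast h1, by exact_mod_cast h2, h n h1 h2 h3⟩
  · exact (Set.finite_Ico (m : ℤ) (m + W)).subset fun x hx => ⟨hx.1, hx.2.1⟩

theorem two_floor {a : ℝ} (ha : 0 ≤ a) {m : ℕ} (h : (2 : ℝ) ^ a ≤ m) : 2 ^ ⌊a⌋₊ ≤ m := by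
  have h1 : (2 : ℝ) ^ ⌊a⌋₊ ≤ m := by
    rw [← Real.rpow_natCast]
    exact (Real.rpow_le_rpow_of_exponent_le (by norm_num) (Nat.floor_le ha)).trans h
  exact_mod_cast h1

open Pool.Agent.Q211.BT (log_four_thirds_pos gamma_ge FF_neg) in
theorem up4 {α : ℝ} (hα : 2 / Real.log (4 / 3) ≤ α) : ∃ C : ℝ, 0 < C ∧ ∀ X : ℕ, 2 ≤ X →
    ∀ m W : ℕ, (2 : ℝ) ^ (α * Real.log X) ≤ m → (2 : ℝ) ^ (α * Real.log X) ≤ W →
    ({n : ℕ | m ≤ n ∧ n < m + W ∧ ∀ k : ℕ, (k : ℝ) ≤ α * Real.log X → n < X * Tn^[k] n}.ncard : ℝ) ≤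
      C * (X : ℝ) ^ (α * FF (rr α) - 1) * W := by
  obtain ⟨C, hC, h⟩ := up3 hα
  refine ⟨C, hC, fun X hX m W hm hW => ?_⟩
  have hα0 : 0 < α := lt_of_lt_of_le (by have := log_four_thirds_pos; positivity) hα
  have hlX : 0 ≤ α * Real.log X :=
    mul_nonneg hα0.le (Real.log_nonneg (by exact_mod_cast (by omega : 1 ≤ X)))
  refine le_trans ?_ (h X hX m W hW)
  have h1 := ncard_nat_le (m := m) (W := W)
    (P := fun n => ∀ k : ℕ, (k : ℝ) ≤ α * Real.log X → n < X * Tn^[k] n)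
    (Q := fun x => (2 : ℝ) ^ ⌊α * Real.log X⌋₊ < 3 ^ oc ⌊α * Real.log X⌋₊ x * (2 * X)) ?_
  · exact_mod_cast h1
  · intro n hn1 _ hn
    have h2 := hn _ (Nat.floor_le hlX)
    by_contra hc
    push Not at hc
    have h3 := below ((two_floor hlX hm).trans hn1) hc
    omega

open Pool.Agent.Q211.BT (log_four_thirds_pos gamma_ge FF_neg) in
theorem up5 {γ : ℝ} (hγ : IsG γ) {ε : ℝ} (hε : 0 < ε) : ∃ c C : ℝ, 0 < c ∧ 0 < C ∧
    ∀ X H : ℕ, 2 ≤ X → ∀ M W : ℕ, (2 : ℝ) ^ ((γ + ε) * Real.log X) ≤ M →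
      (2 : ℝ) ^ ((γ + ε) * Real.log X) ≤ W →
      ({m : ℕ | M ≤ m ∧ m < M + W ∧ ∃ n : ℕ, m ≤ n ∧ n < m + H ∧
        ∀ k : ℕ, (k : ℝ) ≤ (γ + ε) * Real.log X → n < X * Tn^[k] n}.ncard : ℝ) ≤
      C * W * H / (X : ℝ) ^ (1 + c) := by
  have hγ0 : 0 < γ := lt_trans (by norm_num) hγ.1
  have hFneg : FF (rr (γ + ε)) < 0 := FF_neg hγ (by linarith)
  obtain ⟨C, hC, hmain⟩ := up4 (α := γ + ε) ((gamma_ge hγ).trans (by linarith))
  refine ⟨-((γ + ε) * FF (rr (γ + ε))), C, by nlinarith, hC, fun X H hX M W hM hW => ?_⟩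
  have hX0 : (0 : ℝ) < X := by exact_mod_cast (by omega : 0 < X)
  set P : ℕ → Prop := fun n => ∀ k : ℕ, (k : ℝ) ≤ (γ + ε) * Real.log X → n < X * Tn^[k] n with hP
  have hone : ∀ j : ℕ, ({m : ℕ | M ≤ m ∧ m < M + W ∧ P (m + j)}.ncard : ℝ) ≤
      C * (X : ℝ) ^ ((γ + ε) * FF (rr (γ + ε)) - 1) * W := by
    intro j
    have h1 := hmain X hX (M + j) W (hM.trans (by push_cast; linarith [(Nat.cast_nonneg j : (0 : ℝ) ≤ j)])) hW
    have h2 : ((fun m : ℕ => m + j) '' {m : ℕ | M ≤ m ∧ m < M + W ∧ P (m + j)}) ⊆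
        {x : ℕ | M + j ≤ x ∧ x < M + j + W ∧ P x} := by
      rintro x ⟨m, ⟨a1, a2, a3⟩, rfl⟩
      refine ⟨?_, ?_, a3⟩
      · show M + j ≤ m + j
        omega
      · show m + j < M + j + W
        omega
    have h3 := Set.ncard_image_of_injective {m : ℕ | M ≤ m ∧ m < M + W ∧ P (m + j)}
      (add_left_injective j)
    have h4 := Set.ncard_le_ncard h2
      ((Set.finite_Ico (M + j) (M + j + W)).subset fun x hx => ⟨hx.1, hx.2.1⟩)
    rw [h3] at h4
    exact le_trans (by exact_mod_cast h4) h1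
  have hsub : {m : ℕ | M ≤ m ∧ m < M + W ∧ ∃ n : ℕ, m ≤ n ∧ n < m + H ∧ P n} ⊆
      ⋃ j ∈ range H, {m : ℕ | M ≤ m ∧ m < M + W ∧ P (m + j)} := by
    rintro m ⟨a1, a2, n, hn1, hn2, a3⟩
    simp only [Set.mem_iUnion, Finset.mem_range]
    refine ⟨n - m, by omega, a1, a2, ?_⟩
    rw [Nat.add_sub_cancel' hn1]
    exact a3
  have hfin : (⋃ j ∈ range H, {m : ℕ | M ≤ m ∧ m < M + W ∧ P (m + j)}).Finite := by
    apply (Set.finite_Ico M (M + W)).subset
    intro m hm
    simp only [Set.mem_iUnion] at hm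
    obtain ⟨j, -, a1, a2, -⟩ := hm
    exact ⟨a1, a2⟩
  have h4 := Set.ncard_le_ncard hsub hfin
  have h5 := Finset.set_ncard_biUnion_le (range H)
    (fun j : ℕ => {m : ℕ | M ≤ m ∧ m < M + W ∧ P (m + j)})
  have h6 : ({m : ℕ | M ≤ m ∧ m < M + W ∧ ∃ n : ℕ, m ≤ n ∧ n < m + H ∧ P n}.ncard : ℝ) ≤
      ∑ j ∈ range H, ({m : ℕ | M ≤ m ∧ m < M + W ∧ P (m + j)}.ncard : ℝ) := by
    exact_mod_cast h4.trans h5
  have h7 : ∑ j ∈ range H, ({m : ℕ | M ≤ m ∧ m < M + W ∧ P (m + j)}.ncard : ℝ) ≤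
      H * (C * (X : ℝ) ^ ((γ + ε) * FF (rr (γ + ε)) - 1) * W) := by
    refine (Finset.sum_le_sum fun j _ => hone j).trans ?_
    rw [Finset.sum_const, Finset.card_range, nsmul_eq_mul]
  refine (h6.trans h7).trans (le_of_eq ?_)
  have e1 : (γ + ε) * FF (rr (γ + ε)) - 1 = -(1 + -((γ + ε) * FF (rr (γ + ε)))) := by ring
  rw [e1, Real.rpow_neg hX0.le]
  field_simp

theorem nat_le_ncard {P : ℕ → Prop} {S : Finset ℤ} {m H : ℕ}
    (h : ∀ x ∈ S, (m : ℤ) ≤ x ∧ x < (m : ℤ) + H ∧ ∀ n : ℕ, x = n → m ≤ n → P n) :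
    S.card ≤ {n : ℕ | m ≤ n ∧ n < m + H ∧ P n}.ncard := by
  rw [← Set.ncard_image_of_injective _ (Nat.cast_injective (R := ℤ)), ← Set.ncard_coe_finset]
  apply Set.ncard_le_ncard
  · intro x hx
    obtain ⟨h1, h2, h3⟩ := h x hx
    refine ⟨x.toNat, ⟨by omega, by omega, h3 x.toNat (by omega) (by omega)⟩, by omega⟩
  · exact ((Set.finite_Ico m (m + H)).subset fun x hx => ⟨hx.1, hx.2.1⟩).image _

theorem low4 (h : S_BM) {γ : ℝ} (hγ : IsG γ) {α : ℝ} (hα1 : 1 / Real.log 2 < α) (hα2 : α < γ) {ε : ℝ}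
    (hε : 0 < ε) : ∃ C : ℝ, 1 ≤ C ∧ ∀ X H m : ℕ, C ≤ X → C * X ≤ H → 1 ≤ m →
      (H : ℝ) * (X : ℝ) ^ (α * FF (rr α) - 1 - ε) ≤ ({n : ℕ | m ≤ n ∧ n < m + H ∧
        ∀ k : ℕ, (k : ℝ) ≤ (α - ε) * Real.log X → n < X * Tn^[k] n}.ncard : ℝ) ∧
      (X ^ 30 ≤ m → (H : ℝ) * (X : ℝ) ^ (α * FF (rr α) - 1 - ε) ≤ ({n : ℕ | m ≤ n ∧ n < m + H ∧
        ∃ k : ℕ, IsLeast {k : ℕ | X * Tn^[k] n ≤ n} k ∧
          |(k : ℝ) - α * Real.log X| ≤ ε * Real.log X}.ncard : ℝ)) := by
  obtain ⟨C, hC, hmain⟩ := low3 h hγ hα1 hα2 (ε := min ε 1) (by positivity)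
  refine ⟨C, hC, fun X H m hX hH hm => ?_⟩
  have hX1 : (1 : ℝ) ≤ X := hC.trans hX
  have hX0 : (0 : ℝ) < X := by linarith
  have hl0 : 0 ≤ Real.log X := Real.log_nonneg hX1
  obtain ⟨S, hS1, hS2⟩ := hmain X hX H hH m
  have hε1 : min ε 1 ≤ ε := min_le_left _ _
  have hcount : (H : ℝ) * (X : ℝ) ^ (α * FF (rr α) - 1 - ε) ≤ S.card := by
    refine le_trans ?_ hS1
    apply mul_le_mul_of_nonneg_left _ (Nat.cast_nonneg _)
    exact Real.rpow_le_rpow_of_exponent_le hX1 (by linarith)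
  constructor
  · refine hcount.trans ?_
    have h1 := nat_le_ncard (S := S) (m := m) (H := H)
      (P := fun n => ∀ k : ℕ, (k : ℝ) ≤ (α - ε) * Real.log X → n < X * Tn^[k] n) ?_
    · exact_mod_cast h1
    · intro x hx
      obtain ⟨h2, h3, h4, -⟩ := hS2 x hx
      refine ⟨h2, h3, ?_⟩
      rintro n rfl hn k hk
      apply above (by omega)
      apply h4 k
      refine hk.trans (mul_le_mul_of_nonneg_right (by linarith) hl0)
  · intro hm30
    refine hcount.trans ?_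
    have h1 := nat_le_ncard (S := S) (m := m) (H := H)
      (P := fun n => ∃ k : ℕ, IsLeast {k : ℕ | X * Tn^[k] n ≤ n} k ∧
          |(k : ℝ) - α * Real.log X| ≤ ε * Real.log X) ?_
    · exact_mod_cast h1
    · intro x hx
      obtain ⟨h2, h3, h4, k₁, h5, h6⟩ := hS2 x hx
      refine ⟨h2, h3, ?_⟩
      rintro n rfl hn
      have h2k : 2 ^ k₁ ≤ n := by
        have e1 : (2 : ℝ) ^ k₁ ≤ (X : ℝ) ^ 30 := by
          rw [← Real.rpow_natCast, Real.rpow_def_of_pos (by norm_num), ← Real.rpow_natCast,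
            Real.rpow_def_of_pos hX0]
          apply Real.exp_le_exp.2
          have e2 : (k₁ : ℝ) ≤ (41.6777 + 1) * Real.log X := by
            refine h5.trans (mul_le_mul_of_nonneg_right ?_ hl0)
            have := hγ.2.1
            have := min_le_right ε (1 : ℝ)
            linarith
          have e3 := Real.log_two_lt_d9
          have e4 : 0 < Real.log 2 := Real.log_pos (by norm_num)
          calc Real.log 2 * k₁ ≤ Real.log 2 * ((41.6777 + 1) * Real.log X) :=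
                mul_le_mul_of_nonneg_left e2 e4.le
            _ = Real.log 2 * (41.6777 + 1) * Real.log X := by ring
            _ ≤ 30 * Real.log X := by
                apply mul_le_mul_of_nonneg_right _ hl0
                norm_num at *
                linarith
            _ = Real.log X * ((30 : ℕ) : ℝ) := by
                push_cast
                ring
        have e5 : 2 ^ k₁ ≤ X ^ 30 := by exact_mod_cast e1
        omega
      have hex : ∃ k : ℕ, X * Tn^[k] n ≤ n := ⟨k₁, below h2k h6⟩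
      classical
      refine ⟨Nat.find hex, ⟨Nat.find_spec hex, fun j hj => Nat.find_min' hex hj⟩, ?_⟩
      have hle : Nat.find hex ≤ k₁ := Nat.find_min' hex (below h2k h6)
      have hlt : (α - min ε 1) * Real.log X < (Nat.find hex : ℕ) := by
        by_contra hc
        push Not at hc
        have h7 := above (by omega : 1 ≤ n) (h4 _ hc)
        have h8 := Nat.find_spec hex
        omega
      have hle2 : ((Nat.find hex : ℕ) : ℝ) ≤ (α + min ε 1) * Real.log X :=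
        le_trans (by exact_mod_cast hle) h5
      have h9 : min ε 1 * Real.log X ≤ ε * Real.log X := mul_le_mul_of_nonneg_right hε1 hl0
      rw [abs_le]
      constructor
      · linarith
      · linarith

open Pool.Agent.Q211.BT (log_four_thirds_pos gamma_ge FF_neg) in
/-- **Theorem P.** -/
theorem finP (hB : S_BM) {γ : ℝ} (hγ : IsG γ) :
    (∀ α : ℝ, 1 / Real.log 2 < α → α < γ → 0 < 1 - α * rate (1 / α) ∧ ∀ ε : ℝ, 0 < ε → ∃ C : ℝ, 0 < C ∧
      ∀ X H m : ℕ, C ≤ X → C * X ≤ H → X ^ 30 ≤ m →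
        (H : ℝ) * (X : ℝ) ^ (-(α * rate (1 / α)) - ε) ≤ ({n : ℕ | m ≤ n ∧ n < m + H ∧
          ∃ k : ℕ, IsLeast {k : ℕ | X * Tn^[k] n ≤ n} k ∧
            |(k : ℝ) - α * Real.log X| ≤ ε * Real.log X}.ncard : ℝ)) ∧
    (∀ α : ℝ, 2 / Real.log (4 / 3) ≤ α → α < γ → ∀ ε : ℝ, 0 < ε → ∃ C : ℝ, 0 < C ∧
      ∀ X H m : ℕ, C ≤ X → C * X ≤ H → 1 ≤ m →
        (H : ℝ) * (X : ℝ) ^ (-(α * rate (1 / α)) - ε) ≤ ({n : ℕ | m ≤ n ∧ n < m + H ∧
          ∀ k : ℕ, (k : ℝ) ≤ α * Real.log X → n < X * Tn^[k] n}.ncard : ℝ)) ∧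
    (∀ α : ℝ, 2 / Real.log (4 / 3) ≤ α → ∃ C : ℝ, 0 < C ∧ ∀ X : ℕ, 2 ≤ X →
      ∀ m H : ℕ, (2 : ℝ) ^ (α * Real.log X) ≤ m → (2 : ℝ) ^ (α * Real.log X) ≤ H →
        ({n : ℕ | m ≤ n ∧ n < m + H ∧ ∀ k : ℕ, (k : ℝ) ≤ α * Real.log X → n < X * Tn^[k] n}.ncard : ℝ) ≤
          C * H * (X : ℝ) ^ (-(α * rate (1 / α)))) ∧
    (∀ ε : ℝ, 0 < ε → ∃ C : ℝ, 0 < C ∧ ∀ X H m : ℕ, C ≤ X → C * X ≤ H → 1 ≤ m →
      ∃ n : ℕ, m ≤ n ∧ n < m + H ∧ ∀ k : ℕ, (k : ℝ) ≤ (γ - ε) * Real.log X → n < X * Tn^[k] n) ∧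
    (∀ ε : ℝ, 0 < ε → ∃ c C : ℝ, 0 < c ∧ 0 < C ∧
      ∀ X H : ℕ, 2 ≤ X → ∀ M W : ℕ, (2 : ℝ) ^ ((γ + ε) * Real.log X) ≤ M →
        (2 : ℝ) ^ ((γ + ε) * Real.log X) ≤ W →
        ({m : ℕ | M ≤ m ∧ m < M + W ∧ ∃ n : ℕ, m ≤ n ∧ n < m + H ∧
          ∀ k : ℕ, (k : ℝ) ≤ (γ + ε) * Real.log X → n < X * Tn^[k] n}.ncard : ℝ) ≤
        C * W * H / (X : ℝ) ^ (1 + c)) := by
  have hge := gamma_ge hγ
  have hp43 := log_four_thirds_pos
  have hl2 : 0 < Real.log 2 := Real.log_pos (by norm_num)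
  have h43 : 1 / Real.log 2 < 2 / Real.log (4 / 3) := by
    rw [div_lt_div_iff₀ hl2 hp43, Pool.Agent.Q211.BT.log_four_thirds]
    have : 0 < Real.log 3 := Real.log_pos (by norm_num)
    linarith
  have hexp : ∀ {α : ℝ}, 1 / Real.log 2 < α → α * FF (rr α) - 1 = -(α * rate (1 / α)) := by
    intro α hα
    rw [← Pool.Agent.H395R2.G3.expo_eq hα]
    ring
  refine ⟨fun α hα1 hα2 => ⟨?_, fun ε hε => ?_⟩, fun α hα1 hα2 ε hε => ?_, fun α hα => ?_,
    fun ε hε => ?_, fun ε hε => up5 hγ hε⟩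
  · rw [Pool.Agent.H395R2.G3.expo_eq hα1]
    exact mul_pos (lt_trans (by positivity) hα1) (hγ.2.2.2 α hα1 hα2)
  · obtain ⟨C, hC, h⟩ := low4 hB hγ hα1 hα2 hε
    refine ⟨C, by linarith, fun X H m hX hH hm => ?_⟩
    have hX1 : (1 : ℝ) ≤ X := hC.trans hX
    have hX2 : 1 ≤ X := by exact_mod_cast hX1
    rw [← hexp hα1]
    exact (h X H m hX hH (le_trans (Nat.one_le_pow _ _ hX2) hm)).2 hm
  · -- shift `α` slightly to the right
    have hα1' : 1 / Real.log 2 < α := h43.trans_le hα1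
    have hα0 : 0 < α := lt_trans (by positivity) hα1'
    -- the exponent is continuous in `α`
    have hcont : ∃ β : ℝ, α < β ∧ β < γ ∧ α * FF (rr α) - ε / 2 ≤ β * FF (rr β) := by
      have hc : ContinuousAt (fun β : ℝ => β * FF (rr β)) α := by
        have : Continuous FF := by
          unfold FF
          exact Real.binEntropy_continuous.sub (by fun_prop)
        unfold rr
        refine continuousAt_id.mul (ContinuousAt.comp (g := FF) this.continuousAt ?_)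
        refine ContinuousAt.div_const ?_ _
        exact continuousAt_const.sub (continuousAt_const.div continuousAt_id hα0.ne')
      have h1 : ∀ᶠ β in nhds α, α * FF (rr α) - ε / 2 < β * FF (rr β) :=
        hc.eventually (lt_mem_nhds (by linarith))
      have h2 : ∀ᶠ β in nhds α, β < γ := gt_mem_nhds hα2
      obtain ⟨δ, hδ, hδ2⟩ := Metric.eventually_nhds_iff.1 (h1.and h2)
      refine ⟨α + δ / 2, by linarith, ?_, ?_⟩
      · exact (hδ2 (by rw [Real.dist_eq]; simp [abs_of_pos (by linarith : 0 < δ / 2)]; linarith)).2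
      · exact (hδ2 (by rw [Real.dist_eq]; simp [abs_of_pos (by linarith : 0 < δ / 2)]; linarith)).1.le
    obtain ⟨β, hβ1, hβ2, hβ3⟩ := hcont
    obtain ⟨C, hC, h⟩ := low4 hB hγ (hα1'.trans hβ1) hβ2 (ε := min (ε / 2) (β - α)) (by
      have : 0 < β - α := by linarith
      positivity)
    refine ⟨C, by linarith, fun X H m hX hH hm => ?_⟩
    have hX1 : (1 : ℝ) ≤ X := hC.trans hX
    have hl0 : 0 ≤ Real.log X := Real.log_nonneg hX1
    refine le_trans ?_ ((h X H m hX hH hm).1.trans ?_)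
    · apply mul_le_mul_of_nonneg_left _ (Nat.cast_nonneg _)
      apply Real.rpow_le_rpow_of_exponent_le hX1
      rw [← hexp hα1']
      have := min_le_left (ε / 2) (β - α)
      linarith
    · have hfin : {n : ℕ | m ≤ n ∧ n < m + H ∧
          ∀ k : ℕ, (k : ℝ) ≤ α * Real.log X → n < X * Tn^[k] n}.Finite :=
        (Set.finite_Ico m (m + H)).subset fun x hx => ⟨hx.1, hx.2.1⟩
      have h1 := Set.ncard_le_ncard (s := {n : ℕ | m ≤ n ∧ n < m + H ∧
        ∀ k : ℕ, (k : ℝ) ≤ (β - min (ε / 2) (β - α)) * Real.log X → n < X * Tn^[k] n}) (t :=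
        {n : ℕ | m ≤ n ∧ n < m + H ∧
          ∀ k : ℕ, (k : ℝ) ≤ α * Real.log X → n < X * Tn^[k] n}) ?_ hfin
      · exact_mod_cast h1
      · rintro n ⟨a1, a2, a3⟩
        refine ⟨a1, a2, fun k hk => a3 k (hk.trans (mul_le_mul_of_nonneg_right ?_ hl0))⟩
        have := min_le_right (ε / 2) (β - α)
        linarith
  · obtain ⟨C, hC, h⟩ := up4 hα
    refine ⟨C, hC, fun X hX m H hm hH => (h X hX m H hm hH).trans (le_of_eq ?_)⟩
    rw [hexp (h43.trans_le hα)]
    ring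
  · -- the maximum
    obtain ⟨α, hα1, hα2, hα3⟩ : ∃ α : ℝ, 2 / Real.log (4 / 3) < α ∧ α < γ ∧ γ - ε / 2 ≤ α := by
      have hlt : 2 / Real.log (4 / 3) < γ := by
        have h1 := Real.log_two_gt_d9
        have h2 := Real.log_three_lt_d9
        have h3 := hγ.1
        rw [div_lt_iff₀ hp43, Pool.Agent.Q211.BT.log_four_thirds]
        norm_num at *
        nlinarith
      rcases le_or_gt (γ - ε / 2) (2 / Real.log (4 / 3)) with h1 | h1
      · refine ⟨(2 / Real.log (4 / 3) + γ) / 2, by linarith, by linarith, by linarith⟩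
      · exact ⟨γ - ε / 2, h1, by linarith, le_rfl⟩
    obtain ⟨C, hC, h⟩ := low4 hB hγ (h43.trans hα1) hα2 (ε := ε / 2) (by linarith)
    refine ⟨C, by linarith, fun X H m hX hH hm => ?_⟩
    have hX1 : (1 : ℝ) ≤ X := hC.trans hX
    have hl0 : 0 ≤ Real.log X := Real.log_nonneg hX1
    have h1 := (h X H m hX hH hm).1
    have hX0 : (0 : ℝ) < X := by linarith
    have hH0 : (0 : ℝ) < H := by
      have : 0 < C * X := by positivity
      linarith
    have h2 : 0 < (H : ℝ) * (X : ℝ) ^ (α * FF (rr α) - 1 - ε / 2) := by positivity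
    have h3 : (0 : ℝ) < ({n : ℕ | m ≤ n ∧ n < m + H ∧
        ∀ k : ℕ, (k : ℝ) ≤ (α - ε / 2) * Real.log X → n < X * Tn^[k] n}.ncard : ℝ) :=
      lt_of_lt_of_le h2 h1
    have h4 : {n : ℕ | m ≤ n ∧ n < m + H ∧
        ∀ k : ℕ, (k : ℝ) ≤ (α - ε / 2) * Real.log X → n < X * Tn^[k] n}.ncard ≠ 0 := by
      intro h
      rw [h] at h3
      simp at h3
    obtain ⟨n, a1, a2, a3⟩ := Set.nonempty_of_ncard_ne_zero h4
    refine ⟨n, a1, a2, fun k hk => a3 k (hk.trans (mul_le_mul_of_nonneg_right ?_ hl0))⟩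
    linarith

end Pool.Agent.Q74.BT
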