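import Pool.Agent.Q74.BT.Stm7
import Pool.Agent.Q74.BT.FinM4

/-! # Project BT: the number of values on `exp (λ t)` consecutive integers -/

set_option autoImplicit false

namespace Pool.Agent.Q74.BT

open Finset
open Pool.Agent.Q158.Pair (T)
open Pool.Agent.Q74.KP (EE Pe Erf)

/-- the constant -/
noncomputable def cV (γ lam : ℝ) : ℝ := 4 * kap / √Real.pi * (√(1 - lam / Real.log 2) - √(1 - γ * lam))

theorem sqrt_diff {a b : ℝ} (ha : 0 ≤ a) (hab : a ≤ b) : √b ≤ √a + √(b - a) := by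
  apply Real.sqrt_le_iff.2
  refine ⟨by positivity, ?_⟩
  have h1 := Real.sq_sqrt ha
  have h2 := Real.sq_sqrt (show 0 ≤ b - a by linarith)
  have h3 : 0 ≤ √a * √(b - a) := by positivity
  nlinarith

theorem kap_pos : 0 < kap := by
  unfold kap
  have h3 : 0 < Real.log 3 := Real.log_pos (by norm_num)
  rw [sub_pos, div_lt_div_iff₀ (by norm_num) h3]
  have : Real.log 3 < Real.log 4 := Real.log_lt_log (by norm_num) (by norm_num)
  have h4 : Real.log 4 = 2 * Real.log 2 := by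
    rw [show (4 : ℝ) = 2 ^ 2 by norm_num, Real.log_pow]
    norm_num
  linarith

/-- `L = ⌊exp (λ t)⌋` -/
theorem floor_log {lam : ℝ} (hl : 0 < lam) : ∃ t₁ : ℕ, ∀ t : ℕ, t₁ ≤ t → 1 ≤ ⌊Real.exp (lam * t)⌋₊ ∧
    Real.log ⌊Real.exp (lam * t)⌋₊ ≤ lam * t ∧ lam * t - 1 ≤ Real.log ⌊Real.exp (lam * t)⌋₊ := by
  obtain ⟨t₁, ht₁⟩ := exists_nat_ge (2 / lam)
  refine ⟨t₁, fun t ht => ?_⟩
  have h1 : (t₁ : ℝ) ≤ t := by exact_mod_cast ht
  have h2 : 2 ≤ lam * t := by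
    rw [div_le_iff₀ hl] at ht₁
    nlinarith
  have h3 : 3 ≤ Real.exp (lam * t) := by
    have := Real.add_one_le_exp (lam * t)
    linarith
  have h4 : (⌊Real.exp (lam * t)⌋₊ : ℝ) ≤ Real.exp (lam * t) := Nat.floor_le (Real.exp_pos _).le
  have h5 : Real.exp (lam * t) < ⌊Real.exp (lam * t)⌋₊ + 1 := Nat.lt_floor_add_one _
  have h6 : (0 : ℝ) < ⌊Real.exp (lam * t)⌋₊ := by linarith
  refine ⟨?_, ?_, ?_⟩
  · have : (0 : ℝ) < ⌊Real.exp (lam * t)⌋₊ := h6
    exact_mod_cast this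
  · rw [Real.log_le_iff_le_exp h6]
    exact h4
  · rw [Real.le_log_iff_exp_le h6, Real.exp_sub]
    rw [div_le_iff₀ (Real.exp_pos _)]
    have h7 : 2 ≤ Real.exp 1 := by
      have := Real.add_one_le_exp (1 : ℝ)
      linarith
    nlinarith

/-- the main term -/
theorem MV_near {γ lam : ℝ} (hG : IsG γ) (hl : 0 < lam) (hl1 : lam < 1 / γ) :
    ∃ (C : ℝ) (t₁ : ℕ), 0 < C ∧ ∀ t : ℕ, t₁ ≤ t → |MV γ ⌊Real.exp (lam * t)⌋₊ t - cV γ lam * √t| ≤ C := by
  obtain ⟨t₁, h⟩ := floor_log hl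
  have hγ : 0 < γ := by linarith [hG.1]
  have l2 := Real.log_two_gt_d9
  have l2' := Real.log_two_lt_d9
  have hl2 : 0 < Real.log 2 := by linarith
  have hlg : γ * lam < 1 := by rw [lt_div_iff₀ hγ] at hl1; linarith
  have hll : lam / Real.log 2 < 1 := by
    rw [div_lt_one hl2]
    have : γ * lam < 1 := hlg
    have : 41 * lam < 1 := by nlinarith [hG.1]
    linarith
  have hk := kap_pos
  set c := 4 * kap / √Real.pi with hc
  have hc0 : 0 ≤ c := by positivity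
  refine ⟨1 + c * (√(1 / Real.log 2) + √γ), t₁, by positivity, fun t ht => ?_⟩
  obtain ⟨g1, g2, g3⟩ := h t ht
  set ℓ := Real.log ⌊Real.exp (lam * t)⌋₊ with hℓ
  have ht0 : (0 : ℝ) ≤ t := Nat.cast_nonneg t
  have a1 : √((t : ℝ) - lam * t / Real.log 2) = √(1 - lam / Real.log 2) * √t := by
    rw [← Real.sqrt_mul (by linarith)]
    congr 1
    ring
  have a2 : √((t : ℝ) - γ * (lam * t)) = √(1 - γ * lam) * √t := by
    rw [← Real.sqrt_mul (by linarith)]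
    congr 1
    ring
  have p1 : 0 ≤ (t : ℝ) - lam * t / Real.log 2 := by
    have : (t : ℝ) - lam * t / Real.log 2 = t * (1 - lam / Real.log 2) := by ring
    rw [this]
    exact mul_nonneg ht0 (by linarith)
  have p2 : 0 ≤ (t : ℝ) - γ * (lam * t) := by
    have : (t : ℝ) - γ * (lam * t) = t * (1 - γ * lam) := by ring
    rw [this]
    exact mul_nonneg ht0 (by linarith)
  have q1 : (t : ℝ) - lam * t / Real.log 2 ≤ t - ℓ / Real.log 2 := by
    have := div_le_div_of_nonneg_right g2 hl2.le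
    linarith
  have q2 : (t : ℝ) - γ * (lam * t) ≤ t - γ * ℓ := by
    have := mul_le_mul_of_nonneg_left g2 hγ.le
    linarith
  have r1 := sqrt_diff p1 q1
  have r2 := sqrt_diff p2 q2
  have s1 : √((t : ℝ) - ℓ / Real.log 2 - (t - lam * t / Real.log 2)) ≤ √(1 / Real.log 2) := by
    apply Real.sqrt_le_sqrt
    have : (t : ℝ) - ℓ / Real.log 2 - (t - lam * t / Real.log 2) = (lam * t - ℓ) / Real.log 2 := by ring
    rw [this]
    exact div_le_div_of_nonneg_right (by linarith) hl2.le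
  have s2 : √((t : ℝ) - γ * ℓ - (t - γ * (lam * t))) ≤ √γ := by
    apply Real.sqrt_le_sqrt
    have : (t : ℝ) - γ * ℓ - (t - γ * (lam * t)) = γ * (lam * t - ℓ) := by ring
    rw [this]
    nlinarith
  have m1 := Real.sqrt_le_sqrt q1
  have m2 := Real.sqrt_le_sqrt q2
  unfold MV cV
  rw [← hc, ← hℓ]
  rw [a1] at r1 m1
  rw [a2] at r2 m2
  have e : 1 + c * (√((t : ℝ) - ℓ / Real.log 2) - √((t : ℝ) - γ * ℓ)) - c * (√(1 - lam / Real.log 2) - √(1 - γ * lam)) * √t =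
      1 + c * ((√((t : ℝ) - ℓ / Real.log 2) - √(1 - lam / Real.log 2) * √t) - (√((t : ℝ) - γ * ℓ) - √(1 - γ * lam) * √t)) := by ring
  rw [e]
  have u1 : √((t : ℝ) - ℓ / Real.log 2) - √(1 - lam / Real.log 2) * √t - (√((t : ℝ) - γ * ℓ) - √(1 - γ * lam) * √t) ≤
      √(1 / Real.log 2) + √γ := by
    have := Real.sqrt_nonneg γ
    linarith
  have u2 : -(√(1 / Real.log 2) + √γ) ≤ √((t : ℝ) - ℓ / Real.log 2) - √(1 - lam / Real.log 2) * √t -
      (√((t : ℝ) - γ * ℓ) - √(1 - γ * lam) * √t) := by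
    have := Real.sqrt_nonneg (1 / Real.log 2)
    linarith
  have v1 := mul_le_mul_of_nonneg_left u1 hc0
  have v2 := mul_le_mul_of_nonneg_left u2 hc0
  rw [abs_le]
  constructor <;> linarith

/-- the number of values on `⌊exp (λ t)⌋` consecutive integers -/
theorem lamLaw (h1 : S_MeanAll) (h2 : S_LLN) {γ lam : ℝ} (hG : IsG γ) (hl : 0 < lam) (hl1 : lam < 1 / γ) {ε : ℝ} (hε : 0 < ε) :
    ∃ t₀ K : ℕ, ∀ t : ℕ, t₀ ≤ t → ∀ (M : ℤ) (W : ℕ), K * 2 ^ t ≤ W →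
      |∑ n ∈ Ico M (M + W), (Vn ⌊Real.exp (lam * t)⌋₊ t n : ℝ) - cV γ lam * √t * W| ≤ ε * √t * W ∧
      ({n : ℤ | M ≤ n ∧ n < M + W ∧ ε * √t < |(Vn ⌊Real.exp (lam * t)⌋₊ t n : ℝ) - cV γ lam * √t|}.ncard : ℝ) ≤ ε * W := by
  have hγ : 0 < γ := by linarith [hG.1]
  have hlg : γ * lam < 1 := by rw [lt_div_iff₀ hγ] at hl1; linarith
  obtain ⟨C, t₁, hC, hMV⟩ := MV_near hG hl hl1
  obtain ⟨t₂, hfl⟩ := floor_log hl
  set A := |cV γ lam| + 1 with hA
  have hA0 : 0 < A := by positivity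
  set e := min (min (ε / (2 * A)) ε) (1 - γ * lam) with he
  have he0 : 0 < e := by
    refine lt_min (lt_min (by positivity) hε) (by linarith)
  have he1 : e ≤ ε / (2 * A) := (min_le_left _ _).trans (min_le_left _ _)
  have he2 : e ≤ ε := (min_le_left _ _).trans (min_le_right _ _)
  have he3 : e ≤ 1 - γ * lam := min_le_right _ _
  obtain ⟨t₃, K₁, g1⟩ := h1 γ hG e he0
  obtain ⟨M₀, hM₀, t₄, K₂, g2⟩ := h2 γ hG e he0
  obtain ⟨t₅, ht₅⟩ := exists_nat_ge ((C + 1) ^ 2 + (2 * C / ε) ^ 2 + ((M₀ + 1) / lam) ^ 2 + 1)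
  refine ⟨t₁ + t₂ + t₃ + t₄ + t₅, K₁ + K₂, fun t ht M W hW => ?_⟩
  obtain ⟨f1, f2, f3⟩ := hfl t (by omega)
  have htr : (C + 1) ^ 2 + (2 * C / ε) ^ 2 + ((M₀ + 1) / lam) ^ 2 + 1 ≤ (t : ℝ) := by
    have : (t₅ : ℝ) ≤ t := by
      have : t₅ ≤ t := by omega
      exact_mod_cast this
    linarith
  have ht0 : (0 : ℝ) < t := lt_of_lt_of_le (by positivity) htr
  have hs : √(t : ℝ) ^ 2 = t := Real.sq_sqrt ht0.le
  have hs0 : 0 < √(t : ℝ) := Real.sqrt_pos.2 ht0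
  have b0 : 1 ≤ √(t : ℝ) := by
    apply Real.le_sqrt_of_sq_le
    nlinarith [sq_nonneg (C + 1), sq_nonneg (2 * C / ε), sq_nonneg ((M₀ + 1) / lam)]
  have b1 : C ≤ √(t : ℝ) := by
    apply Real.le_sqrt_of_sq_le
    nlinarith [sq_nonneg (C + 1), sq_nonneg (2 * C / ε), sq_nonneg ((M₀ + 1) / lam)]
  have b2 : C ≤ ε / 2 * √(t : ℝ) := by
    have : 2 * C / ε ≤ √(t : ℝ) := by
      apply Real.le_sqrt_of_sq_le
      nlinarith [sq_nonneg (C + 1), sq_nonneg (2 * C / ε), sq_nonneg ((M₀ + 1) / lam)]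
    rw [div_le_iff₀ hε] at this
    linarith
  have b3 : M₀ * √(t : ℝ) ≤ lam * t - 1 := by
    have h3 : (M₀ + 1) / lam ≤ √(t : ℝ) := by
      apply Real.le_sqrt_of_sq_le
      nlinarith [sq_nonneg (C + 1), sq_nonneg (2 * C / ε), sq_nonneg ((M₀ + 1) / lam)]
    rw [div_le_iff₀ hl] at h3
    have h4 : (M₀ + 1) * √(t : ℝ) ≤ √(t : ℝ) * lam * √(t : ℝ) := mul_le_mul_of_nonneg_right h3 hs0.le
    have h5 : √(t : ℝ) * lam * √(t : ℝ) = lam * √(t : ℝ) ^ 2 := by ring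
    rw [hs] at h5
    linarith
  set L := ⌊Real.exp (lam * t)⌋₊ with hL
  have c1 : γ * Real.log L ≤ (1 - e) * t := by
    have h3 := mul_le_mul_of_nonneg_left f2 hγ.le
    have h4 : γ * (lam * t) ≤ (1 - e) * t := by
      rw [← mul_assoc]
      exact mul_le_mul_of_nonneg_right (by linarith) ht0.le
    linarith
  have hm := hMV t (by omega)
  rw [← hL] at hm
  obtain ⟨hm1, hm2⟩ := abs_le.1 hm
  have hcA : |cV γ lam| ≤ A := by rw [hA]; linarith
  have hcA1 := (abs_le.1 hcA).1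
  have hcA2 := (le_abs_self (cV γ lam))
  have hMVle : MV γ L t ≤ A * √t + C := by
    have : cV γ lam * √t ≤ A * √t := mul_le_mul_of_nonneg_right (by linarith) hs0.le
    linarith
  have hMVle' : MV γ L t ≤ (|cV γ lam| + 1) * √t := by
    have : cV γ lam * √t ≤ |cV γ lam| * √t := mul_le_mul_of_nonneg_right hcA2 hs0.le
    linarith
  have heMV : e * MV γ L t ≤ ε / 2 * √t := by
    have h3 : e * MV γ L t ≤ e * (A * √t) := mul_le_mul_of_nonneg_left hMVle' he0.le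
    have h4 : e * (A * √t) ≤ ε / (2 * A) * (A * √t) := mul_le_mul_of_nonneg_right he1 (by positivity)
    have h5 : ε / (2 * A) * (A * √t) = ε / 2 * √t := by field_simp
    linarith
  have w1 : K₁ * 2 ^ t ≤ W := le_trans (Nat.mul_le_mul_right _ (by omega)) hW
  have w2 : K₂ * 2 ^ t ≤ W := le_trans (Nat.mul_le_mul_right _ (by omega)) hW
  have hW0 : (0 : ℝ) ≤ W := Nat.cast_nonneg W
  constructor
  · have h3 := abs_le.1 (g1 t (by omega) L f1 c1 M W w1)
    have h4 : e * (MV γ L t * W) ≤ ε / 2 * √t * W := by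
      rw [← mul_assoc]
      exact mul_le_mul_of_nonneg_right heMV hW0
    have h5 : MV γ L t * W ≤ (cV γ lam * √t + ε / 2 * √t) * W := mul_le_mul_of_nonneg_right (by linarith) hW0
    have h6 : (cV γ lam * √t - ε / 2 * √t) * W ≤ MV γ L t * W := mul_le_mul_of_nonneg_right (by linarith) hW0
    rw [abs_le]
    constructor
    · linarith [h3.1]
    · linarith [h3.2]
  · have h3 := g2 t (by omega) L f1 (by linarith) c1 M W w2
    have h4 : ({n : ℤ | M ≤ n ∧ n < M + W ∧ ε * √t < |(Vn L t n : ℝ) - cV γ lam * √t|}.ncard : ℝ) ≤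
        ({n : ℤ | M ≤ n ∧ n < M + W ∧ e * MV γ L t < |(Vn L t n : ℝ) - MV γ L t|}.ncard : ℝ) := by
      apply nc_mono
      intro n hn
      have h5 : |(Vn L t n : ℝ) - cV γ lam * √t| ≤ |(Vn L t n : ℝ) - MV γ L t| + C := by
        have h6 := abs_sub_le (Vn L t n : ℝ) (MV γ L t) (cV γ lam * √t)
        linarith
      linarith
    have h5 := mul_le_mul_of_nonneg_right he2 hW0
    linarith

/-- exponentially many values above the threshold -/
theorem above (h : S_LowAll) {γ lam : ℝ} (hG : IsG γ) (hl1 : 1 / γ < lam) :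
    ∃ c : ℝ, 0 < c ∧ ∃ t₀ : ℕ, ∀ t : ℕ, t₀ ≤ t → ∀ n : ℤ, Real.exp (c * t) ≤ Vn ⌊Real.exp (lam * t)⌋₊ t n := by
  have hγ : 0 < γ := by linarith [hG.1]
  have hl : 0 < lam := lt_trans (by positivity) hl1
  set d := (lam - 1 / γ) / 2 with hd
  have hd0 : 0 < d := by rw [hd]; linarith
  obtain ⟨c₀, hc₀, hlow⟩ := h γ hG d hd0
  obtain ⟨t₁, hfl⟩ := floor_log hl
  obtain ⟨t₂, ht₂⟩ := exists_nat_ge (2 / d * (1 + |Real.log c₀|))
  refine ⟨d / 2, by positivity, t₁ + t₂, fun t ht n => ?_⟩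
  obtain ⟨f1, f2, f3⟩ := hfl t (by omega)
  set L := ⌊Real.exp (lam * t)⌋₊ with hL
  have hLr : (0 : ℝ) < L := by exact_mod_cast f1
  have h1 := hlow L t n f1
  refine le_trans ?_ h1
  have h2 : c₀ * L * Real.exp (-((1 / γ + d) * t)) = Real.exp (Real.log c₀ + Real.log L - (1 / γ + d) * t) := by
    rw [Real.exp_sub, Real.exp_add, Real.exp_log hc₀, Real.exp_log hLr, Real.exp_neg]
    rfl
  rw [h2]
  apply Real.exp_le_exp.2
  have h3 : (t₂ : ℝ) ≤ t := by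
    have : t₂ ≤ t := by omega
    exact_mod_cast this
  have h4 : 1 + |Real.log c₀| ≤ d / 2 * t := by
    have h5 : 2 / d * (1 + |Real.log c₀|) ≤ t := ht₂.trans h3
    have h6 := mul_le_mul_of_nonneg_left h5 (show 0 ≤ d / 2 by positivity)
    have h7 : d / 2 * (2 / d * (1 + |Real.log c₀|)) = 1 + |Real.log c₀| := by field_simp
    linarith
  have h5 := neg_abs_le (Real.log c₀)
  have h6 : lam * t - (1 / γ + d) * t = d * t := by rw [hd]; ring
  linarith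

end Pool.Agent.Q74.BT
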