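import Pool.Agent.Q74.BL.Fin
import Pool.Agent.Q74.KP.Main
import Pool.Agent.Q74.KP.Expl
import Pool.Agent.H395R2.G3.Main
import Pool.Agent.H422R2.QA.QAApp

/-!
# Project BT: when do `L` consecutive integers merge? (lemma jobs)

`T` is the 3x+1 map on the integers (`Pool.Agent.Q158.Pair.T`), `oc t x` the number of odd terms among the first `t`.
A block `n, n+1, ..., n+L-1` is followed for `t` steps. With the base `n = 2^t N + x`, `0 ≤ x < 2^t`, the term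
`T^t (n+j)` is `3^a N + b` with `(a, b) = nx t x (0, j) = (oc t (x+j), T^t (x+j))`: these forms are the set `VV L t x`.
`EE t F` is the average of `F` over the residues modulo `2^t`.

THEOREM A: with `γ = γ_RRW = 41.677...` (the constant of the repeated random walk model) every interval of `L` integers has
at least `c L exp(-(1/γ+ε) t)` values under `T^t`, and in the mean there are at most `C (1 + t + L exp(-(1/γ-ε) t))`; for
`t ≥ (γ+ε) log L` the mean is `1 +` order of `log L / √t`. So blocks of length `L` coalesce exactly at the time `γ log L`.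

THEOREM B: the probability that `T^t` is not constant on a block of `L` integers is `Erf (D log L / √t) + o(1)`, uniformly in
`L`, with `D = γ (log 2/log 3 - 1/2) - 1/log 3 + 1/(2 log 2) = 5.268`: the time at which the block has merged has a limit law.
-/

set_option autoImplicit false

namespace Pool.Agent.Q74.BT

open Finset
open Pool.Agent.Q158.Pair (T surv nc)
open Pool.Agent.Q74.AR (oc bE)
open Pool.Agent.Q74.KP (EE Erf)
open Pool.Agent.Q74.BL (nx ww)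
open Pool.Agent.H395R2.G3 (rr FF rate)

/-- all that is needed about the constant `γ = γ_RRW` (see `Pool.Agent.H395R2.G3.exists_gamma`, `rr_spec`, `rate_eq`:
`1/γ = log 2 - rr γ * log 3`, `FF r = binEntropy r - r log 3`, so `1/γ = log 2 - binEntropy (rr γ)`, `rr γ = 0.609...`). -/
def IsG (γ : ℝ) : Prop :=
  41.6776 < γ ∧ γ < 41.6777 ∧ FF (rr γ) = 0 ∧ ∀ α : ℝ, 1 / Real.log 2 < α → α < γ → 0 < FF (rr α)

/-- the forms of a block of `L` integers after `t` steps (for the base `x`) -/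
noncomputable def VV (L t : ℕ) (x : ℤ) : Finset (ℕ × ℤ) := (range L).image (fun j : ℕ => nx t x (0, (j : ℤ)))

/-- the number of different values of `T^t` on `n, n+1, ..., n+L-1` -/
noncomputable def Vn (L t : ℕ) (n : ℤ) : ℕ := ((range L).image (fun j : ℕ => T^[t] (n + j))).card

/-- the potential of a set of forms -/
noncomputable def QQ (η : ℝ) (V : Finset (ℕ × ℤ)) (θ : ℝ) : ℝ := ∑ z ∈ V, (1 + |ww θ z|) ^ η

/-- its mean factor in one step -/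
noncomputable def la (η : ℝ) : ℝ := ((2 : ℝ) ^ (-η) + (3 / 2 : ℝ) ^ η) / 2

/-- the constant `D` -/
noncomputable def DD (γ : ℝ) : ℝ := γ * (rr γ - 1 / 2) + 1 / (2 * Real.log 2)

/-- JOB Kap. For every `ε > 0` there are `0 < η < 1` and `la η < q < 1` with `-log q ≥ (1+η)(1/γ-ε)`.
PROOF. Let `r = rr γ` (numerically 0.6091: prove `1/2 < r < 3/4` from `1/γ = log 2 - r log 3` (`rr_spec`), the bounds of `γ`
and `Real.log_two_gt_d9, log_two_lt_d9, log_three_gt_d9, log_three_lt_d9`). `FF r = 0` says `binEntropy r = r log 3`, so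
`1/γ = log 2 - binEntropy r`. In `H395R2.G3.term_eq` the supremum is attained at `θ = (log (1-r) - log r)/log 3`; put
`η = -θ = log (r/(1-r))/log 3`, so `0 < η < 1` because `1 < r/(1-r) < 3`. Then `θ (log 2 - r log 3) - log M(θ) = log 2 - binEntropy r`
with `M(θ) = (2^θ + (2/3)^θ)/2 = la η`, so `-log (la η) = 1/γ + η/γ = (1+η)/γ > 0`. Take `q = la η * exp(δ)`, `δ > 0` small
(`δ ≤ (1+η) ε` and `δ < (1+η)/γ`). -/
def S_Kap : Prop := ∀ γ : ℝ, IsG γ → ∀ ε : ℝ, 0 < ε → ∃ η q : ℝ, 0 < η ∧ η < 1 ∧ la η < q ∧ q < 1 ∧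
  (1 + η) * (1 / γ - ε) ≤ -Real.log q

/-- JOB Pot. The mean potential. Same scheme as `Pool/Agent/Q74/BL/Nx.lean` and `Pot.lean` (there `η = 1/2` and blocks of
`u` steps; here general `η` and one step at a time).
PROOF. Write `g w = (1+|w|)^η`. `g (w/2) ≤ 2^(-η) (g w + 1)` (`1+|w|/2 = (2+|w|)/2`, `Real.rpow_add_le_add_rpow`/subadditivity)
and `g ((3w+1)/2) ≤ (3/2)^η g w` (`1+|(3w+1)/2| ≤ 3/2 (1+|w|)`). So `(g (w/2) + g ((3w+1)/2))/2 ≤ la η * g w + 1/2`, which is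
`≤ q g w` if `|w| ≥ X/2 - 1`, `X` large. Let `gX w = g w` if `|w| > X`, `0` otherwise. For `|w| < X/2 - 1`, both `w/2` and `(3w+1)/2` are in
`[-X,X]`, so `(gX (w/2) + gX ((3w+1)/2))/2 ≤ q g w` for ALL `w`. One step: split `V.image (nx 1 x)` into `|w| ≤ X` (at most
`(A+2)(2X+1)` forms, `BL.card_close`, each of potential `≤ g X`) and `|w| > X` (at most the sum of `gX` over `V`, `BL.sum_image_le'`),
and average with `BL.Au_avg` (`u = 1`). Hence `EE 1 (...) ≤ (A+2)(2X+1) g X + q QQ η V θ`; iterate with `BL.EE_split`, `BL.nx_add`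
as in `BL.Q_iter` (the levels grow by at most 1 per step: `BL.nx_lev`) and sum the geometric series. -/
def S_Pot : Prop := ∀ η q : ℝ, 0 < η → η < 1 → la η < q → q < 1 → ∃ K : ℝ, 0 < K ∧
  ∀ (A : ℕ) (V : Finset (ℕ × ℤ)), (∀ z ∈ V, z.1 ≤ A) → ∀ (θ : ℝ) (t : ℕ),
    EE t (fun x => QQ η (V.image (nx t x)) ((θ + x) / 2 ^ t)) ≤ K * (1 + A + t) + q ^ t * QQ η V θ

/-- JOB Cnt. The mean number of forms. Prove `cnt (h : S_Pot) : S_Cnt`.
PROOF. `VV L t x = (VV L 0 0).image (nx t x)` (`BL.nx_add` with `s = 0`, or directly), all levels of `VV L 0 0` are `0`, and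
`QQ η (VV L 0 0) 0 ≤ L (1+L)^η`. All levels of `VV L t x` are `≤ t` (`AR.oc_le`). For any natural `Y ≥ 0`: the forms with
`|w| ≤ Y` are at most `(t+1)(2Y+1)` (`BL.card_close`, `θ = x/2^t`), the others at most `QQ η (VV L t x) (x/2^t) / (1+Y)^η`. So
`EE t card ≤ (t+1)(2Y+1) + (K(1+t) + q^t L (1+L)^η)/(1+Y)^η`. Take `Y = ⌊L q^(t/(1+η))⌋`: `(1+Y)^η ≥ (L q^(t/(1+η)))^η` and
`(1+Y)^η ≥ 1`, and `q^t L (1+L)^η ≤ 2 q^t L^(1+η)`, `q^t L^(1+η)/(L q^(t/(1+η)))^η = L q^(t/(1+η))`. -/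
def S_Cnt : Prop := ∀ η q : ℝ, 0 < η → η < 1 → la η < q → q < 1 → ∃ K : ℝ, 0 < K ∧ ∀ L t : ℕ, 1 ≤ L →
  EE t (fun x => ((VV L t x).card : ℝ)) ≤ K * (1 + t) * (1 + L * q ^ ((t : ℝ) / (1 + η)))

/-- JOB Tree. The mean number of forms after `r` more steps, from the potential. This is `BL.val_le` + `BL.Dr_mean` for forms
instead of values and with a general exponent.
PROOF. As in `Pool/Agent/Q74/BL/Up.lean`: `BL.card_tree` (copy it for `f : ℕ × ℤ → ℕ × ℤ`; put `f z = nx r N z`), with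
the main line `BL.ml θ a = ⌊3^a θ⌋`: `card (V.image f) ≤ 1 + ∑_{a<A} [f (a, ml a) ≠ f (a+1, ml (a+1))] + ∑_{z∈V} [f z ≠ f (z.1, ml z.1)]`.
If the pair has met by the rules of the chain (`Co r z x`) then the FORMS are equal: `KP.Co_ps` says `ps r z x = (0,0)` and
`AR.ps_pair` gives both `T^[r] x = T^[r] (3^a x + b)` and `a + oc r (3^a x+b) = oc r x`. So each indicator is at most an `nc`
(`BL.nc_ge`), whose average is `surv` (`BL.EE_nc`), and `surv_le` bounds it by `C (1 + a + √(log (2+|b|)))/√r`, with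
`√(log (2 + |b|)) ≤ C_η (1+|w|)^η`. -/
def S_Tree : Prop := ∀ η : ℝ, 0 < η → ∃ C : ℝ, 0 < C ∧ ∀ (A : ℕ) (V : Finset (ℕ × ℤ)), (∀ z ∈ V, z.1 ≤ A) →
  ∀ (θ : ℝ) (r : ℕ), 1 ≤ r → EE r (fun N => ((V.image (nx r N)).card : ℝ)) ≤ 1 + C / √r * (A + QQ η V θ)

/-- JOB Mean. Prove `mean (h1 : S_Kap) (h2 : S_Pot) (h3 : S_Tree) : S_Mean`.
PROOF. Let `ε₁ = ε/2`. From `S_Kap` with a small `ε'` take `η, q` with `-log q ≥ (1+η)(1/γ-ε')` where
`(γ+ε₁)(1/γ-ε') ≥ 1`, so that `q^s L^(1+η) ≤ 1` for `s ≥ (γ+ε₁) log L`. Put `s = ⌈(γ+ε₁) log L⌉`, `t = s + r`; for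
`(γ+ε) log L ≤ t` and `L ≥ L₁` we have `r ≥ c t`, `r ≥ 1` (for `2 ≤ L < L₁`, `t` large use the same; for the finitely many
`(L,t)` with `L < L₁`, `t < t₁` use `card ≤ L`). Then `EE t F = EE s (x ↦ EE r (N ↦ F (2^s N + x)))` (`BL.EE_split`),
`VV L t (2^s N + x) = (VV L s x).image (nx r N)` (`BL.nx_add`), `S_Tree` with `A = s`, `θ = x/2^s`, and `S_Pot` with `V = VV L 0 0`, `θ = 0`:
`EE s (QQ η (VV L s x) (x/2^s)) ≤ K (1+s) + q^s L (1+L)^η ≤ K (1+s) + 2`. Total `≤ C'/√r (s+1) ≤ C'' log L/√t`. -/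
def S_Mean : Prop := ∀ γ : ℝ, IsG γ → ∀ ε : ℝ, 0 < ε → ∃ C : ℝ, 0 < C ∧ ∀ L t : ℕ, 2 ≤ L →
  (γ + ε) * Real.log L ≤ t → EE t (fun x => ((VV L t x).card : ℝ) - 1) ≤ C * (Real.log L / √t)

/-- JOB Blk. Words with exactly `n` odd steps and exactly `s` steps back from every `y` prime to 3, `s log 2 - n log 3` close
to `s/γ`.
PROOF. Uses QUENCHED = ANNEALED of the starting library (`Pool.Agent.H422R2.QA.main`) exactly as `words` in
`Pool/Agent/H395R2/G3/Count.lean`: for `r < rr γ`, `0 < FF r` (take `r = rr α`, `α < γ` close to `γ`; `rr_spec`: `1/α = log 2 - r log 3`),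
for every `δ > 0` there is a cap `E ≥ 16` with `|az (1-r) E - 1/r| ≤ δ` and `Gz 3 (1-r) E > 0` (`exists_cap`), and then for all
`n ≥ n₀` and ALL `y` prime to 3 there is `s(y)`, `|s(y) - az n| ≤ δ n`, with at least `exp(..) > 0` words in `Nq 3 E n s(y) y`: at least one word `w`,
`w ∈ FW E n`, `w.sum = s(y)`, `Lv 3 w y`. To make the size independent of `y`, append connecting words: the library has
`conn_three : Conn 3 E 3 16` (from every `y` prime to 3 a live word with 3 letters and size exactly 16, for every target class);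
prove in the same way `Conn 3 E 3 17` (or any other size, or two consecutive sizes with the same number of letters), so with
`k` connecting words one gets 3k letters and any size between `16 k` and `17 k`. With `k = ⌈2δn⌉+1` the total size
can be made the same for all `y`. Total letters `n' = n+3k`, total size `s'`; `s'/n' → 1/r` as `δ → 0`, so
`s' log 2 - n' log 3 = s' (log 2 - r log 3 + small) ≤ (1/γ + ε) s'`, and it is `> 0` because `log 2 - r log 3 = 1/α > 0`.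
The endpoint `x = Ep 3 w y` satisfies `3^n x = 2^s y - Wq 3 w` (`Ep`, `Vd`), `0 ≤ Wq 3 w ≤ 3^n 2^s` (induction on `w`), and
`T^[s] x = y` (`QAApp.iter_Ep`, with `TZ 3 = T`); the number of odd terms is `n` (induction on the word: each letter `e` is one odd step
followed by `e-1` even steps). -/
def S_Blk : Prop := ∀ γ : ℝ, IsG γ → ∀ ε : ℝ, 0 < ε → ∃ n s : ℕ, 1 ≤ n ∧ 3 ^ n < 2 ^ s ∧
  (s : ℝ) * Real.log 2 - n * Real.log 3 ≤ (1 / γ + ε) * s ∧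
  ∀ y : ℤ, ¬ (3 : ℤ) ∣ y → ∃ x : ℤ, ¬ (3 : ℤ) ∣ x ∧ T^[s] x = y ∧ oc s x = n ∧
    |3 ^ n * x - 2 ^ s * y| ≤ 3 ^ n * 2 ^ s

/-- JOB Low. Prove `low (h : S_Blk) : S_LowAll ∧ S_TopAll` (this and the next statement).
PROOF. Iterating the block lemma `K` times: for every `y` prime to 3 there is `x_K` prime to 3 with `T^[K s] x_K = y`,
`oc (K s) x_K = K n` (`KP.oc_add`) and, with `ρ = 2^s/3^n > 1`, `|x_K - ρ^K y| ≤ C₁ ρ^K`, `C₁ = 2^s/(ρ-1)`
(`x_{i+1} = ρ x_i + δ_i`, `|δ_i| ≤ 2^s`). So all `y` prime to 3 with `m + C₁ ρ^K ≤ ρ^K y < m + L - C₁ ρ^K` are in `T^[K s]` of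
`{m, ..., m+L-1}`: at least `(2/3)(L ρ^(-K) - 2 C₁) - 2` of them. For `t = K s + i`, `i < s`: `T^[i]` is at most `2^i` to one (`T x = y` has
at most two solutions), so `Vn L t m ≥ Vn L (K s) m / 2^s`. Finally `ρ^K = exp ((s log 2 - n log 3) K) ≤ exp ((1/γ+ε) K s)`;
if `L ρ^(-K)` is bounded use `Vn ≥ 1`. -/
def S_LowAll : Prop := ∀ γ : ℝ, IsG γ → ∀ ε : ℝ, 0 < ε → ∃ c : ℝ, 0 < c ∧ ∀ (L t : ℕ) (m : ℤ), 1 ≤ L →
  c * L * Real.exp (-((1 / γ + ε) * t)) ≤ Vn L t m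

/-- second half of JOB Low: in every block some trajectory has a high frequency of odd terms almost until time `γ log L`.
PROOF. Take `K` maximal with `L ρ^(-K) ≥ 2 C₁ + 4` and `K s ≤ γ log L`; there is `y` prime to 3 with `x_K` in the block. `u = K s`, which is
`≥ (1-ε) γ log L` for `L` large because `s log 2 - n log 3 ≤ (1/γ+ε') s`; `n/s = (log 2 - (s log 2 - n log 3)/s)/log 3 ≥ rr γ - ε'/log 3`. -/
def S_TopAll : Prop := ∀ γ : ℝ, IsG γ → ∀ ε : ℝ, 0 < ε → ∃ L₀ : ℕ, ∀ L : ℕ, L₀ ≤ L → ∃ u : ℕ,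
  (1 - ε) * (γ * Real.log L) ≤ u ∧ (u : ℝ) ≤ γ * Real.log L ∧
  ∀ m : ℤ, ∃ j : ℕ, j < L ∧ (rr γ - ε) * u ≤ oc u (m + j)

/-- JOB MeanW. Means over intervals. Prove `meanW (h : S_Mean) : S_MeanW`.
PROOF. Upper bound: `Vn L t n ≤ (VV L t n).card` (the value is the second coordinate), `(VV L t ·).card` is periodic modulo `2^t`
(`BL.T_add`, `AR.oc_per`: `VV L t (x + 2^t j)` is the image of `VV L t x` under the injection `(a,b) ↦ (a, b + 3^a j)`), so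
`BL.sum_per_le` applies to `card - 1`. Lower bound: `BL.mean_low` with `A = 0` and `B = B'`: the block
`[n, n+2B']` is the family `|b| ≤ B'` around `n+B'`, and `Vn` is monotone in `L`; choose `B' = ⌊L^β⌋` or so, `β` small,
`1 ≤ B'`, `2B'+1 ≤ L`, such that `C₁ (1 + log (1+B')) ≤ γ log L ≤ t`: possible for `L ≥ L₁`; for `3 ≤ L < L₁` use `BL.lowP` with
`B' = 1` (`Vn ≥ 2` with frequency `≥ c min(1, 1/√t)`). -/
def S_MeanW : Prop := ∀ γ : ℝ, IsG γ → ∀ ε : ℝ, 0 < ε → ∃ c C : ℝ, 0 < c ∧ 0 < C ∧ ∀ L t : ℕ, 3 ≤ L →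
  (γ + ε) * Real.log L ≤ t → ∀ (M : ℤ) (W : ℕ), 64 * t * 2 ^ t ≤ W →
  (1 + c * (Real.log L / √t)) * W ≤ ∑ n ∈ Ico M (M + W), (Vn L t n : ℝ) ∧
  ∑ n ∈ Ico M (M + W), (Vn L t n : ℝ) ≤ (1 + C * (Real.log L / √t)) * W

/-- JOB UpW. Prove `upW (h1 : S_Kap) (h2 : S_Cnt) : S_UpW`.
PROOF. `S_Kap` with `ε/2` and `S_Cnt`: `EE t card ≤ K (1+t)(1 + L q^(t/(1+η)))`, `q^(t/(1+η)) ≤ exp (-(1/γ-ε/2) t)` and
`(1+t) exp (-ε t/2) ≤ C`. Then intervals as in JOB MeanW (`Vn ≤ card`, periodic, `BL.sum_per_le`). -/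
def S_UpW : Prop := ∀ γ : ℝ, IsG γ → ∀ ε : ℝ, 0 < ε → ∃ C : ℝ, 0 < C ∧ ∀ L t : ℕ, 1 ≤ L →
  ∀ (M : ℤ) (W : ℕ), 2 ^ t ≤ W →
  ∑ n ∈ Ico M (M + W), (Vn L t n : ℝ) ≤ C * (1 + t + L * Real.exp (-((1 / γ - ε) * t))) * W

/-- JOB Sim. All lengths and all times at once. Prove `sim (h : S_UpW) : S_Sim`.
PROOF. It is enough to treat `W ≥ 1` and `L₀ ≥ L₁(ε)` (otherwise the bound is trivial if `C ≥ L₁^δ`). For `L = 2^k` and
`t ≤ 2 γ k log 2 + 2` with `2^t ≤ W`, Markov's inequality and `S_UpW` with a small `ε'`: the frequency of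
`Vn L t n > L^(ε/2) (1 + L exp (-t/γ))` is at most `C (1 + t + L exp (-(1/γ-ε') t))/(L^(ε/2) (1 + L exp (-t/γ))) ≤ C' L^(-ε/4)`
(`exp (ε' t) ≤ C L^(2 γ ε')`). Sum over `t ≤ 2 γ k log 2 + 2` and over `2^k ≥ L₀`. Given `L ≥ L₀` let `2^k` be the smallest power of two
`≥ L`; `Vn` is monotone in `L`; `Vn` is antitone in `t`, which reduces `t > 2 γ k log 2 + 1` to the last time `≤ 2 γ k log 2 + 2`,
where `L exp(-t/γ) ≤ 1`. -/
def S_Sim : Prop := ∀ γ : ℝ, IsG γ → ∀ ε : ℝ, 0 < ε → ∃ C δ : ℝ, 0 < C ∧ 0 < δ ∧ ∀ L₀ : ℕ, 1 ≤ L₀ →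
  ∀ (M : ℤ) (W : ℕ),
  ({n : ℤ | M ≤ n ∧ n < M + W ∧ ∃ L t : ℕ, L₀ ≤ L ∧ 2 ^ t ≤ W ∧
    (L : ℝ) ^ ε * (1 + L * Real.exp (-(t / γ))) < Vn L t n}.ncard : ℝ) ≤ C * W / (L₀ : ℝ) ^ δ

/-! ### Theorem B -/

/-- JOB Top. The highest level at times `≥ γ log L`.
PROOF. Union bound over `j < L`. `EE t [oc t (x+j) ≥ (r+ε) t] = bE t [· ≥ (r+ε) t]` (`KP.EE_inc` with `S = 0`, `KP.EE_shift`; the number
of odd terms is binomial), `r = rr γ`. With `z = r/(1-r) > 1`: `[k ≥ (r+ε) t] ≤ z^(k - (r+ε) t)` and `bE t (z^k) = ((1+z)/2)^t`, so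
the probability is at most `((1+z)/2)^t z^(-rt) z^(-εt) = exp (-t (log 2 - binEntropy r)) z^(-εt) = exp (-t/γ) z^(-εt)`, and
`L exp (-t/γ) ≤ 1`. (`FF r = 0`: `binEntropy r = r log 3`; `1/γ = log 2 - r log 3`.) `c = ε log z`. -/
def S_Top : Prop := ∀ γ : ℝ, IsG γ → ∀ ε : ℝ, 0 < ε → ∃ c : ℝ, 0 < c ∧ ∀ L t : ℕ, 1 ≤ L → γ * Real.log L ≤ t →
  EE t (fun x => Set.indicator {x : ℤ | ∃ z ∈ VV L t x, (rr γ + ε) * t ≤ z.1} 1 x) ≤ Real.exp (-(c * t))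

/-- JOB Bot. The lowest level at times `≤ C log L`.
PROOF. Fix `x` and `j < L`, put `(a_i, b_i) = nx i x (0,j)` and `w_i = ww (x/2^i) (a_i,b_i) ≥ 0`, that is
`w_i = T^[i] (x+j) - 3^(oc i (x+j)) x / 2^i` (`w_0 = j`, `w_{i+1} = w_i/2` or `(3 w_i + 1)/2`). Let `X` be a large constant and `u ≤ t` the
first time with `w_u ≤ X`, or `u = t`. While `w_i ≥ X`: `w_i/2 + 1 ≤ (w_i+1)/2 (1 + 1/X)` and `(3w_i+1)/2 + 1 = 3 (w_i+1)/2`. So
`1 ≤ w_u + 1 ≤ L (1+1/X)^u 3^(a_u)/2^u`, hence `u log 2 ≤ a_u log 3 + log L + u/X ≤ a_u log 3 + (1+C/X) log L`, and, as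
`log 3 < 2 log 2`, `a_u - u/2 ≥ a_u (1 - log 3/(2 log 2)) - (1+C/X) log L/(2 log 2) ≥ -(1+C/X) log L/(2 log 2)`. If `u = t` this is the
claim. If `u < t` (so `w_u ≤ X`), write `x = 2^u x' + x₀`, `0 ≤ x₀ < 2^u`: `nx u x₀ (0,j) = (a_u, b)` with `3^a θ ≤ b ≤ 3^a θ + X`, `θ = x₀/2^u`, and
`oc t (x+j) = a_u + oc (t-u) (3^a x' + b)`. For each `u < t`, `a ≤ u` and each of these at most `X+2` integers `b`, the probability over
`x'` that `oc (t-u) (3^a x' + b) < (t-u)/2 - (ε/2) log L` is at most `exp (-(ε²/2) (log L)²/(t-u)) ≤ L^(-c)` (Hoeffding; Chebyshev is not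
enough because of the union bound: `bE t (exp (s (k - t/2))) = (cosh (s/2))^t ≤ exp (s² t/8)`, `Real.cosh_le_exp_half_sq`). The union bound over
`u, a, b` costs `(C log L + 1)^2 (X+2)`. -/
def S_Bot : Prop := ∀ C ε : ℝ, 0 < C → 0 < ε → ∃ L₀ : ℕ, ∀ L : ℕ, L₀ ≤ L → ∀ t : ℕ, (t : ℝ) ≤ C * Real.log L →
  EE t (fun x => Set.indicator {x : ℤ | ∃ z ∈ VV L t x, (z.1 : ℝ) < t / 2 - (1 / (2 * Real.log 2) + ε) * Real.log L} 1 x) ≤ ε

/-- JOB Walk. After the time `(γ+ε) log L` there are few forms, and none of them moves by more than `ε log L` levels until the time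
`δ (log L)²`. Prove `walk (h : S_Mean) : S_Walk`.
PROOF. One stage: for `s ≤ t' ≤ t'+v`, `v ≤ t'`, `h > 0`:
`P(∃ j < L, |oc (t'+v) (x+j) - oc t' (x+j) - v/2| > h) ≤ E (card (VV L t' x)) · 2 exp (-2h²/v)`, because for
`x = 2^t' x' + x₀` one has `oc (t'+v) (x+j) - oc t' (x+j) = oc v (3^a x' + b)`, `(a,b) = nx t' x₀ (0,j) ∈ VV L t' x₀` (`KP.oc_add`, `BL.T_add`), and for
fixed `(a,b)` the law over `x'` mod `2^v` is binomial (`KP.EE_aff`, `KP.EE_inc`), Hoeffding: `bE v (exp (s (k - v/2))) = (cosh (s/2))^v ≤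
exp (s² v/8)` (`Real.cosh_le_exp_half_sq`). By `S_Mean`, `E card ≤ 1 + C log L/√t'`. Let `y = log L/√t'` and `h = √(log L) · t'^(1/4)`: the stage
fails with probability `≤ 2 (1 + C y) exp (-2y) ≤ C' /y = C' √t'/log L`. Now induct on the number of doublings (strong induction on `t`):
for all `t` with `s ≤ t`: `P(∃ j, |oc t (x+j) - oc s (x+j) - (t-s)/2| > C₁ √(log L) t^(1/4)) ≤ C₂ √t/log L`: for `t > 2s` go from
`t' = ⌈t/2⌉` to `t`; `(1/2)^(1/4) < 1` absorbs the new terms. Finally `t ≤ δ (log L)²` gives `C₁ δ^(1/4) log L` and `C₂ √δ`. -/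
def S_Walk : Prop := ∀ γ : ℝ, IsG γ → ∀ ε : ℝ, 0 < ε → ∃ δ : ℝ, 0 < δ ∧ ∃ L₀ : ℕ, ∀ L : ℕ, L₀ ≤ L → ∀ s t : ℕ,
  (γ + ε) * Real.log L ≤ s → s ≤ t → (t : ℝ) ≤ δ * Real.log L ^ 2 →
  EE t (fun x => Set.indicator {x : ℤ | ∃ j : ℕ, j < L ∧
    ε * Real.log L < |(oc t (x + j) : ℝ) - oc s (x + j) - ((t : ℝ) - s) / 2|} 1 x) ≤ ε

/-- JOB Pin. At most `k` forms with levels in a segment of length `R` have merged after `r` steps except with probability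
`Erf (R/√r) + ε`.
PROOF. Let `z₀`, `z₁` be forms of `V` of smallest and largest level. For a pair `z = (a,b)`, `z' = (a',b')`, `a ≤ a'`, the base point `y = 3^a N + b` and
the state `(a'-a, b'-3^(a'-a) b)` describe the pair; `nc r state y` is the indicator that they have not met (`Co`; if they have met the
forms `nx r N z`, `nx r N z'` are equal, see JOB Tree), and `lv r state y` (`KP.lv`, `Avg.lean`) the indicator that their levels have never been equal at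
the times `≤ r`; `lv ≤ nc` (`KP.lv_le_nc`). The averages over `N` mod `2^r` are `surv r state` (`BL.EE_nc`) and `qq r state` (`KP.lv_mean`,
`KP.EE_aff`), and both are within `ε'` of `lim r (a'-a)` (`AR.surv_main`, `AR.qq_main`; `be state ≤ exp (ρ r)` is the hypothesis).
Deterministic fact: if `lv = nc` for all the pairs `(z₀,z)`, `(z,z₁)`, `(z₀,z₁)` and `z₀, z₁` have met, then all the forms have
met: the levels `a_i + oc s (..)` move by `0` or `1` per step, the level of `z` is between those of `z₀` and `z₁` at time 0, the levels of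
`z₀` and `z₁` are equal at some time `≤ r`, so by discrete continuity `z` has at some time `≤ r` the level of `z₀` or of `z₁` (`AR.ps_pair`, as in
`KP.no_cross`); then `lv = 0`, so `nc = 0` for that pair. So the probability of `2 ≤ card` is at most
`surv(z₀,z₁) + ∑ (surv - qq) ≤ lim r (a₁-a₀) + (4k+4) ε'`, and `lim r a` is within `ε'` of `Erf (a/√r)` — `KP.pf_lim`, `AR.lim`,
`KP.Lim2` (`lim r a = 2 Φ(a/√(r/2)) - 1 = Erf (a/√r)`) — and `Erf` is increasing. -/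
def S_Pin : Prop := ∀ (k : ℕ) (ε : ℝ), 0 < ε → ∃ ρ : ℝ, 0 < ρ ∧ ∃ r₀ : ℕ, ∀ r : ℕ, r₀ ≤ r →
  ∀ V : Finset (ℕ × ℤ), V.card ≤ k →
  (∀ z ∈ V, ∀ z' ∈ V, z.1 ≤ z'.1 → |(z'.2 : ℝ) - 3 ^ (z'.1 - z.1) * z.2| ≤ 3 ^ (z'.1 - z.1) * Real.exp (ρ * r)) →
  ∀ R : ℝ, 0 ≤ R → (∀ z ∈ V, ∀ z' ∈ V, (z'.1 : ℝ) - z.1 ≤ R) →
  EE r (fun N => Set.indicator {N : ℤ | 2 ≤ (V.image (nx r N)).card} 1 N) ≤ Erf (R / √r) + ε

/-- JOB Up. Prove `up (h1 : S_Kap) (h2 : S_Pot) (h3 : S_Mean) (h4 : S_Top) (h5 : S_Bot) (h6 : S_Walk) (h7 : S_Pin) : S_Up`.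
PROOF. Let `ℓ = log L`. If `ℓ ≥ M √t` the right side is `≥ 1` (`M` large, `Erf → 1`). If `ℓ ≤ κ √t` then by `S_Mean` and Markov the left
side is `≤ C κ ≤ ε` (`L ≥ 2`, `t ≥ 100 ℓ`; `L = 1` trivial). Otherwise `L` is large as `t → ∞`. Put `s = ⌈(γ+ε₁) ℓ⌉`, `t₂ = ⌊δ ℓ²⌋` (`δ` small,
so also `t₂ ≤ ε₁ t`). Bad events for `x` modulo `2^t₂` (each of probability `≤ ε₂`; those at time `s` are transported by periodicity): a form
of `VV L s x` has level `≥ (rr γ+ε₁) s` (`S_Top`), or `< s/2 - (1/(2 log 2)+ε₁) ℓ` (`S_Bot`); some trajectory moves by more than `ε₁ ℓ` between `s` and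
`t₂` (`S_Walk`); `card (VV L t₂ x) > k` (`S_Mean`: `E card ≤ 1 + C ℓ/√t₂ ≤ C/√δ + 2`, Markov); some form of `VV L t₂ x` has `|w| > Y`,
`θ = x/2^t₂`, `Y = (K (2+t₂)/ε₂)^(1/η)` (`S_Kap`, `S_Pot` and Markov: the mean potential at time `t₂` is `≤ K (1+t₂) + 1`); `Y` is at most a power of `t`.
Outside these events all the levels of `VV L t₂ x` are in a segment of length
`R = (rr γ - 1/2) s + ε₁ s + ℓ/(2 log 2) + 4 ε₁ ℓ ≤ (DD γ + C ε₁) ℓ`, and `|b' - 3^(a'-a) b| = |w' - 3^(a'-a) w| ≤ 2 · 3^(a'-a) Y`. Order of the choices: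
`ε₁`, `δ`, `k`, then `ρ, r₀` from `S_Pin`, then `t₀` (so that `2 Y ≤ exp (ρ r)`). Apply `S_Pin` with `r = t - t₂` to `V = VV L t₂ x`:
`EE t = EE t₂ (EE r ...)` (`BL.EE_split`, `BL.nx_add`) and `Erf (R/√r) ≤ Erf (DD γ ℓ/√t) + C ε₁` (`Erf` is increasing with derivative `≤ 2`). -/
def S_Up : Prop := ∀ γ : ℝ, IsG γ → ∀ ε : ℝ, 0 < ε → ∃ t₀ : ℕ, ∀ t : ℕ, t₀ ≤ t → ∀ L : ℕ, 1 ≤ L →
  EE t (fun x => Set.indicator {x : ℤ | 2 ≤ (VV L t x).card} 1 x) ≤ Erf (DD γ * Real.log L / √t) + ε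

/-- JOB Lo. Prove `lo (h : S_TopAll) : S_Lo`.
PROOF. Let `ℓ = log L`. `Vn` is monotone in `L`, so if `ℓ > M √t` replace `L` by a smaller one with `ℓ ≈ M √t` (`Erf (DD γ M) ≥ 1 - ε/2`). If
`ℓ ≤ κ √t` then `Erf (..) ≤ ε`, trivial. Otherwise `L` is large. Let `u` be as in `S_TopAll` (with a small `ε₁`), `u₂ = ⌊log₂ L⌋ ≤ u`. For
each residue `x` modulo `2^u` let `j₁ = j₁(x) < L` with `oc u (x+j₁) ≥ (rr γ - ε₁) u`, and `j₂ < 2^u₂ ≤ L` with `2^u₂ ∣ x+j₂`: then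
`oc u₂ (x+j₂) = 0` and `T^[u₂] (x+j₂) = (x+j₂)/2^u₂ = ⌈x/2^u₂⌉`, which is equidistributed modulo `2^(u-u₂)`: except for a proportion
`≤ C/(ε₁² ℓ)` of the `x` (Chebyshev for the binomial law, `KP.bE_dist` or `EE_inc`) `oc u (x+j₂) ≤ (u-u₂)/2 + ε₁ ℓ`. For the good `x` the levels
at time `u` differ by at least `(rr γ - ε₁) u - (u-u₂)/2 - ε₁ ℓ ≥ (DD γ - C ε₁) ℓ`. For `n = 2^u N + x` the two values are
`T^[t-u] (3^a₁ N + b₁)`, `T^[t-u] (3^a₂ N + b₂)`; they are different for at least `(Erf ((a₁-a₂)/√(t-u)) - ε₁) W'` of the `N` of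
any interval of `W' ≥ K 2^(t-u)` integers: `KP.unsorted` with `k = 2`, `d = 1`, `u = 1`, `s = 0`, `g = 1` (`NG 2 = pf`, `KP.pf_lim`, or `KP.pq_close`) or the
corresponding pair theorem in `Pool/Agent/Q74/AR` (`Cnt.lean`, `TdThm.lean`); the offsets satisfy the condition because `|w| ≤ (3/2)^u (L+1) ≤
exp (C ℓ)` and `ℓ ≤ M √t`. Sum over `x`: the `n ≡ x` modulo `2^u` in the window correspond to an interval of at least `W/2^u - 1` values of
`N`. Finally `Erf` is increasing with derivative `≤ 2`. -/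
def S_Lo : Prop := ∀ γ : ℝ, IsG γ → ∀ ε : ℝ, 0 < ε → ∃ t₀ K : ℕ, ∀ t : ℕ, t₀ ≤ t → ∀ L : ℕ, 1 ≤ L →
  ∀ (M : ℤ) (W : ℕ), K * 2 ^ t ≤ W →
  (Erf (DD γ * Real.log L / √t) - ε) * W ≤ ({n : ℤ | M ≤ n ∧ n < M + W ∧ 2 ≤ Vn L t n}.ncard : ℝ)

end Pool.Agent.Q74.BT
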