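import Pool.Agent.Q74.BT.Stm

/-!
# Project BT, part 2: the constant `γ_RRW` and the large deviation law in ALL short intervals (lemma jobs)

THEOREM P: in EVERY interval of `L` integers (anywhere) at least `L^(1 - α g(1/α) - ε)` integers have descended by the factor
`L^(1-δ)` for the first time at a time `(α ± ε) log L`, for every `1/log 2 < α < γ`; so the maximal descent time is at least
`(γ-ε) log L` in every interval, and it is at most `(γ+ε) log L` in all but a proportion `L^(-c)` of the intervals of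
length `L`. This is the analogue for short intervals of the conjecture on the scaled stopping time constant (MP_f7abf1_nt).
-/

set_option autoImplicit false

namespace Pool.Agent.Q74.BT

open Finset
open Pool.Agent.Q158.Pair (T surv nc)
open Pool.Agent.Q74.AR (oc bE)
open Pool.Agent.Q74.KP (EE Erf)
open Pool.Agent.Q74.BL (nx ww)
open Pool.Agent.H395R2.G3 (rr FF rate)

/-- JOB BM. The block lemma with many words (stronger than `S_Blk`).
PROOF. As JOB Blk: `Pool.Agent.H422R2.QA.main` gives, for every `y` prime to 3 and all `n ≥ n₀`, a size `s(y)`, `|s(y) - az n| ≤ δ' n`,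
with at least `exp ((Gz - δ') n)` words in `Nq 3 E n s(y) y`, and `exists_cap` gives `az ≈ 1/r`, `Gz ≈ FF r / r`. Append the SAME kind of
connecting words (`3 k` letters, size between `16 k` and `17 k`, `k = ⌈2δ'n⌉+1`) to make the total size the same for all `y`
(for each word `w` one connecting word from its endpoint; different words `w` give different endpoints after the connection because
the concatenated words are different and words with the same length and the same start have different endpoints: `QAApp.Ep_inj`). Keep exactly `N` of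
them, `N = ⌈exp ((FF r/r - δ) n')⌉` or so, `n' = n + 3k`. The endpoints are prime to 3 (`Lv`). -/
def S_BM : Prop := ∀ r δ : ℝ, 0 < r → r < 1 → 0 < FF r → 0 < δ → ∃ n s N : ℕ, 1 ≤ n ∧
  |(s : ℝ) - n / r| ≤ δ * n ∧ Real.exp ((FF r / r - δ) * n) ≤ N ∧
  ∀ y : ℤ, ¬ (3 : ℤ) ∣ y → ∃ X : Finset ℤ, X.card = N ∧ ∀ x ∈ X, ¬ (3 : ℤ) ∣ x ∧ T^[s] x = y ∧ oc s x = n ∧
    |3 ^ n * x - 2 ^ s * y| ≤ 3 ^ n * 2 ^ s

/-- JOB LDlow. Prove `ldlow (h : S_BM) : S_LDlow`.
PROOF. `r = rr α`, `1/α = log 2 - r log 3 > 0` (`rr_spec`), `0 < FF r`. Take `S_BM` with a small `δ'` (so `ρ = 2^s/3^n > 1`,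
`s log 2 - n log 3 = s (1/α + O(δ'))`, `N ≥ exp ((FF r - O(δ')) s)`). Iterate `K` times: every `y` prime to 3 has `N^K` integers `x` with
`T^[K s] x = y`, `oc (i s) x = i n` for all `i ≤ K` and `|x - ρ^K y| ≤ C₁ ρ^K` (as in JOB Low; different chains give different `x`,
because the chain is the trajectory of `x`). `K` = least with `ρ^K ≥ L^(1-δ)`. The `y` prime to 3 with `m + C₁ ρ^K ≤ ρ^K y < m + L - C₁ ρ^K` exist
(`L ρ^(-K) ≥ L^δ/ρ`); one is enough: `N^K` integers `x` of the block (`N^K ≥ exp ((FF r - O(δ')) K s)`, `K s = α (1-δ) log L (1+O(δ'))`, so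
`N^K ≥ L^(α FF r - O(δ'+δ))`). For them `3^(oc (K s) x) L^(1-δ) ≤ 2^(K s)`, and for `i ≤ (K-C₂) s` the opposite strict inequality, because
between two multiples of `s` the quotient `3^(oc i x)/2^i` changes by a factor at most `2^s`. So the least `k` is between `(K-C₂) s` and `K s`. -/
def S_LDlow : Prop := ∀ γ : ℝ, IsG γ → ∀ α : ℝ, 1 / Real.log 2 < α → α < γ → ∀ ε : ℝ, 0 < ε → ∃ δ₀ : ℝ, 0 < δ₀ ∧
  ∀ δ : ℝ, 0 < δ → δ ≤ δ₀ → ∃ L₀ : ℕ, ∀ L : ℕ, L₀ ≤ L → ∀ m : ℤ,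
  (L : ℝ) ^ (α * FF (rr α) - ε) ≤ ({x : ℤ | m ≤ x ∧ x < m + L ∧
    ∃ k : ℕ, IsLeast {k : ℕ | (3 : ℝ) ^ oc k x * (L : ℝ) ^ (1 - δ) ≤ 2 ^ k} k ∧
      |(k : ℝ) - α * Real.log L| ≤ ε * Real.log L}.ncard : ℝ)

/-- JOB LDup. Upper bounds in the mean.
PROOF. For `α ≥ 2/log (4/3)` (that is `rr α ≥ 1/2`) and `k = ⌊α log L⌋`: if no `i ≤ α log L` has `3^(oc i x) L ≤ 2^i` then
`oc k x log 3 > k log 2 - log L ≥ k (log 2 - 1/α) - 1/α...`, so `oc k x ≥ rr α k - C`. The frequency of these `x` in an interval of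
`W ≥ 2^k` integers is at most twice that modulo `2^k` (`BL.sum_per_le`), and `bE k [· ≥ r k - C] ≤ z^C ((1+z)/2)^k z^(-r k) =
z^C exp (-k (log 2 - binEntropy r))`, `z = r/(1-r) ≥ 1` (see JOB Top), with `α (log 2 - binEntropy r) = 1 - α FF r` (`expo_eq`,
`rate_eq`). For the second statement use `α = γ + ε`: `1 - α FF (rr α) > 1` because `FF (rr α) < 0` for `α > γ` (strict concavity,
`FF_pos_of`, `FF_root_unique`), so the union over the `L` integers of the block costs `L^(1 - (1 - α FF)) = L^(-c)`. -/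
def S_LDup : Prop := ∀ γ : ℝ, IsG γ →
  (∀ α : ℝ, 2 / Real.log (4 / 3) ≤ α → ∃ C : ℝ, 0 < C ∧ ∀ L : ℕ, 2 ≤ L → ∀ (M : ℤ) (W : ℕ), (2 : ℝ) ^ (α * Real.log L) ≤ W →
    ({x : ℤ | M ≤ x ∧ x < M + W ∧ ∀ i : ℕ, (i : ℝ) ≤ α * Real.log L → (2 : ℝ) ^ i < 3 ^ oc i x * L}.ncard : ℝ) ≤
      C * (L : ℝ) ^ (α * FF (rr α) - 1) * W) ∧
  (∀ ε : ℝ, 0 < ε → ∃ c C : ℝ, 0 < c ∧ 0 < C ∧ ∀ L : ℕ, 2 ≤ L → ∀ (M : ℤ) (W : ℕ), (2 : ℝ) ^ ((γ + ε) * Real.log L) ≤ W →
    ({m : ℤ | M ≤ m ∧ m < M + W ∧ ∃ j : ℕ, j < L ∧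
      ∀ i : ℕ, (i : ℝ) ≤ (γ + ε) * Real.log L → (2 : ℝ) ^ i < 3 ^ oc i (m + j) * L}.ncard : ℝ) ≤ C * W / (L : ℝ) ^ c)

end Pool.Agent.Q74.BT
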