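import Pool.Agent.Q74.BT.Stm
import Pool.Agent.Q74.SF.Def

/-!
# Project BT, part 3: the law of the NUMBER of values of `T^t` on `L` consecutive integers (lemma jobs)

THEOREM C: uniformly in `log L ≤ M₀ √t` the number of different values of `T^t` on a block of `L` consecutive integers has, up to an
error `ε` in total variation, the law of the number of places occupied at time `t` by coalescing walkers started from all the
`⌊D log L⌋ + 1` places of a segment, `D = γ (log 2/log 3 - 1/2) - 1/log 3 + 1/(2 log 2)`; the mean number of values is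
`1 + (2/√π) D log L/√t + o(1)`. `CG F t a` (`Pool/Agent/Q74/SF/Def.lean`) are the coalescing walkers.
-/

set_option autoImplicit false

namespace Pool.Agent.Q74.BT

open Finset
open Pool.Agent.Q158.Pair (T surv nc)
open Pool.Agent.Q74.AR (oc bE)
open Pool.Agent.Q74.KP (EE Erf pq)
open Pool.Agent.Q74.BL (nx ww)
open Pool.Agent.Q74.SF (CG)
open Pool.Agent.H395R2.G3 (rr FF rate)

/-- JOB CwMean. The mean number of places of coalescing walkers.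
PROOF. `SF.S_CMono` (`Pool.Agent.Q177.SF.cmono`): the walkers keep their weak order, and for monotone `z` the number of places is
`1 + ∑ i, [z i.succ ≠ z i.castSucc]`. `CG` is linear; `SF.S_Comp` (`Pool.Agent.Q177.SF.comp`) reduces `[z i.succ ≠ z i.castSucc]` to two
walkers, `SF.S_CInj` (`Pool.Agent.Q210.SF.cinj`) to `NG` for two walkers, which is `pq t (difference)` (`KP.Free`: `NG` and `pq` satisfy the same
recursion, `pq_succ`, `pq_init`, `pq_zero`; compare `NG_le_pq`, `KP.Expl.pf`). -/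
def S_CwMean : Prop := ∀ (k t : ℕ) (a : Fin (k + 1) → ℤ), Monotone a →
  CG (fun z => ((univ.image z).card : ℝ)) t a = 1 + ∑ i : Fin k, pq t (a i.succ - a i.castSucc)

/-- JOB CwNet. Prove `cwNet (h : S_CwMean) : S_CwNet`.
PROOF. (1) Subfamilies: for `e : Fin k' → Fin k` and `|φ| ≤ 1`, with `N z` the number of places,
`|CG (φ ∘ N) t a - CG (φ ∘ N) t (a ∘ e)| ≤ 2 (CG N t a - CG N t (a ∘ e))`, because by `SF.S_Comp` both are `CG` of functions of the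
same walkers and `|φ (N z) - φ (N (z ∘ e))| ≤ 2 (N z - N (z ∘ e))`. (2) Times `r ≤ t`: `|CG (φ ∘ N) r a - CG (φ ∘ N) t a| ≤ 2 (CG N r a - CG N t a)`
(`CG F (s+r) a = CG (CG F r) s a`, and `N` does not increase along the walkers: for every `z`, `|CG (φ ∘ N) s z - φ (N z)| ≤ 2 (N z - CG N s z)`).
(3) `pq r g` is concave in `g ≥ 0` and `pq r g ≥ g (pq r 1) (1 - 2 g²/r)` or so: by the reflection principle `pq r g = ∑_{j=1}^{g} c_j` with
`c_j = (C(2r, r+j) + C(2r, r+j-1)... )/4^r` decreasing in `j` (`pq r g = P(-2g < S_{2r} ≤ 2g)`-type formula; prove the sum formula by induction from `pq_succ`, or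
use `KP.pq_close`/`Expl.pf_lim` for gaps of order `δ√t` and concavity), and `C(2r, r+j) ≥ C(2r, r) (1 - 2j²/r)`; also `pq r 1 ≤ 2/√r`.
Now compare the net `a` with the full segment from `a 0` to `a last` (mean difference `∑ (g_i pq r 1 - pq r g_i)`, small because all
`g_i ≤ δ√t`), the full segment with that of length `m` (mean difference `≤ δ√t pq r 1`), and the times `r`, `t`
(`m (pq r 1 - pq t 1)`, small because `(1-δ) t ≤ r ≤ t`; `pq r 1 √r → 2/√π`, or bound `pq r 1 - pq t 1 ≤ C (t-r)/r^(3/2)`). Shifts of the start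
do not matter (`CG` is translation invariant). -/
def S_CwNet : Prop := ∀ M₀ ε : ℝ, 0 < M₀ → 0 < ε → ∃ δ : ℝ, 0 < δ ∧ ∃ t₀ : ℕ, ∀ r t : ℕ, t₀ ≤ t → r ≤ t → (1 - δ) * t ≤ r →
  ∀ m : ℕ, (m : ℝ) ≤ M₀ * √t → ∀ (k : ℕ) (a : Fin (k + 1) → ℤ), Monotone a →
  |((a (Fin.last k) : ℝ) - a 0) - m| ≤ δ * √t → (∀ i : Fin k, ((a i.succ : ℝ) - a i.castSucc) ≤ δ * √t) →
  ∀ φ : ℕ → ℝ, (∀ x, |φ x| ≤ 1) →
  |CG (fun z => φ (univ.image z).card) r a - CG (fun z => φ (univ.image z).card) t (fun i : Fin (m + 1) => (i : ℤ))| ≤ ε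

/-- JOB TopTwo. `S_TopAll` with both bounds, for most residues. Prove `topTwo (h : S_TopAll) : S_TopTwo`.
PROOF. Let `u` be as in `S_TopAll` with a small `ε₁`, and for a residue `x` modulo `2^u` (extended periodically) let `j x` be the `j` of `S_TopAll` for
`m = x mod 2^u` (`AR.oc_per`): this is the lower bound, for all `x`. Upper bound: by the computation of JOB Top (`Pool/Agent/Q153/BT/Top.lean`) the
proportion of the `x` modulo `2^u` with `oc u (x+j) ≥ (rr γ+ε) u` for some `j < L` is at most `L exp (-u/γ) z^(-εu) ≤ L^(ε₁) z^(-εu) → 0` for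
`u ≥ (1-ε₁) γ log L` and `ε₁` small compared with `ε`. -/
def S_TopTwo : Prop := ∀ γ : ℝ, IsG γ → ∀ ε : ℝ, 0 < ε → ∃ L₀ : ℕ, ∀ L : ℕ, L₀ ≤ L → ∃ u : ℕ,
  (1 - ε) * (γ * Real.log L) ≤ u ∧ (u : ℝ) ≤ γ * Real.log L ∧ ∃ j : ℤ → ℕ, (∀ x, j x < L) ∧ (∀ x y, j (x + 2 ^ u * y) = j x) ∧
  EE u (fun x => Set.indicator {x : ℤ | ¬ |(oc u (x + j x) : ℝ) - rr γ * u| ≤ ε * u} 1 x) ≤ ε

/-- JOB Net. Lines at all the levels of the segment. Prove `net (h : S_TopTwo) : S_Net`.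
PROOF. Write `ℓ = log L`, `d_i = -ℓ/(2 log 2) + (i/k) DD γ ℓ` (the displacement `level - time/2` wanted). `DD γ = γ (rr γ - 1/2) + 1/(2 log 2)`. Let
`u = ⌊42 ℓ⌋`. If `d_i ≤ 0` put `v = ⌊-2 d_i⌋ ≤ log₂ L`, and let `j < 2^v ≤ L` with `2^v ∣ x+j`: at time `v` the level is `0`, the
displacement `-v/2`. If `d_i > 0` put `θ = d_i/(γ (rr γ-1/2) ℓ) ∈ (0,1]` and apply `S_TopTwo` to `L' = ⌊L^θ⌋` (if `θ ≤ ε₁` take `j = 0` and
`v = 0` instead): at time `v = u' ≈ θ γ ℓ` the displacement is `(rr γ - 1/2) v + O(ε₁ v) = d_i + O(ε₁ ℓ)`. From time `v` to `u` the level of this trajectory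
(`= 3^a x' + b`, `x = 2^v x' + x₀`, where `a, b` depend on `x₀` only) increases by `(u-v)/2 + O(ε₁ ℓ)` except for a proportion `≤ C/(ε₁² ℓ)` of the `x`
(Chebyshev, `KP.EE_inc`, `KP.EE_aff`, `KP.bE_dist`). All `j` are functions of `x` modulo `2^u`. -/
def S_Net : Prop := ∀ γ : ℝ, IsG γ → ∀ k : ℕ, 1 ≤ k → ∀ ε : ℝ, 0 < ε → ∃ L₀ : ℕ, ∀ L : ℕ, L₀ ≤ L → ∃ u : ℕ,
  (u : ℝ) ≤ 42 * Real.log L ∧ ∃ j : Fin (k + 1) → ℤ → ℕ, (∀ i x, j i x < L) ∧ (∀ i x y, j i (x + 2 ^ u * y) = j i x) ∧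
  EE u (fun x => Set.indicator {x : ℤ | ∃ i : Fin (k + 1), ε * Real.log L <
    |(oc u (x + j i x) : ℝ) - (u / 2 - Real.log L / (2 * Real.log 2) + (i : ℕ) / k * (DD γ * Real.log L))|} 1 x) ≤ ε

/-- JOB WalkE. The mean of the largest displacement between `s` and `t`. Prove `walkE (h : S_Mean) : S_WalkE`.
PROOF. As JOB Walk (helper182), with means: one stage `t' → t'+v`, `v ≤ t'`: `max_j |Δ_j| ≤ h + ∑_{(a,b) ∈ VV L t' x₀} (|oc v (3^a x'+b) - v/2| - h)_+`, and the mean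
of `(|k - v/2| - h)_+` for the binomial law is at most `√v exp (-2h²/v)`-like (`(y)_+ ≤ exp (s y)/s`, Hoeffding), so the stage costs
`h + (1 + C log L/√t') C √t' exp (-2 log L/√t')` in the mean with `h = √(log L) t'^(1/4)`, which is `≤ h + C √t' + ...`; more precisely with
`y = log L/√t'`: `(1+Cy) √t' exp (-2y) ≤ C √t'`. Sum over the doublings up to `t ≤ δ (log L)²`: `≤ C √(log L) t^(1/4) + C √t ≤ C (δ^(1/4) + δ^(1/2)) log L`. -/
def S_WalkE : Prop := ∀ γ : ℝ, IsG γ → ∀ ε : ℝ, 0 < ε → ∃ δ : ℝ, 0 < δ ∧ ∃ L₀ : ℕ, ∀ L : ℕ, L₀ ≤ L → ∀ s t : ℕ,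
  (γ + ε) * Real.log L ≤ s → s ≤ t → (t : ℝ) ≤ δ * Real.log L ^ 2 → ∃ G : ℤ → ℝ,
  (∀ x, 0 ≤ G x) ∧ (∀ (x : ℤ) (j : ℕ), j < L → |(oc t (x + j) : ℝ) - oc s (x + j) - ((t : ℝ) - s) / 2| ≤ G x) ∧
  EE t G ≤ ε * Real.log L

/-- JOB MeanPin. The mean number of forms after `r` steps, from the range of the levels.
PROOF. Order `V` by the level (ties in any order): `z_0, ..., z_p`. `card (V.image f) ≤ 1 + ∑ [f z_i ≠ f z_{i+1}]`, and the average of each term is at most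
`surv r state ≤ lim r (gap) + ε' ≤ Erf (gap/√r) + 2ε' ≤ (2/√π) gap/√r + 2ε'` (`AR.surv_main`; see `Pool/Agent/Q16/BT/Pin.lean` for the tools:
`nc_eq_zero`, `EE_nc'`, `Erf_mono`); the gaps add up to at most `R`. `V = ∅` is trivial. -/
def S_MeanPin : Prop := ∀ ε : ℝ, 0 < ε → ∃ ρ : ℝ, 0 < ρ ∧ ∃ r₀ : ℕ, ∀ r : ℕ, r₀ ≤ r → ∀ V : Finset (ℕ × ℤ),
  (∀ z ∈ V, ∀ z' ∈ V, z.1 ≤ z'.1 → |(z'.2 : ℝ) - 3 ^ (z'.1 - z.1) * z.2| ≤ 3 ^ (z'.1 - z.1) * Real.exp (ρ * r)) →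
  ∀ R : ℝ, 0 ≤ R → (∀ z ∈ V, ∀ z' ∈ V, (z'.1 : ℝ) - z.1 ≤ R) →
  EE r (fun N => ((V.image (nx r N)).card : ℝ)) ≤ 1 + 2 / √Real.pi * (R / √r) + ε * V.card

/-- JOB MeanUp. Prove `meanUp (h1 : S_Kap) (h2 : S_Pot) (h3 : S_Mean) (h4 : S_Top) (h5 : S_Bot) (h6 : S_WalkE) (h7 : S_MeanPin) : S_MeanUp`.
PROOF. `ℓ = log L`, `κ√t ≤ ℓ ≤ M₀√t`. `s = ⌈(γ+ε₁) ℓ⌉`, `t₂ = ⌊δ ℓ²⌋`, `r = t - t₂`. The range of the levels of `VV L t₂ x` is at most
`range_s(x) + 2 G(x)` with `G` of `S_WalkE` (mean `≤ ε₁ ℓ`), and `range_s ≤ (rr γ-1/2) s + ε₁ s + ℓ/(2 log 2) + 2ε₁ ℓ` except with probability `≤ exp (-cs) + ε₁`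
(`S_Top`, `S_Bot`), where it is at most `s ≤ 43 ℓ`. So its mean is `≤ (DD γ + C ε₁) ℓ`. Split `VV L t₂ x` into the forms with `|w| ≤ Y` and the others,
`Y = t^p` with `p` large (`θ = x/2^t₂`): the mean number of the others is at most (mean potential)/`Y^η ≤ (K (1+t₂) + 1)/Y^η ≤ ε₁` (`S_Kap`, `S_Pot`). To the first
part apply `S_MeanPin` with `ε'`, `R` = its range: `EE r ≤ 1 + (2/√π) R/√r + ε' card`, and average over `x` modulo `2^t₂`
(`EE card ≤ 1 + C ℓ/√t₂ ≤ C/√δ`, `S_Mean`; `ε'` is chosen after `δ`). `√r ≥ (1-ε₁) √t` for `δ` small (`t₂ ≤ δ M₀² t`). -/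
def S_MeanUp : Prop := ∀ γ : ℝ, IsG γ → ∀ κ M₀ ε : ℝ, 0 < κ → 0 < M₀ → 0 < ε → ∃ t₀ : ℕ, ∀ t : ℕ, t₀ ≤ t → ∀ L : ℕ, 1 ≤ L →
  κ * √t ≤ Real.log L → Real.log L ≤ M₀ * √t →
  EE t (fun x => ((VV L t x).card : ℝ)) ≤ 1 + 2 / √Real.pi * (DD γ * Real.log L / √t) + ε

/-- JOB NetLaw. The law and the mean of the number of values on the net. Prove `netLaw (h0 : S_CwMean) (h1 : S_CwNet) (h2 : S_Net) : S_NetLaw`.
PROOF. Order of the choices: `δ` from `S_CwNet`, then `k` (so that `DD γ M₀/k ≤ δ/4`), then `ε₁ = ε₁(ε, κ, M₀, k)` for `S_Net` and `SF.S_Fix`, then `t₀`.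
Let `u`, `j` be as in `S_Net`; for good `x` modulo `2^u` the `k+1` forms `(a_i, b_i) = nx u x (0, j i x)` have levels within `ε₁ ℓ` of an arithmetic
progression from `u/2 - ℓ/(2 log 2)` with difference `DD γ ℓ/k`, so increasing, with gaps `≤ (DD γ/k + 2ε₁) ℓ ≤ δ√t`, and
`|(a_k - a_0) - ⌊DD γ ℓ⌋| ≤ 2ε₁ ℓ + 1 ≤ δ√t`. Offsets: `|b' - 3^(a'-a) b| ≤ 3^(a'-a) exp (ρ r)` because `|w| ≤ (3/2)^u (L+1) = exp (O(√t))`, `r = t - u`. For
`n = 2^u N + x`: `SF.S_Fix` (`Pool.Agent.Q14.SF.fix` with its hypotheses `Q176 expand`, `Q216 sep`, `Q216 cross`, `Q177 comp`, `Q210 cinj`, `Q177 cmono`) with `G = 1`, summed over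
all patterns `π` (the number of values is a function of the pattern), and `SF.S_Conv` (`Pool.Agent.Q14.SF.conv`) give that the law of the number of values among
`T^[r] (3^a_i N + b_i)` for `N` in an interval of `≥ K 2^r` integers is within `ε₁` of `CG (φ ∘ card) r a`; then `S_CwNet`. Average over `x` (the `n ≡ x` in the
window correspond to an interval of `W/2^u + O(1)` integers `N`). For the mean use `φ x = min x (k+1)/(k+1)` with error `ε₁` (so `(k+1) ε₁` in the mean) and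
`S_CwMean`: `CG card r a = 1 + ∑ pq r (gap_i)`, `pq r g ≥ (2/√π) g/√r - ε₁ - C (g/√r)³` (`Expl.pf_lim`/`KP.pq_close`: `pq r g = Erf (g/√r) + O(ε₁)`, and
`Erf x ≥ (2/√π)(x - x³/3)`), the gaps add up to at least `DD γ ℓ - 2ε₁ ℓ - 1`. -/
def S_NetLaw : Prop := ∀ γ : ℝ, IsG γ → ∀ κ M₀ ε : ℝ, 0 < κ → 0 < M₀ → 0 < ε → ∃ k t₀ K : ℕ, ∀ t : ℕ, t₀ ≤ t → ∀ L : ℕ, 1 ≤ L →
  κ * √t ≤ Real.log L → Real.log L ≤ M₀ * √t → ∃ j : Fin (k + 1) → ℤ → ℕ, (∀ i x, j i x < L) ∧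
  ∀ (M : ℤ) (W : ℕ), K * 2 ^ t ≤ W →
  (∀ φ : ℕ → ℝ, (∀ x, |φ x| ≤ 1) → |∑ n ∈ Ico M (M + W), φ (univ.image (fun i => T^[t] (n + j i n))).card -
    CG (fun z => φ (univ.image z).card) t (fun i : Fin (⌊DD γ * Real.log L⌋₊ + 1) => (i : ℤ)) * W| ≤ ε * W) ∧
  (1 + 2 / √Real.pi * (DD γ * Real.log L / √t) - ε) * W ≤
    ∑ n ∈ Ico M (M + W), ((univ.image (fun i => T^[t] (n + j i n))).card : ℝ)

/-- JOB Full. The law and the mean of the number of values.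
Prove `full (h1 : S_CwMean) (h2 : S_Mean) (h3 : S_MeanUp) (h4 : S_NetLaw) : S_Full`.
PROOF. `ℓ = log L`, `m = ⌊DD γ ℓ⌋`. If `ℓ ≤ κ√t` (`κ` small): `Vn = 1` except with frequency `≤ Cκ` (`S_Mean`; `Vn ≤ card`, periodic:
`Pool/Agent/Q74/BT/FinB.lean`, `Vn_le`, `VV_per`, `KP.count_bd`), and the walkers have mean number `1 + m pq t 1 ≤ 1 + Cκ`. If `κ√t ≤ ℓ ≤ M₀√t`: let `N_n` be the
number of values of the net of `S_NetLaw` (with a small `ε₁`), `N_n ≤ Vn`. Mean of `Vn` `≤ 1 + (2/√π) DD γ ℓ/√t + ε₁` (`S_MeanUp`, window sums by `BL.sum_per_le`-type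
bounds for the periodic function `card`; to get the constant 1 and not 2 use `W ≥ K 2^t` and `card - 1 ≥ 0`: the sum over a window is at most `(1 + 1/K)` times
`W` times the mean), mean of `N_n` at least `1 + (2/√π) DD γ ℓ/√t - ε₁`: so `Vn = N_n` except with frequency `≤ 3ε₁`, which gives the law and the mean. -/
def S_Full : Prop := ∀ γ : ℝ, IsG γ → ∀ M₀ ε : ℝ, 0 < M₀ → 0 < ε → ∃ t₀ K : ℕ, ∀ t : ℕ, t₀ ≤ t → ∀ L : ℕ, 1 ≤ L →
  Real.log L ≤ M₀ * √t → ∀ (M : ℤ) (W : ℕ), K * 2 ^ t ≤ W →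
  (∀ φ : ℕ → ℝ, (∀ x, |φ x| ≤ 1) → |∑ n ∈ Ico M (M + W), φ (Vn L t n) -
    CG (fun z => φ (univ.image z).card) t (fun i : Fin (⌊DD γ * Real.log L⌋₊ + 1) => (i : ℤ)) * W| ≤ ε * W) ∧
  |∑ n ∈ Ico M (M + W), (Vn L t n : ℝ) - (1 + 2 / √Real.pi * (DD γ * Real.log L / √t)) * W| ≤ ε * W

end Pool.Agent.Q74.BT
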