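import Pool.Agent.Q74.BT.Stm5

/-!
# Project BT, part 6: the number of values of `T^t` on `L` consecutive integers below the threshold `L = e^(t/γ)` (lemma jobs)

`κ = log 2/log 3 - 1/2`, `ℓ = log L`. THEOREM N: uniformly in all `L ≥ 1` with `γ log L ≤ (1-ε) t` the mean number of values of `T^t` on a block of `L`
consecutive integers is `(1 + o(1)) MV`, `MV = 1 + (4κ/√π) (√(t - log L/log 2) - √(t - γ log L))`; in particular of order `√t` for `L = e^(λt)`, `0 < λ < 1/γ`,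
while for `λ > 1/γ` every block has exponentially many values (project part 1). The walkers of Theorem W now start from the
space-time line of the first contraction times: at the time `k`, `ℓ/log 2 ≤ k ≤ γℓ`, a walker is born with displacement `κ k - ℓ/log 3`.
-/

set_option autoImplicit false

namespace Pool.Agent.Q74.BT

open Finset
open Pool.Agent.Q158.Pair (T surv nc)
open Pool.Agent.Q74.AR (oc bE)
open Pool.Agent.Q74.KP (EE Erf pq Lv)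
open Pool.Agent.Q74.BL (nx ww)
open Pool.Agent.Q74.SF (CG pat Off)
open Pool.Agent.H395R2.G3 (rr FF rate)

/-- `κ = 0.1309...` -/
noncomputable def kap : ℝ := Real.log 2 / Real.log 3 - 1 / 2

/-- the main term -/
noncomputable def MV (γ : ℝ) (L t : ℕ) : ℝ :=
  1 + 4 * kap / √Real.pi * (√(t - Real.log L / Real.log 2) - √(t - γ * Real.log L))

/-- `y` is contracted at the time `k` -/
def ct (L k : ℕ) (y : ℤ) : Prop := 3 ^ oc k y * L ≤ 2 ^ k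

open Classical in
/-- the trajectories of the block whose first contraction time is in `(u₁, u₂]` -/
noncomputable def Ctr (u₁ u₂ L : ℕ) (x : ℤ) : Finset ℕ :=
  (range L).filter (fun j : ℕ => ∃ k : ℕ, u₁ < k ∧ k ≤ u₂ ∧ ct L k (x + j) ∧ ∀ i < k, ¬ ct L i (x + j))

/-- their forms at the time `t` -/
noncomputable def VW (u₁ u₂ L t : ℕ) (x : ℤ) : Finset (ℕ × ℤ) := (Ctr u₁ u₂ L x).image (fun j : ℕ => nx t x (0, (j : ℤ)))

/-- a trajectory of the block, chosen by the residue modulo `2^k`, with contraction by `L` at the time `k`, up to a constant -/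
def LN (C : ℝ) (L k : ℕ) (j : ℤ → ℕ) : Prop :=
  (∀ x, j x < L) ∧ (∀ x y, j (x + 2 ^ k * y) = j x) ∧ ∀ x,
    (2 : ℝ) ^ k ≤ C * (3 ^ oc k (x + j x) * L) ∧ (3 : ℝ) ^ oc k (x + j x) * L ≤ C * 2 ^ k ∧
    |(T^[k] (x + j x) : ℝ) - 3 ^ oc k (x + j x) * (x + j x) / 2 ^ k| ≤ C

/-- the levels at the time `t` of the trajectories of the block with small relative offset -/
noncomputable def LSg (L t : ℕ) (x : ℤ) : Finset ℤ :=
  ((range L).filter (fun j : ℕ => |(T^[t] (x + j) : ℝ) - 3 ^ oc t (x + j) * x / 2 ^ t| ≤ 3 ^ oc t (x + j) / 8)).image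
    (fun j : ℕ => (oc t (x + j) : ℤ))

/-- JOB NetE. In every block there are trajectories contracted by `L` up to a constant at every time between `α₁ ℓ` and `α₂ ℓ`.
Prove `netE (h : S_BM) : S_NetE` (`S_BM` is proved: `Pool/Agent/Q176/BT/BM.lean`; see also `chains` in `Pool/Agent/Q211/BT/LDlow.lean` and `Pool/Agent/Q209/BT/Low.lean`).
PROOF. `r = rr α`, `1/α = log 2 - r log 3`. Choose `r₁ < rr α₁ ≤ rr α₂ < r₂` with `0 < r₁`, `r₂ < rr γ`, so `0 < FF r₁, FF r₂` (`S_IsG`; `FF` is positive on `(0, rr γ)`). `S_BM` with a small `δ` gives two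
kinds of block words `(n_i, s_i)`, `i = 1, 2`, `s_i ≈ n_i/r_i` (only one word for each `y` is needed): for every `y` prime to 3 there is `x` prime to 3 with `T^[s_i] x = y`, `oc s_i x = n_i`, `|3^(n_i) x - 2^(s_i) y| ≤ 3^(n_i) 2^(s_i)`. Put
`ρ_i = 2^(s_i)/3^(n_i) > 1` (for `δ` small), `β_i = s_i/log ρ_i`; then `β_1 < α₁ ≤ α₂ < β_2` for `δ` small (`β_i → 1/(log 2 - r_i log 3)`). Concatenating `i₁` words of the first kind and `i₂` of the second, every `y` prime to 3 has an `x` prime to 3 with `T^[S] x = y`,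
`S = i₁ s₁ + i₂ s₂`, `oc S x = i₁ n₁ + i₂ n₂`, `|x - ρ y| ≤ C₁ ρ`, `ρ = ρ_1^(i₁) ρ_2^(i₂)` (geometric sum). For given `k = α ℓ`, `α₁ ≤ α ≤ α₂`, solve `i₁ s₁ + i₂ s₂ = k`, `i₁ log ρ_1 + i₂ log ρ_2 = ℓ - C₂` in real numbers
`≥ 0` (possible because `β_1 < k/ℓ < β_2`) and take integer parts: `k - C₃ ≤ S ≤ k`, `L/C₄ ≤ ρ ≤ L/(2 C₁ + 5)`. Then some `y` prime to 3 has `m + C₁ ρ ≤ ρ y < m + L - C₁ ρ`, so `x = m + j`, `j < L`, at time `S`: `3^(oc) L/2^S = L/ρ`, and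
`|T^[S] x - x/ρ| = |y - x/ρ| ≤ C₁`. Between `S` and `k ≤ S + C₃` everything changes by bounded factors. For `LN`: `j x` is chosen for `m = x mod 2^k` and extended periodically (`AR.oc_per`, `BL.T_add`). -/
def S_NetE : Prop := ∀ γ : ℝ, IsG γ → ∀ α₁ α₂ : ℝ, 1 / Real.log 2 < α₁ → α₁ ≤ α₂ → α₂ < γ → ∃ C : ℝ, 1 ≤ C ∧ ∃ L₀ : ℕ, ∀ L : ℕ, L₀ ≤ L →
  ∀ k : ℕ, α₁ * Real.log L ≤ k → (k : ℝ) ≤ α₂ * Real.log L → ∃ j : ℤ → ℕ, LN C L k j

/-- JOB Adj. The mean number of levels of `K+1` walkers with successive distances `h₀ √t`.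
PROOF. Let `u = k K`, `r = t - u ≥ ε₀ t`. By `LN` the level of trajectory `i` at time `k i` is `(k i log 2 - ℓ)/log 3 + O(log C)`, so its displacement is `κ (k i) - ℓ/log 3 + O(log C)`, and by Chebyshev (`KP.EE_inc`, `KP.EE_aff`, `EE_cheb`;
`Pool/Agent/Q14/BT/Net.lean`: `extend`) its displacement at time `u` differs from this by at most `t^(0.3)` except with probability `≤ (u - k i)/(4 t^0.6) → 0` (`u - k i ≤ C √t`). So except with probability `→ 0` the levels at time `u` are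
increasing in `i` with gaps `h₀ √t + O(t^0.3)`. The offsets: `|w| ≤ 2C` at time `k i`, so `≤ (3/2)^(u - k i) (2C+1) ≤ exp (C' √t)` at time `u`, so `be (state) ≤ exp (δ r)`. For good residues `x` mod `2^u`: lower bound `lev_mean` (`Pool/Agent/Q151/BT/TightW.lean`, with `AR.surv_main`,
`AR.qq_main`, small `e`): `1 + ∑ Erf (gap_i/√r) - K (2K+3) e`; upper bound: number of levels `≤ 1 + ∑ nc` (met trajectories have equal levels), mean `≤ 1 + ∑ surv ≤ 1 + ∑ (Erf (gap_i/√r) + e)`. `Erf` is Lipschitz and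
`t^0.3/√r → 0`. The bad residues cost `(K+1) P(bad)`. (`log L ≤ t` is only used for crude bounds.) -/
def S_Adj : Prop := ∀ (C ε₀ h₀ ε₁ : ℝ) (K : ℕ), 1 ≤ C → 0 < ε₀ → 0 < h₀ → 0 < ε₁ → ∃ t₀ : ℕ, ∀ t : ℕ, t₀ ≤ t → ∀ L : ℕ, 1 ≤ L → Real.log L ≤ t →
  ∀ k : Fin (K + 1) → ℕ, (∀ i : Fin K, |kap * ((k i.succ : ℝ) - k i.castSucc) - h₀ * √t| ≤ 1) → (k (Fin.last K) : ℝ) ≤ (1 - ε₀) * t →
  ∀ j : Fin (K + 1) → ℤ → ℕ, (∀ i, LN C L (k i) (j i)) →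
  |EE t (fun x => ((univ.image fun i => (oc t (x + j i x) : ℤ)).card : ℝ)) -
    (1 + K * Erf (h₀ * √t / √((t : ℝ) - k (Fin.last K))))| ≤ ε₁

/-- JOB Far. Far walkers do not meet.
PROOF. By `LN` the displacement at time `k` is `κ k - ℓ/log 3 + O(log C)` (the same for `k'`, `j'`), so if the levels at time `t` are equal then one of the two centred binomial variables `oc (t-k) (..) - (t-k)/2`, `oc (t-k') (..) - (t-k')/2` is at least `D/2` in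
absolute value (`C₁` absorbs the constants): Hoeffding (`Pool/Agent/Q182/BT/Walk.lean`: `tail`), `2 exp (-2 (D/2)²/t)` for each. -/
def S_Far : Prop := ∀ C : ℝ, 1 ≤ C → ∃ C₁ : ℝ, ∀ (L t k k' : ℕ) (j j' : ℤ → ℕ) (D : ℝ), 1 ≤ L → k ≤ k' → k' ≤ t → 1 ≤ t → LN C L k j → LN C L k' j' → 0 ≤ D →
  D + C₁ ≤ kap * ((k' : ℝ) - k) →
  EE t (fun x => Set.indicator {x : ℤ | oc t (x + j x) = oc t (x + j' x)} 1 x) ≤ 4 * Real.exp (-(D ^ 2 / (2 * t)))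

/-- JOB LowM. The lower bound for the mean number of levels. Prove `lowM (h1 : S_NetE) (h2 : S_Adj) (h3 : S_Far) : S_LowM`.
PROOF. `ℓ = log L`. Let `η' > 0` be small, `α₁' = α₁ + η'`, `α₂' = α₂ - η'`, `C` from `S_NetE`. Constants: `h₀` small, `H` large, `K = ⌈H/h₀⌉`. Times `k_i = ⌈α₁' ℓ⌉ + i Δ`, `Δ = ⌊h₀ √t/κ⌋`, `0 ≤ i ≤ N`, `k_N ≤ α₂' ℓ`, and nets `j_i` with `LN C L (k_i) (j_i)`. All
their levels at time `t` are in `LSg L t x`: at time `k_i` the offset `w = T^[k] (x+j) - 3^a x/2^k` is between `0` and `2C`, and `r` steps later `w' ≤ 3^(oc) (2C+1)` (`w' = 3^oc w/2^r + of`, `of ≤ 3^oc ∑ 2^(-i) ≤ 3^oc`), so `w' ≤ 3^(level)/8` because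
the level at time `k_i` is `≥ (α₁' log 2 - 1) ℓ/log 3 - C`, large. Super-blocks `b < B = ⌊N/K⌋`: `A_b(x)` = set of the levels at time `t` of the trajectories `bK ≤ i ≤ (b+1)K`. Bonferroni: `#(∪ A_b) ≥ ∑_b #A_b - ∑_{b<b'} #(A_b ∩ A_b')`.
With `u_b = k_((b+1)K)`, `S_Adj` (`K` and `2K`): `E #A_b = 1 + K Erf (h₀√t/√(t-u_b)) ± ε₁`, `E #(A_b ∪ A_(b+1)) ≥ 1 + 2K Erf (h₀√t/√(t-u_(b+1))) - ε₁`, hence `E #(A_b ∩ A_(b+1)) ≤ 1 + 3ε₁` (`u_b ≤ u_(b+1)`). For `b' ≥ b+2`, `m = b'-b-1`: `#(A_b ∩ A_b') ≤ ∑_{i,i'} [levels equal]`,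
mean `≤ 4 (K+1)² exp (-(0.9 m H)²/2)` (`S_Far`, `κ (k_i' - k_i) ≥ m K (h₀ √t - κ) ≥ 0.95 m H √t`). The sum over `m ≥ 1` is `≤ ε₁` for `H` large (`K ≤ H/h₀ + 1`). So `E #(∪ A_b) ≥ ∑_b (K Erf (h₀√t/√(t-u_b)) - 5ε₁)`, and
`K Erf (g) ≥ (2/√π) K g (1 - g²/3)`, `g = h₀√t/√(t-u_b) ≤ h₀/√ε`, `K h₀ ≥ H`: each summand is `≥ (1-ε₂) (2/√π) κ (u_b - u_(b-1))/√(t-u_(b-1)) `, a Riemann sum of `(2κ/√π) ∫ du/√(t-u) = (4κ/√π)(√(t-α₁'ℓ) - √(t-α₂'ℓ))` up to one super-block at the ends (`O(H)`, which is `≤ ε₂ ℓ/√t` for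
`M₀ ≥ M₀(H)` large). Finally `η'` costs `≤ C η' ℓ/√(εt)`. -/
def S_LowM : Prop := ∀ γ : ℝ, IsG γ → ∀ α₁ α₂ ε : ℝ, 1 / Real.log 2 ≤ α₁ → α₁ < α₂ → α₂ ≤ γ → 0 < ε → ∃ M₀ : ℝ, 0 < M₀ ∧ ∃ t₀ : ℕ, ∀ t : ℕ, t₀ ≤ t → ∀ L : ℕ, 1 ≤ L →
  M₀ * √t ≤ Real.log L → α₂ * Real.log L ≤ (1 - ε) * t →
  4 * kap / √Real.pi * (√(t - α₁ * Real.log L) - √(t - α₂ * Real.log L)) - ε * (Real.log L / √t) ≤ EE t (fun x => ((LSg L t x).card : ℝ))

/-- JOB PotW. The potential of the trajectories contracted in a window of times.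
PROOF. Let `G_k(y) = 3^(oc k y)/2^k`. As in JOB ManyUp (1) (`Stm5.lean`): if `k` is the first contraction time of `y = x + j`, `j < L`, then `2^(k-1) < 3^a L ≤ 2^k`, `a = oc k y`, which determines `a`, and `T^[k] y - 3^a x/2^k` is between `0` and `1 + k`. So all
these forms at time `k` are in a set `F_k(x)` (depending on `x` mod `2^k`) of at most `k+2` forms with `0 ≤ w ≤ k+1`, of potential `≤ (k+2)^2`. `VW u₁ u₂ L s x` is contained in `W_s`, where `W_(u₁) = ∅`, `W_(k+1) = W_k.image (nx 1 ·) ∪ F_(k+1)` for `u₁ ≤ k < u₂` and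
`W_(k+1) = W_k.image (nx 1 ·)` for `k ≥ u₂`. The one-step inequality of JOB Pot (`Pool/Agent/Q150/BT/Pot.lean`): `E (potential after one step) ≤ K₁ (k+2) + q (potential)` (all levels are `≤ k`). Iterate: `E QQ (W_s) ≤ K₁ ∑_i q^i (s+2) + ∑_{k ≤ u₂} q^(s-k) (k+2)^2`. -/
def S_PotW : Prop := ∀ η q : ℝ, 0 < η → η < 1 → la η < q → q < 1 → ∃ K : ℝ, 0 < K ∧ ∀ L u₁ u₂ s : ℕ, 1 ≤ L → u₁ ≤ u₂ → u₂ ≤ s →
  EE s (fun x => QQ η (VW u₁ u₂ L s x) (x / 2 ^ s)) ≤ K * (1 + s + q ^ (s - u₂) * (1 + u₂) ^ 2)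

/-- JOB UpWin. The mean number of forms from a window. Prove `upWin (h0 : S_Kap) (h1 : S_PotW) (h2 : S_Tree) (h3 : S_MeanPin) : S_UpWin` (`S_Kap` only to have some `η, q`).
PROOF. `s = u₂ + ⌈c₁ log t⌉` with `q^(c₁ log t) ≤ t^(-2)`: mean potential `≤ K (2+s)` at time `s` and at all later times. `v = s + ⌊δ t⌋`, `r = t - v ≥ (ε/2) t`. (1) `S_Tree` (`A = s`, after `⌊δt⌋` more steps, `BL.EE_split`, `BL.nx_add`; the set `VW u₁ u₂ L v (2^s N + x) = (VW u₁ u₂ L s x).image (nx · N)`):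
`E #VW(v) ≤ 1 + C t/√(δt)`. (2) Levels at time `v`: union bound over `k ∈ (u₁, u₂]` and the at most `k+2` forms of `F_k` (see JOB PotW), Hoeffding: except with probability `p₁ ≤ 2 (t+2)² exp (-2 ε₃² t)` all displacements at time `v` are within `ε₃ t` of those at the contraction time `k`, which are
`κ k - ℓ/log 3 + O(1)`: the range of the levels of `VW(v)` is `≤ κ (u₂ - u₁) + C₀ + 2 ε₃ t` (always `≤ t`). (3) Split `VW(v)` into `|w| ≤ Y = t^p` and the others, whose mean number is `≤ K(2+t)/Y^η ≤ 1/t` (see `Pool/Agent/Q261/BT/MeanUp.lean`: `card_far`, `card_split`, `offsets'`). `S_MeanPin` with a small `ε₄` (chosen after `δ`) for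
the first part: `E ≤ 1 + (2/√π) E[range]/√r + ε₄ E #VW(v) + 1/t`. Choose `δ`, then `ε₃`, `ε₄`. The terms `1`, `C₀/√r`, `t p₁` are `≤ small √t` for `t ≥ t₀`. -/
def S_UpWin : Prop := ∀ ε : ℝ, 0 < ε → ∃ t₀ : ℕ, ∀ t : ℕ, t₀ ≤ t → ∀ L : ℕ, 1 ≤ L → Real.log L ≤ t →
  ∀ u₁ u₂ : ℕ, u₁ ≤ u₂ → (u₂ : ℝ) ≤ (1 - ε) * t →
  EE t (fun x => ((VW u₁ u₂ L t x).card : ℝ)) ≤ 2 / √Real.pi * (kap * ((u₂ : ℝ) - u₁) / √((t : ℝ) - u₂)) + ε * √t

/-- JOB UpM. The upper bound for `λ₀ t ≤ log L`. Prove `upM (h1 : S_UpWin) (h2 : S_Top) (h3 : S_LDup) : S_UpM`.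
PROOF. `ℓ = log L`. Windows `u_i = ⌊ℓ/log 2⌋ + ..`, from `u_0 = ⌈ℓ/log 2⌉ - 1` (no contraction at times `k ≤ u_0`: `L ≤ 3^oc L ≤ 2^k` forces `k ≥ ℓ/log 2`) to `u_J = ⌈(γ+η) ℓ⌉ ≤ (1-ε/2) t`, `J` equal windows. `VV L t x = ∪ VW u_(i-1) u_i L t x ∪ (forms of the `j` not contracted at the
times `≤ u_J`)`; the mean number of these `j` is `≤ L P(3^(oc k) L > 2^k, k = u_J) ≤ C L^(-c)` (tilting as in JOB Top; `1 - α FF (rr α) > 1` for `α = γ + η`). Sum: `∑ (2/√π) κ (u_i - u_(i-1))/√(t-u_i) + J ε' √t + small`, a Riemann sum of `(4κ/√π)(√(t-u_0) - √(t-u_J))` with error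
`≤ C √t/(J ε^(3/2))`; `J` large, then `ε' = ε''/J`, `η` small. The right side of the claim is at least `c λ₀ √t` (`√(t-ℓ/log 2) - √(t-γℓ) ≥ (γ - 1/log 2) ℓ/(2√t)`). -/
def S_UpM : Prop := ∀ γ : ℝ, IsG γ → ∀ lam ε : ℝ, 0 < lam → 0 < ε → ∃ t₀ : ℕ, ∀ t : ℕ, t₀ ≤ t → ∀ L : ℕ, 1 ≤ L →
  lam * t ≤ Real.log L → γ * Real.log L ≤ (1 - ε) * t → EE t (fun x => ((VV L t x).card : ℝ)) ≤ (1 + ε) * MV γ L t

/-- JOB UpS. The upper bound for `M₀ √t ≤ log L ≤ λ₀ t`. Prove `upS (h1 : S_Kap) (h2 : S_Pot) (h3 : S_Mean) (h4 : S_Top) (h5 : S_Bot) (h6 : S_WalkE) (h7 : S_MeanPin) : S_UpS`.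
PROOF. As JOB MeanUp (`Pool/Agent/Q261/BT/MeanUp.lean`). `ℓ = log L`, `s = ⌈(γ+ε₁) ℓ⌉`, `v = s + ⌊δ t⌋` (`v ≤ t ≤ ℓ²/M₀² ≤ δ' ℓ²`, so `S_WalkE` applies up to time `v`), `r = t - v ≥ (1-ε₁) t` if `λ₀`, `δ` are small. `E #VV(v) ≤ 1 + C ℓ/√v ≤ C' ℓ/√(δt)` (`S_Mean`). Range of the levels of `VV(v)`: mean `≤ (DD γ + C ε₁) ℓ`
(`S_Top`: probability `exp (-cs)`; `S_Bot`: probability `ε₁`, then the range at time `s` is at most `s ≤ 43 ℓ`; `S_WalkE`). Far forms (`|w| > t^p`): mean number `≤ small`. `S_MeanPin` with a small `ε₂` chosen after `δ`: `E #VV(t) ≤ 1 + (2/√π)(DD γ + C ε₁) ℓ/√r + ε₂ C' ℓ/√(δt)`. And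
`MV γ L t ≥ 1 + (2/√π) DD γ ℓ/√t` (`DD γ = κ (γ - 1/log 2)`, convexity; `S_Mono` has the formulas), and `ℓ/√t ≥ M₀`. -/
def S_UpS : Prop := ∀ γ : ℝ, IsG γ → ∀ ε : ℝ, 0 < ε → ∃ lam M₀ : ℝ, 0 < lam ∧ 0 < M₀ ∧ ∃ t₀ : ℕ, ∀ t : ℕ, t₀ ≤ t → ∀ L : ℕ, 1 ≤ L →
  M₀ * √t ≤ Real.log L → Real.log L ≤ lam * t → EE t (fun x => ((VV L t x).card : ℝ)) ≤ (1 + ε) * (1 + 2 / √Real.pi * (DD γ * Real.log L / √t))

/-- JOB MeanAll. The mean number of values in windows, for all `L` below the threshold.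
Prove `meanAll (h0 : S_Mono) (h1 : S_Full) (h2 : S_LowM) (h3 : S_UpM) (h4 : S_UpS) : S_MeanAll`.
PROOF. `DD γ = κ (γ - 1/log 2)`, so `MV γ L t = 1 + (2κ/√π) ∫_{ℓ/log 2}^{γℓ} du/√(t-u)` is between `1 + (2/√π) DD γ ℓ/√t` and that times `1/√(1-γℓ/t)`. Case `ℓ ≤ M₀ √t`: `S_Full`. Case `M₀√t ≤ ℓ`: upper bound `Vn L t n ≤ #VV L t n` (periodic, window sums `≤ (W/2^t + 1) 2^t` times the mean), `S_UpS` or `S_UpM`. Lower bound:
`S_LowM` with `α₁ = 1/log 2`, `α₂ = γ`; for `|n| ≥ 2^t`: `#LSg L t n ≤ Vn L t n`, because for two trajectories of `LSg` with levels `a < a'` and `ν = n/2^t`, `|ν| ≥ 1`, the values `3^a ν + w`, `3^a' ν + w'` (`|w| ≤ 3^a/8`, `|w'| ≤ 3^a'/8`) are different (`3 (|ν| - 1/8) > |ν| + 1/8`). `LSg` is periodic mod `2^t`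
(`T^[t] (y + 2^t N) = T^[t] y + 3^a N`). The `n` with `|n| < 2^t` cost at most two periods, `≤ (2/K)` of the whole. -/
def S_MeanAll : Prop := ∀ γ : ℝ, IsG γ → ∀ ε : ℝ, 0 < ε → ∃ t₀ K : ℕ, ∀ t : ℕ, t₀ ≤ t → ∀ L : ℕ, 1 ≤ L → γ * Real.log L ≤ (1 - ε) * t →
  ∀ (M : ℤ) (W : ℕ), K * 2 ^ t ≤ W → |∑ n ∈ Ico M (M + W), (Vn L t n : ℝ) - MV γ L t * W| ≤ ε * (MV γ L t * W)

end Pool.Agent.Q74.BT
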