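import Pool.Agent.Q74.BT.Stm6

/-!
# Project BT, part 7: law of large numbers for the number of values of `T^t` on a block (lemma jobs)

THEOREM L: for `M₀ √t ≤ log L`, `γ log L ≤ (1-ε) t` the number of values of `T^t` on a block of `L` consecutive integers is `(1 ± ε) MV` except
for a proportion `ε` of the blocks.
-/

set_option autoImplicit false

namespace Pool.Agent.Q74.BT

open Finset
open Pool.Agent.Q158.Pair (T surv nc)
open Pool.Agent.Q74.AR (oc bE)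
open Pool.Agent.Q74.KP (EE Erf pq Lv)
open Pool.Agent.Q74.BL (nx ww)
open Pool.Agent.Q74.SF (CG pat Off)
open Pool.Agent.H395R2.G3 (rr FF rate)

/-- JOB CwFar. Two far groups of coalescing walkers are almost independent.
PROOF. Induction on `t` with the bound `2 h_t`, where `h_t(a)` is the probability that some walker of the first group and some walker of the second group are at the same place at some time `≤ t` (define it by the recursion of `CG`: `h_0 a = [meet]`,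
`h_(t+1) a = 1` if they meet in `a`, otherwise `CG`-average of `h_t`). If the places of the two groups are disjoint, one step of the joint system is the product of one step of each (the powerset of a disjoint union: choose the subsets independently), so the
difference for `t+1` is at most the average of the differences for `t`; if they are not disjoint it is `≤ 2`. And `h_t(a) ≤ ∑_(i,i') (probability that the walkers e i and e' i' have met by time t) = ∑ (1 - pq t |a (e i) - a (e' i')|)` (union bound, then `SF.S_Comp` for two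
walkers and `SF.S_CInj`; two walkers: `NG` is `pq`, see `Pool/Agent/Q92/BT/CwMean.lean`). -/
def S_CwFar : Prop := ∀ (k m m' : ℕ) (e : Fin m → Fin k) (e' : Fin m' → Fin k) (F : (Fin m → ℤ) → ℝ) (F' : (Fin m' → ℤ) → ℝ),
  (∀ z, |F z| ≤ 1) → (∀ z, |F' z| ≤ 1) → ∀ (t : ℕ) (a : Fin k → ℤ), (∀ i i', a (e i) < a (e' i')) →
  |CG (fun z => F (z ∘ e) * F' (z ∘ e')) t a - CG (fun z => F (z ∘ e)) t a * CG (fun z => F' (z ∘ e')) t a| ≤
    2 * ∑ i, ∑ i', (1 - pq t (a (e' i') - a (e i)))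

/-- JOB CovL. Asymptotic independence of the coincidences of two groups of trajectories at moderate distance.
Prove `covL (h1 : S_CwFar) (h2 : S_LipF) : S_CovL` (and use `S_Fix`: `Pool.Agent.Q14.BT.hfix`, `S_Lip`: `Pool.Agent.Q6.SF.lip`).
PROOF. `u = k' K` (the last time), `r = t - u ≥ ε₀ t`. As in JOB Adj (`Stm6.lean`): `u - k i ≤ (ρ/κ) t/log t + C √t = o(t)`, so by Chebyshev all the levels at time `u` are within `√(ρ' t)` (`ρ' → 0` slowly, e.g. distance `√t/(log t)^(1/4)`) of their prescribed values `u/2 + κ k_i - ℓ/log 3`, except with probability `→ 0`;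
offsets `≤ (3/2)^(u - k i) (2C+1) = exp (o(t))`; the levels differ by at most `2ρ t/log t`. So `Off ρ₁ r` holds and `S_Fix` with `2(K+1)` trajectories (all patterns `π`, `G = 1`, and the subfamilies) gives for good `x` mod `2^u`: `EE r (F F') = CG (F ⊗ F') r a ± ε₂`, `EE r F = CG F r a ± ε₂`, `EE r F' = CG F' r a ± ε₂`, `a` the
levels at time `u`; here the pattern of the levels is the pattern of `Vv` with large probability (`coll` in `Pool/Agent/Q182/BT/FamM.lean`), and a function of the pattern is a sum over `π` of `F(π) pat π` (`Pool/Agent/Q14/BT/NetA.lean`: `can`, `wt_sum`). `S_CwFar` with all gaps between the groups `≥ D₀ √t/2`: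
`CG (F ⊗ F') = CG F · CG F' ± 2 (K+1)² (1 - pq r (D₀√t/2))`, small for `D₀` large. By `S_Lip` (coordinate by coordinate) `CG F r a` and `CG F' r a` change by `o(1)` if `a` is replaced by the prescribed places, which do not depend on `x`. So `EE (F F') = c c' ± ..`, `EE F = c ± ..`, `EE F' = c' ± ..`. -/
def S_CovL : Prop := ∀ (C ε₀ h₀ ε₁ : ℝ) (K : ℕ), 1 ≤ C → 0 < ε₀ → 0 < h₀ → 0 < ε₁ → ∃ ρ D₀ : ℝ, 0 < ρ ∧ 0 < D₀ ∧ ∃ t₀ : ℕ, ∀ t : ℕ, t₀ ≤ t → ∀ L : ℕ, 1 ≤ L →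
  Real.log L ≤ t → ∀ k k' : Fin (K + 1) → ℕ, (∀ i : Fin K, |kap * ((k i.succ : ℝ) - k i.castSucc) - h₀ * √t| ≤ 1) →
  (∀ i : Fin K, |kap * ((k' i.succ : ℝ) - k' i.castSucc) - h₀ * √t| ≤ 1) → D₀ * √t ≤ kap * ((k' 0 : ℝ) - k (Fin.last K)) →
  kap * ((k' 0 : ℝ) - k (Fin.last K)) ≤ ρ * (t / Real.log t) → (k' (Fin.last K) : ℝ) ≤ (1 - ε₀) * t →
  ∀ j j' : Fin (K + 1) → ℤ → ℕ, (∀ i, LN C L (k i) (j i)) → (∀ i, LN C L (k' i) (j' i)) →
  ∀ F F' : (Fin (K + 1) → ℤ) → ℝ, (∀ z, |F z| ≤ 1) → (∀ z, |F' z| ≤ 1) →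
  (∀ v w, (∀ i i', v i = v i' ↔ w i = w i') → F v = F w) → (∀ v w, (∀ i i', v i = v i' ↔ w i = w i') → F' v = F' w) →
  |EE t (fun x => F (fun i => (oc t (x + j i x) : ℤ)) * F' (fun i => (oc t (x + j' i x) : ℤ))) -
    EE t (fun x => F (fun i => (oc t (x + j i x) : ℤ))) * EE t (fun x => F' (fun i => (oc t (x + j' i x) : ℤ)))| ≤ ε₁

/-- JOB LowP. The lower tail of the number of levels. Prove `lowP (h1 : S_NetE) (h2 : S_Adj) (h3 : S_Far) (h4 : S_CovL) : S_LowP`.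
PROOF. Notation of JOB LowM (`Stm6.lean`): super-blocks `b`, level sets `A_b`, `Z_b = #(A_b ∪ A_(b+1)) - #A_(b+1) ∈ [0, 2K+1]`, a function of the coincidences of the `2K+1` levels `bK ≤ i ≤ (b+2)K`. `#(∪ A_b) ≥ ∑_b Z_b - ∑_{b' ≥ b+2} #(A_b ∩ A_b')` and the last sum has mean `≤ ε₁ B` (`S_Far`).
`E Z_b ≥ K Erf (h₀√t/√(t-u_(b+1))) - 2ε₁ =: m_b ≥ c H` (`S_Adj`). Group the super-blocks into chunks `c` of `n_c = ⌊ρ' √t/log t⌋` consecutive ones (`ρ'` so small that `S_CovL` applies inside a chunk to pairs with `b' - b ≥ D₀/H + 3`; then `|Cov (Z_b, Z_b')| ≤ (2K+1)² ε₂`): `Var (∑_{b ∈ c} Z_b) ≤ n_c (D₀/H+3) 2 (2K+1)² + n_c² (2K+1)² ε₂`,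
so by Chebyshev the chunk is bad, `∑_{b ∈ c} Z_b < (1-ε₃) ∑_{b ∈ c} m_b`, with probability `≤ ε₄` (`ε₂` small, `t` large; if there are fewer super-blocks than one chunk, use one chunk with all of them, `B ≥ B₀` because `M₀` is large). The mean of `∑_{c bad} ∑_{b ∈ c} m_b` is `≤ ε₄ ∑ m_b`; Markov. So except with probability `≤ √ε₄ + ..`,
`#(∪ A_b) ≥ (1-ε₃-√ε₄) ∑ m_b - √ε₁ B`, and `∑_b m_b ≥ (1-ε₅) (4κ/√π)(√(t-α₁'ℓ) - √(t-α₂'ℓ))` as in JOB LowM. -/
def S_LowP : Prop := ∀ γ : ℝ, IsG γ → ∀ ε : ℝ, 0 < ε → ∃ M₀ : ℝ, 0 < M₀ ∧ ∃ t₀ : ℕ, ∀ t : ℕ, t₀ ≤ t → ∀ L : ℕ, 1 ≤ L →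
  M₀ * √t ≤ Real.log L → γ * Real.log L ≤ (1 - ε) * t →
  EE t (fun x => Set.indicator {x : ℤ | ((LSg L t x).card : ℝ) < (1 - ε) * MV γ L t} 1 x) ≤ ε

/-- JOB LLN. Prove `lln (h1 : S_MeanAll) (h2 : S_LowP) : S_LLN`.
PROOF. Let `Y_n = Vn L t n/MV`. Mean over the window `≤ 1 + ε'` (`S_MeanAll`), and `Y_n ≥ 1 - ε'` except for a proportion `2ε'` of the `n` (`S_LowP`, `#LSg ≤ Vn` for `|n| ≥ 2^t`, see JOB MeanAll; windows of length `≥ K 2^t`). So the mean of `(Y_n - (1-ε'))_+` is `≤ 1 + ε' - (1-ε')(1 - 2ε') ≤ 4ε'`, and Markov gives the upper tail. -/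
def S_LLN : Prop := ∀ γ : ℝ, IsG γ → ∀ ε : ℝ, 0 < ε → ∃ M₀ : ℝ, 0 < M₀ ∧ ∃ t₀ K : ℕ, ∀ t : ℕ, t₀ ≤ t → ∀ L : ℕ, 1 ≤ L →
  M₀ * √t ≤ Real.log L → γ * Real.log L ≤ (1 - ε) * t → ∀ (M : ℤ) (W : ℕ), K * 2 ^ t ≤ W →
  ({n : ℤ | M ≤ n ∧ n < M + W ∧ ε * MV γ L t < |(Vn L t n : ℝ) - MV γ L t|}.ncard : ℝ) ≤ ε * W

end Pool.Agent.Q74.BT
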